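import Pool.Agent.helper58.TFd

namespace Pool.Agent.helper58.TF
open Finset Filter Topology

lemma c4_lower {n : ℕ} (hn : 6 ≤ n) (G : SimpleGraph (Fin n)) (hd : 0 < dens G)
    (hl : Real.log (1 / dens G) ≤ Real.log n / 8) :
    1 - 32 / Real.sqrt n ≤ sp (dens G) (SimpleGraph.cycleGraph 4) G := by
  classical
  have hn' : (6 : ℝ) ≤ n := by exact_mod_cast hn
  have hn0 : (0 : ℝ) < n := by linarith
  have h1 := c4_hom G
  have h2 := c4_emb G
  have h3 := dens_eq (by omega : 2 ≤ n) G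
  set D := (univ.filter (fun p : Fin n × Fin n => G.Adj p.1 p.2)).card with hD
  set hom := (univ.filter (fun r : (Fin n × Fin n) × (Fin n × Fin n) =>
      (G.Adj r.1.1 r.2.1 ∧ G.Adj r.2.1 r.1.2) ∧ (G.Adj r.1.1 r.2.2 ∧ G.Adj r.2.2 r.1.2))).card
  set L := G.labelledCopyCount (SimpleGraph.cycleGraph 4) with hL
  have h1' : (D : ℝ) ^ 4 ≤ (n : ℝ) ^ 4 * hom := by exact_mod_cast h1
  have h2' : (hom : ℝ) ≤ L + 2 * (n : ℝ) ^ 3 := by exact_mod_cast h2
  have hDd : (D : ℝ) = dens G * (n * (n - 1)) := by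
    rw [h3]
    have : (n : ℝ) - 1 ≠ 0 := by linarith
    field_simp
  have h4 : dens G ^ 4 * ((n : ℝ) - 1) ^ 4 ≤ L + 2 * (n : ℝ) ^ 3 := by
    have h5 : (n : ℝ) ^ 4 * (dens G ^ 4 * ((n : ℝ) - 1) ^ 4) ≤ (n : ℝ) ^ 4 * (L + 2 * (n : ℝ) ^ 3) := by
      calc (n : ℝ) ^ 4 * (dens G ^ 4 * ((n : ℝ) - 1) ^ 4) = (D : ℝ) ^ 4 := by rw [hDd]; ring
        _ ≤ (n : ℝ) ^ 4 * hom := h1'
        _ ≤ _ := by gcongr
    exact le_of_mul_le_mul_left h5 (by positivity)
  have hE : Nat.card (SimpleGraph.cycleGraph 4).edgeSet = 4 := by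
    rw [card_edgeSet_eq]; decide
  rw [sp, hE]
  have hdf : (n.descFactorial 4 : ℝ) = n * (n - 1) * (n - 2) * (n - 3) := by
    have : n.descFactorial 4 = (n - 3) * ((n - 2) * ((n - 1) * (n * 1))) := by
      simp [Nat.descFactorial]
    rw [this]
    push_cast [Nat.cast_sub (by omega : 3 ≤ n), Nat.cast_sub (by omega : 2 ≤ n),
      Nat.cast_sub (by omega : 1 ≤ n)]
    ring
  rw [← hL, hdf]
  set δ := dens G with hδ
  have hs : 0 < Real.sqrt n := Real.sqrt_pos.mpr hn0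
  have hsq : Real.sqrt n * Real.sqrt n = n := Real.mul_self_sqrt hn0.le
  -- (1/δ)^4 ≤ √n
  have h6 : (1 / δ) ^ 4 ≤ Real.sqrt n := by
    rw [← Real.log_le_log_iff (by positivity) hs, Real.log_pow, Real.log_sqrt hn0.le]
    push_cast
    linarith
  have h7 : 1 ≤ δ ^ 4 * Real.sqrt n := by
    have h8 : (1 / δ) ^ 4 * δ ^ 4 = 1 := by
      rw [← mul_pow, one_div, inv_mul_cancel₀ hd.ne', one_pow]
    calc (1 : ℝ) = (1 / δ) ^ 4 * δ ^ 4 := h8.symm
      _ ≤ Real.sqrt n * δ ^ 4 := by gcongr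
      _ = _ := by ring
  have hpos : (0 : ℝ) < n * (n - 1) * (n - 2) * (n - 3) * δ ^ 4 := by
    have e1 : (0 : ℝ) < n - 1 := by linarith
    have e2 : (0 : ℝ) < n - 2 := by linarith
    have e3 : (0 : ℝ) < n - 3 := by linarith
    positivity
  rw [le_div_iff₀ hpos]
  -- X := n(n-1)(n-2)(n-3) ≤ (n-1)^4, X ≥ n^4/16
  set X : ℝ := n * (n - 1) * (n - 2) * (n - 3) with hX
  have hX1 : X ≤ ((n : ℝ) - 1) ^ 4 := by
    rw [hX]
    have e1 : (n : ℝ) * (n - 2) ≤ (n - 1) ^ 2 := by nlinarith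
    have e2 : ((n : ℝ) - 1) * (n - 3) ≤ (n - 1) ^ 2 := by nlinarith
    calc (n : ℝ) * (n - 1) * (n - 2) * (n - 3) = (n * (n - 2)) * ((n - 1) * (n - 3)) := by ring
      _ ≤ (n - 1) ^ 2 * (n - 1) ^ 2 := by
          apply mul_le_mul e1 e2 _ (by positivity)
          apply mul_nonneg <;> linarith
      _ = _ := by ring
  have hX2 : (n : ℝ) ^ 4 / 16 ≤ X := by
    rw [hX]
    have e1 : (n : ℝ) / 2 ≤ n - 1 := by linarith
    have e2 : (n : ℝ) / 2 ≤ n - 2 := by linarith
    have e3 : (n : ℝ) / 2 ≤ n - 3 := by linarith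
    have e4 : (0 : ℝ) ≤ n * (n - 1) := mul_nonneg hn0.le (by linarith)
    calc (n : ℝ) ^ 4 / 16 ≤ (n : ℝ) * (n / 2) * (n / 2) * (n / 2) := by
          nlinarith [pow_pos hn0 4]
      _ ≤ _ := by
          apply mul_le_mul _ e3 (by positivity) (mul_nonneg e4 (by linarith))
          apply mul_le_mul _ e2 (by positivity) e4
          exact mul_le_mul_of_nonneg_left e1 hn0.le
  have h9 : 2 * (n : ℝ) ^ 3 ≤ 32 / Real.sqrt n * (X * δ ^ 4) := by
    have h10 : (n : ℝ) ^ 4 / 16 * (1 / Real.sqrt n) ≤ X * δ ^ 4 := by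
      apply mul_le_mul hX2 _ (by positivity) (by
        have : (0 : ℝ) ≤ (n : ℝ) ^ 4 / 16 := by positivity
        linarith)
      rw [div_le_iff₀ hs]; exact h7
    calc 2 * (n : ℝ) ^ 3 = 32 / Real.sqrt n * ((n : ℝ) ^ 4 / 16 * (1 / Real.sqrt n)) := by
          field_simp
          rw [sq, hsq]
          ring
      _ ≤ _ := by gcongr
  have h11 : X * δ ^ 4 ≤ δ ^ 4 * ((n : ℝ) - 1) ^ 4 := by
    rw [mul_comm]; gcongr
  calc (1 - 32 / Real.sqrt n) * (X * δ ^ 4) = X * δ ^ 4 - 32 / Real.sqrt n * (X * δ ^ 4) := by ring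
    _ ≤ _ := by linarith

lemma exists_small {n : ℕ} (hn : 2 ≤ n) : ∃ G : SimpleGraph (Fin n), G.CliqueFree 3 ∧ 0 < dens G := by
  classical
  have h01 : (⟨0, by omega⟩ : Fin n) ≠ ⟨1, by omega⟩ := by simp
  refine ⟨SimpleGraph.edge ⟨0, by omega⟩ ⟨1, by omega⟩, ?_, ?_⟩
  · intro s hs
    rw [SimpleGraph.is3Clique_iff] at hs
    obtain ⟨x, y, z, hxy, hxz, hyz, _⟩ := hs
    rw [SimpleGraph.edge_adj] at hxy hxz hyz
    simp only [Fin.ext_iff] at hxy hxz hyz
    omega
  · rw [dens]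
    have h1 : (0 : ℝ) < (n.choose 2 : ℕ) := by
      exact_mod_cast Nat.choose_pos hn
    apply div_pos _ h1
    have h2 : 0 < Nat.card (SimpleGraph.edge (⟨0, by omega⟩ : Fin n) ⟨1, by omega⟩).edgeSet := by
      rw [Nat.card_pos_iff]
      refine ⟨⟨⟨s(⟨0, by omega⟩, ⟨1, by omega⟩), ?_⟩⟩, inferInstance⟩
      rw [SimpleGraph.mem_edgeSet, SimpleGraph.edge_adj]
      exact ⟨Or.inl ⟨rfl, rfl⟩, h01⟩
    exact_mod_cast h2

lemma dens_le_one {n : ℕ} (G : SimpleGraph (Fin n)) : dens G ≤ 1 := by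
  classical
  rw [dens, card_edgeSet_eq]
  have h := SimpleGraph.card_edgeFinset_le_card_choose_two (G := G)
  rw [Fintype.card_fin] at h
  apply div_le_one_of_le₀ _ (Nat.cast_nonneg _)
  exact_mod_cast h

theorem main : ∃ (p : ℕ → ℝ) (G : (n : ℕ) → SimpleGraph (Fin n)),
    (∀ n, 0 < p n ∧ p n ≤ 1) ∧
    Tendsto (fun n : ℕ => Real.log (1 / p n) / Real.log n) atTop (𝓝 0) ∧
    (∀ n, (Nat.card (G n).edgeSet : ℝ) = p n * (n.choose 2 : ℝ)) ∧
    Tendsto (fun n => sp (p n) (SimpleGraph.cycleGraph 4) (G n)) atTop (𝓝 1) ∧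
    (∀ (k : ℕ) (F : SimpleGraph (Fin k)), BddAbove (Set.range fun n => sp (p n) F (G n))) ∧
    (∀ n, (G n).CliqueFree 3) ∧
    (∀ n, sp (p n) (⊤ : SimpleGraph (Fin 3)) (G n) = 0) := by
  classical
  have hM : ∀ m : ℕ, ∃ M : ℕ, ∀ n ≥ M, 1 ≤ m → ∃ G, Good m n G := by
    intro m
    by_cases hm : 1 ≤ m
    · obtain ⟨M, hM⟩ := Filter.eventually_atTop.mp (good_ex m hm)
      exact ⟨M, fun n hn _ => hM n hn⟩
    · exact ⟨0, fun _ _ h => absurd h hm⟩
  choose M hM using hM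
  set d : ℕ → ℕ := fun n => Nat.findGreatest (fun m => M m ≤ n) n with hd
  have hd1 : ∀ m, ∀ᶠ n in atTop, m ≤ d n := by
    intro m
    filter_upwards [eventually_ge_atTop (M m), eventually_ge_atTop m] with n h1 h2
    exact Nat.le_findGreatest h2 h1
  have hd2 : ∀ n, 1 ≤ d n → M (d n) ≤ n := by
    intro n h
    have := Nat.findGreatest_of_ne_zero (P := fun m => M m ≤ n) (n := n) rfl (by
      show d n ≠ 0; omega)
    exact this
  have hG : ∀ n, ∃ G : SimpleGraph (Fin n), G.CliqueFree 3 ∧ (2 ≤ n → 0 < dens G) ∧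
      (1 ≤ d n → Good (d n) n G) := by
    intro n
    by_cases h : 1 ≤ d n
    · obtain ⟨G, hG⟩ := hM (d n) n (hd2 n h) h
      exact ⟨G, hG.1, fun _ => hG.2.1, fun _ => hG⟩
    · by_cases hn : 2 ≤ n
      · obtain ⟨G, h1, h2⟩ := exists_small hn
        exact ⟨G, h1, fun _ => h2, fun h' => absurd h' h⟩
      · refine ⟨⊥, ?_, fun h' => absurd h' hn, fun h' => absurd h' h⟩
        exact SimpleGraph.cliqueFree_bot (by norm_num)
  choose G hG1 hG2 hG3 using hG
  have hdinv : Tendsto (fun n => 1 / ((d n : ℝ) + 1)) atTop (𝓝 0) := by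
    have h1 : Tendsto d atTop atTop := Filter.tendsto_atTop.mpr hd1
    exact tendsto_one_div_add_atTop_nhds_zero_nat.comp h1
  have hdtop : Tendsto d atTop atTop := Filter.tendsto_atTop.mpr hd1
  set p : ℕ → ℝ := fun n => if n < 2 then 1 else dens (G n) with hp
  have hpn : ∀ n, 2 ≤ n → p n = dens (G n) := by
    intro n hn
    simp only [hp]
    rw [if_neg (by omega)]
  -- log bound
  have hlog : ∀ᶠ n : ℕ in atTop, Real.log (1 / p n) / Real.log n ≤ 1 / ((d n : ℝ) + 1) := by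
    filter_upwards [hd1 1, eventually_ge_atTop 3] with n h1 h2
    rw [hpn n (by omega)]
    have h3 := (hG3 n h1).2.2.1
    have h4 : 0 < Real.log n := Real.log_pos (by
      have : (3 : ℝ) ≤ n := by exact_mod_cast h2
      linarith)
    rw [div_le_iff₀ h4]
    calc Real.log (1 / dens (G n)) ≤ Real.log n / (d n + 1) := h3
      _ = _ := by ring
  have hpos : ∀ n, 0 < p n ∧ p n ≤ 1 := by
    intro n
    by_cases hn : n < 2
    · simp only [hp]; rw [if_pos hn]; norm_num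
    · rw [hpn n (by omega)]
      exact ⟨hG2 n (by omega), dens_le_one _⟩
  have hlim : Tendsto (fun n : ℕ => Real.log (1 / p n) / Real.log n) atTop (𝓝 0) := by
    apply tendsto_of_tendsto_of_tendsto_of_le_of_le' tendsto_const_nhds hdinv
    · filter_upwards [eventually_ge_atTop 1] with n hn
      apply div_nonneg
      · apply Real.log_nonneg
        rw [le_div_iff₀ (hpos n).1]
        linarith [(hpos n).2]
      · apply Real.log_nonneg
        exact_mod_cast hn
    · exact hlog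
  -- upper bounds
  have hup : ∀ (k : ℕ) (F : SimpleGraph (Fin k)), F.CliqueFree 3 → ∀ᶠ n : ℕ in atTop,
      sp (p n) F (G n) ≤ bd (d n) (Nat.card F.edgeSet) k + 1 / ((d n : ℝ) + 1) := by
    intro k F hF
    filter_upwards [hd1 1, hd1 k, eventually_ge_atTop 2] with n h1 h2 h3
    rw [hpn n h3]
    exact (hG3 n h1).2.2.2 ⟨k, by omega⟩ F hF
  have hupt : ∀ (k : ℕ) (F : SimpleGraph (Fin k)), Tendsto (fun n : ℕ =>
      bd (d n) (Nat.card F.edgeSet) k + 1 / ((d n : ℝ) + 1)) atTop (𝓝 1) := by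
    intro k F
    have := ((bd_tendsto (Nat.card F.edgeSet) k).comp hdtop).add hdinv
    simpa using this
  refine ⟨p, G, hpos, hlim, ?_, ?_, ?_, hG1, ?_⟩
  · intro n
    by_cases hn : n < 2
    · have h1 : n.choose 2 = 0 := Nat.choose_eq_zero_of_lt hn
      rw [h1]
      have h2 : Subsingleton (Fin n) := by
        rw [Fin.subsingleton_iff_le_one]; omega
      have h3 : G n = ⊥ := Subsingleton.elim _ _
      rw [h3]
      simp
    · rw [hpn n (by omega), dens]
      have h1 : (0 : ℝ) < (n.choose 2 : ℕ) := by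
        exact_mod_cast Nat.choose_pos (by omega : 2 ≤ n)
      field_simp
  · apply tendsto_of_tendsto_of_tendsto_of_le_of_le' (g := fun n : ℕ => 1 - 32 / Real.sqrt n) _
      (hupt 4 (SimpleGraph.cycleGraph 4))
    · filter_upwards [hd1 7, eventually_ge_atTop 6] with n h1 h2
      rw [hpn n (by omega)]
      have hg := hG3 n (by omega)
      apply c4_lower h2 _ hg.2.1
      refine hg.2.2.1.trans ?_
      have h3 : (7 : ℝ) ≤ d n := by exact_mod_cast h1
      have h4 : 0 ≤ Real.log n := Real.log_natCast_nonneg n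
      apply div_le_div_of_nonneg_left h4 (by norm_num) (by linarith)
    · apply hup
      intro s hs
      rw [SimpleGraph.is3Clique_iff] at hs
      obtain ⟨x, y, z, hxy, hxz, hyz, -⟩ := hs
      clear hupt hup hlim hpos hlog hpn hp hdtop hdinv hG3 hG2 hG1 hd2 hd1 hd
      revert x y z
      decide
    · have h1 : Tendsto (fun n : ℕ => Real.sqrt n) atTop atTop :=
        Real.tendsto_sqrt_atTop.comp tendsto_natCast_atTop_atTop
      have h2 : Tendsto (fun n : ℕ => 32 / Real.sqrt n) atTop (𝓝 0) := h1.const_div_atTop 32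
      simpa using h2.const_sub 1
  · intro k F
    apply Filter.IsBoundedUnder.bddAbove_range
    by_cases hF : F.CliqueFree 3
    · refine ⟨2, ?_⟩
      rw [Filter.eventually_map]
      filter_upwards [hup k F hF, (hupt k F).eventually (gt_mem_nhds (by norm_num : (1 : ℝ) < 2))]
        with n h1 h2
      linarith
    · refine ⟨0, ?_⟩
      rw [Filter.eventually_map]
      apply Filter.Eventually.of_forall
      intro n
      have h0 : (G n).labelledCopyCount F = 0 := by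
        rw [SimpleGraph.labelledCopyCount_eq_zero]
        intro hc
        rw [SimpleGraph.not_cliqueFree_iff_top_isContained] at hF
        exact (hF.trans hc).not_cliqueFree (hG1 n)
      rw [sp, h0]
      simp
  · intro n
    have h0 : (G n).labelledCopyCount (⊤ : SimpleGraph (Fin 3)) = 0 := by
      rw [SimpleGraph.labelledCopyCount_eq_zero, ← SimpleGraph.cliqueFree_iff_top_free]
      simpa using hG1 n
    rw [sp, h0]
    simp

end Pool.Agent.helper58.TF

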