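import Pool.Agent.helper58.NGBase

set_option autoImplicit false

namespace Pool.Agent.helper58.NG

open Matrix

section
variable {V : Type} [Fintype V] [DecidableEq V]

/-- realizable with at most `a` distinct eigenvalues (no strong property) -/
def R (G : SimpleGraph V) (a : ℕ) : Prop :=
  ∃ A : Matrix V V ℝ, A.IsSymm ∧ Pat G A ∧ nEig A ≤ a

def PR (G : SimpleGraph V) : Prop := ∃ a b, R G a ∧ R Gᶜ b ∧ a + b ≤ Fintype.card V + 2

lemma Sav.toR {G : SimpleGraph V} {c : ℕ} (h : Sav G c) : R G (Fintype.card V - c) := by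
  obtain ⟨A, h1, h2, -, h4⟩ := h
  exact ⟨A, h1, h2, by omega⟩

lemma Good.toPR {G : SimpleGraph V} (h : Good G) : PR G := by
  obtain ⟨a, b, ha, hb, hab⟩ := h
  have := ha.le_card
  have := hb.le_card
  exact ⟨_, _, ha.toR, hb.toR, by omega⟩

lemma PR.compl {G : SimpleGraph V} (h : PR G) : PR Gᶜ := by
  obtain ⟨a, b, ha, hb, hab⟩ := h
  exact ⟨b, a, hb, by rwa [compl_compl], by omega⟩

lemma R.equiv {W : Type} [Fintype W] [DecidableEq W] (e : V ≃ W) (G : SimpleGraph W) {c : ℕ}
    (h : R (G.comap e) c) : R G c := by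
  obtain ⟨A, h1, h2, h4⟩ := h
  have hsp : spectrum ℝ (A.submatrix e.symm e.symm) = spectrum ℝ A := by
    have := AlgEquiv.spectrum_eq (Matrix.reindexAlgEquiv ℝ ℝ e) A
    rw [← this]
    rfl
  refine ⟨A.submatrix e.symm e.symm, ?_, ?_, ?_⟩
  · unfold Matrix.IsSymm
    rw [Matrix.transpose_submatrix, h1.eq]
  · intro i j hij
    have := h2 (e.symm i) (e.symm j) (fun h => hij (e.symm.injective h))
    simpa using this
  · rw [nEig_congr hsp]
    exact h4

lemma PR.equiv {W : Type} [Fintype W] [DecidableEq W] (e : V ≃ W) (G : SimpleGraph W)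
    (h : PR (G.comap e)) : PR G := by
  obtain ⟨a, b, ha, hb, hab⟩ := h
  refine ⟨a, b, ha.equiv e G, ?_, ?_⟩
  · apply R.equiv e
    have : (G.comap e)ᶜ = Gᶜ.comap e := by
      ext i j
      simp [SimpleGraph.compl_adj]
    rwa [← this]
  · rwa [← Fintype.card_congr e]

lemma PR.of_small (G : SimpleGraph V) (h : Fintype.card V ≤ 2) : PR G :=
  ⟨_, _, (sav_zero G).toR, (sav_zero Gᶜ).toR, by omega⟩

end

lemma R_of_int {n : ℕ} (M : Matrix (Fin n) (Fin n) ℤ) (hs : M.IsSymm) (p : Polynomial ℝ)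
    (hp : p ≠ 0) (h0 : Polynomial.aeval (rl M) p = 0) (G : SimpleGraph (Fin n))
    (hG : ∀ i j, i ≠ j → (M i j ≠ 0 ↔ G.Adj i j)) : R G p.natDegree := by
  refine ⟨rl M, ?_, ?_, nEig_le_of_poly _ p hp h0⟩
  · unfold Matrix.IsSymm rl
    rw [← Matrix.transpose_map, hs.eq]
  · intro i j hij
    rw [← hG i j hij, rl_apply]
    simp

instance (n m : ℕ) : DecidableRel (mg n m).Adj := fun i j => by
  unfold mg; infer_instance

/-! ### n = 3 -/

def mL3 : Matrix (Fin 3) (Fin 3) ℤ := !![1, 0, -1; 0, 0, 0; -1, 0, 1]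

lemma PR3 : PR (mg 3 2) := by
  refine ⟨2, 3, ?_, (sav_zero _).toR, by norm_num⟩
  have hdeg := quad_deg (((2 : ℤ)) : ℝ) (((0 : ℤ)) : ℝ)
  have := R_of_int mL3 (by decide) _ ?_ (aeval_quad mL3 2 0 (by decide)) (mg 3 2) ?_
  · rwa [hdeg] at this
  · intro h
    rw [h] at hdeg
    simp at hdeg
  · have : ∀ i j : Fin 3, i ≠ j → (ent mL3 i j ≠ 0 ↔ (mg 3 2).Adj i j) := by decide
    exact this

/-! ### n = 4 -/

def mL4 : Matrix (Fin 4) (Fin 4) ℤ := !![1, -1, 0, 0; -1, 2, -1, 0; 0, -1, 1, 0; 0, 0, 0, 0]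

lemma PR4 : PR (mg 4 5) := by
  refine ⟨3, 3, ?_, ?_, by norm_num⟩
  · have hdeg : (Polynomial.X ^ 3 - (Polynomial.C (4:ℝ) * Polynomial.X ^ 2
        - Polynomial.C (3:ℝ) * Polynomial.X)).natDegree = 3 := by
      compute_degree!
    have h1 : mL4 * mL4 * mL4 = (4:ℤ) • (mL4 * mL4) - (3:ℤ) • mL4 := by decide
    have h2 : rl mL4 * rl mL4 * rl mL4 = (4:ℝ) • (rl mL4 * rl mL4) - (3:ℝ) • rl mL4 := by
      rw [← rl_mul, ← rl_mul, h1]
      ext i j
      simp only [rl_apply, Matrix.smul_apply, smul_eq_mul, Int.cast_mul, Matrix.sub_apply,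
        Int.cast_sub]
      norm_num
    have := R_of_int mL4 (by decide) (Polynomial.X ^ 3 - (Polynomial.C (4:ℝ) * Polynomial.X ^ 2
        - Polynomial.C (3:ℝ) * Polynomial.X)) ?_ ?_ (mg 4 5) ?_
    · rwa [hdeg] at this
    · intro h
      rw [h] at hdeg
      simp at hdeg
    · simp only [map_sub, map_mul, map_pow, Polynomial.aeval_X, Polynomial.aeval_C]
      rw [pow_succ, pow_two, h2, Algebra.algebraMap_eq_smul_one, Algebra.algebraMap_eq_smul_one]
      simp only [smul_mul_assoc, one_mul, sub_self]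
    · have : ∀ i j : Fin 4, i ≠ j → (ent mL4 i j ≠ 0 ↔ (mg 4 5).Adj i j) := by decide
      exact this
  · refine Sav.toR (c := 1) (sav_K3.embed ![0, 2, 3] (by decide) ?_)
    have : ∀ i j : Fin 3, (mgr mK3).Adj i j →
      ((![0, 2, 3] : Fin 3 → Fin 4) i) ≠ ((![0, 2, 3] : Fin 3 → Fin 4) j) ∧
      ¬ (mg 4 5).Adj ((![0, 2, 3] : Fin 3 → Fin 4) i) ((![0, 2, 3] : Fin 3 → Fin 4) j) := by decide
    exact this

/-! ### n = 5 -/

def mL5 : Matrix (Fin 5) (Fin 5) ℤ :=
  !![1, -1, 0, 0, 0; -1, 2, -1, 0, 0; 0, -1, 2, -1, 0; 0, 0, -1, 1, 0; 0, 0, 0, 0, 0]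

lemma PR5 : PR (mg 5 37) := by
  refine ⟨4, 3, ?_, ?_, by norm_num⟩
  · have hdeg : (Polynomial.X ^ 4 - (Polynomial.C (6:ℝ) * Polynomial.X ^ 3
        - Polynomial.C (10:ℝ) * Polynomial.X ^ 2 + Polynomial.C (4:ℝ) * Polynomial.X)).natDegree
        = 4 := by
      compute_degree!
    have h1 : mL5 * mL5 * mL5 * mL5 = (6:ℤ) • (mL5 * mL5 * mL5) - (10:ℤ) • (mL5 * mL5)
        + (4:ℤ) • mL5 := by decide
    have h2 : rl mL5 * rl mL5 * rl mL5 * rl mL5 = (6:ℝ) • (rl mL5 * rl mL5 * rl mL5)
        - (10:ℝ) • (rl mL5 * rl mL5) + (4:ℝ) • rl mL5 := by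
      rw [← rl_mul, ← rl_mul, ← rl_mul, h1]
      ext i j
      simp only [rl_apply, Matrix.smul_apply, smul_eq_mul, Int.cast_mul, Matrix.sub_apply,
        Int.cast_sub, Matrix.add_apply, Int.cast_add]
      norm_num
    have := R_of_int mL5 (by decide) (Polynomial.X ^ 4 - (Polynomial.C (6:ℝ) * Polynomial.X ^ 3
        - Polynomial.C (10:ℝ) * Polynomial.X ^ 2 + Polynomial.C (4:ℝ) * Polynomial.X)) ?_ ?_
        (mg 5 37) ?_
    · rwa [hdeg] at this
    · intro h
      rw [h] at hdeg
      simp at hdeg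
    · simp only [map_sub, map_add, map_mul, map_pow, Polynomial.aeval_X, Polynomial.aeval_C]
      rw [pow_succ, pow_succ, pow_two, h2, Algebra.algebraMap_eq_smul_one,
        Algebra.algebraMap_eq_smul_one, Algebra.algebraMap_eq_smul_one]
      simp only [smul_mul_assoc, one_mul, sub_self]
    · have : ∀ i j : Fin 5, i ≠ j → (ent mL5 i j ≠ 0 ↔ (mg 5 37).Adj i j) := by decide
      exact this
  · refine Sav.toR (c := 2) (sav_C4.embed ![0, 2, 4, 3] (by decide) ?_)
    have : ∀ i j : Fin 4, (mgr mC4).Adj i j →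
      ((![0, 2, 4, 3] : Fin 4 → Fin 5) i) ≠ ((![0, 2, 4, 3] : Fin 4 → Fin 5) j) ∧
      ¬ (mg 5 37).Adj ((![0, 2, 4, 3] : Fin 4 → Fin 5) i)
        ((![0, 2, 4, 3] : Fin 4 → Fin 5) j) := by decide
    exact this

lemma mg_compl (n m m' : ℕ)
    (h : ∀ i j : Fin n, (mg n m').Adj i j ↔ (i ≠ j ∧ ¬ (mg n m).Adj i j)) :
    mg n m' = (mg n m)ᶜ := by
  ext i j
  rw [SimpleGraph.compl_adj]
  exact h i j

theorem PR_main (n : ℕ) (G : SimpleGraph (Fin n))
    (h4 : IsEmpty (G ≃g SimpleGraph.pathGraph 4))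
    (h5 : IsEmpty (G ≃g SimpleGraph.pathGraph 5))
    (h5c : IsEmpty (G ≃g (SimpleGraph.pathGraph 5)ᶜ))
    (hb : IsEmpty (G ≃g SimpleGraph.fromEdgeSet
        ({s((0 : Fin 5), 1), s((1 : Fin 5), 2), s((0 : Fin 5), 2),
          s((0 : Fin 5), 3), s((1 : Fin 5), 4)} : Set (Sym2 (Fin 5))))) : PR G := by
  rcases Nat.lt_or_ge n 6 with hn | hn
  · interval_cases n
    · exact PR.of_small G (by simp)
    · exact PR.of_small G (by simp)
    · exact PR.of_small G (by simp)
    · rcases class3 G with h | ⟨k, hk, σ, hσ⟩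
      · exact h.toPR
      · apply PR.equiv σ
        rw [hσ]
        interval_cases k
        · show PR (mg 3 5)
          rw [mg_compl 3 2 5 (by decide)]
          exact PR3.compl
        · exact PR3
    · rcases class4 G with h | ⟨k, hk, σ, hσ⟩
      · exact h.toPR
      · interval_cases k
        · exfalso
          have hP : mg 4 (excM 4 0) = SimpleGraph.pathGraph 4 := by
            ext i j
            rw [SimpleGraph.pathGraph_adj]
            revert i j
            decide
          have e := SimpleGraph.Iso.comap σ G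
          rw [hσ, hP] at e
          exact h4.false e.symm
        · apply PR.equiv σ
          rw [hσ]
          exact PR4
        · apply PR.equiv σ
          rw [hσ]
          show PR (mg 4 58)
          rw [mg_compl 4 5 58 (by decide)]
          exact PR4.compl
    · rcases class5 G with h | ⟨k, hk, σ, hσ⟩
      · exact h.toPR
      · have hP : mg 5 549 = SimpleGraph.pathGraph 5 := by
          ext i j
          rw [SimpleGraph.pathGraph_adj]
          revert i j
          decide
        have e := SimpleGraph.Iso.comap σ G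
        interval_cases k
        · exfalso
          rw [hσ] at e
          change mg 5 549 ≃g G at e
          rw [hP] at e
          exact h5.false e.symm
        · exfalso
          rw [hσ] at e
          change mg 5 474 ≃g G at e
          rw [mg_compl 5 549 474 (by decide), hP] at e
          exact h5c.false e.symm
        · exfalso
          rw [hσ] at e
          change mg 5 143 ≃g G at e
          have hB : mg 5 143 = SimpleGraph.fromEdgeSet
              ({s((0 : Fin 5), 1), s((1 : Fin 5), 2), s((0 : Fin 5), 2),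
              s((0 : Fin 5), 3), s((1 : Fin 5), 4)} : Set (Sym2 (Fin 5))) := by
            ext i j
            simp only [SimpleGraph.fromEdgeSet_adj, Set.mem_insert_iff, Set.mem_singleton_iff,
              Sym2.eq_iff]
            revert i j
            decide
          rw [hB] at e
          exact hb.false e.symm
        · apply PR.equiv σ
          rw [hσ]
          exact PR5
        · apply PR.equiv σ
          rw [hσ]
          show PR (mg 5 986)
          rw [mg_compl 5 37 986 (by decide)]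
          exact PR5.compl
  · exact (good_all n hn (Fin n) G (Fintype.card_fin n)).toPR

end Pool.Agent.helper58.NG
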