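import Pool.Agent.helper58.NGStep
import Pool.Agent.helper58.NGTab

set_option autoImplicit false

namespace Pool.Agent.helper58.NG

open Matrix

/-! ### graphs from edge lists -/

def eg (k : ℕ) (E : List (ℕ × ℕ)) : SimpleGraph (Fin k) where
  Adj i j := i ≠ j ∧ ((i.1, j.1) ∈ E ∨ (j.1, i.1) ∈ E)
  symm := ⟨fun _ _ h => ⟨h.1.symm, h.2.symm⟩⟩
  loopless := ⟨fun _ h => h.1 rfl⟩

instance (k : ℕ) (E : List (ℕ × ℕ)) : DecidableRel (eg k E).Adj := fun i j => by
  unfold eg; infer_instance

lemma two_le_nb {V : Type} [Fintype V] [DecidableEq V] (G : SimpleGraph V) (v a b : V)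
    (hab : a ≠ b) (ha : G.Adj v a) (hb : G.Adj v b) : 2 ≤ (nb G v).card := by
  have : 1 < (nb G v).card := Finset.one_lt_card.2 ⟨a, (mem_nb _ _ _).2 ha, b, (mem_nb _ _ _).2 hb, hab⟩
  omega

lemma seed1 : Sav (eg 3 (seedL 1).2.1) 1 := by
  refine sav_K3.mono ?_
  have : ∀ i j : Fin 3, (mgr mK3).Adj i j → (eg 3 (seedL 1).2.1).Adj i j := by decide
  exact this

lemma seed2 : Sav (eg 4 (seedL 2).2.1) 1 := by
  refine sav_claw.mono ?_
  have : ∀ i j : Fin 4, (mgr mClaw).Adj i j → (eg 4 (seedL 2).2.1).Adj i j := by decide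
  exact this

lemma seed3 : Sav (eg 4 (seedL 3).2.1) 2 := by
  refine sav_C4.mono ?_
  have : ∀ i j : Fin 4, (mgr mC4).Adj i j → (eg 4 (seedL 3).2.1).Adj i j := by decide
  exact this

lemma seed4 : Sav (eg 5 (seedL 4).2.1) 2 := by
  refine lemmaD 5 (Fin 5) _ 2 (Fintype.card_fin 5) le_rfl ?_ (by norm_num)
  intro v
  have : ∀ v : Fin 5, ∃ a b : Fin 5, a ≠ b ∧ (eg 5 (seedL 4).2.1).Adj v a ∧
    (eg 5 (seedL 4).2.1).Adj v b := by decide
  obtain ⟨a, b, h1, h2, h3⟩ := this v
  exact two_le_nb _ v a b h1 h2 h3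

lemma seed5 : Sav (eg 6 (seedL 5).2.1) 2 := by
  refine lemmaD 6 (Fin 6) _ 2 (Fintype.card_fin 6) le_rfl ?_ (by norm_num)
  intro v
  have : ∀ v : Fin 6, ∃ a b : Fin 6, a ≠ b ∧ (eg 6 (seedL 5).2.1).Adj v a ∧
    (eg 6 (seedL 5).2.1).Adj v b := by decide
  obtain ⟨a, b, h1, h2, h3⟩ := this v
  exact two_le_nb _ v a b h1 h2 h3

lemma seed6 : Sav (eg 6 (seedL 6).2.1) 2 := by
  refine sav_net.mono ?_
  have : ∀ i j : Fin 6, (mgr mNet).Adj i j → (eg 6 (seedL 6).2.1).Adj i j := by decide
  exact this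

lemma seed8 : Sav (eg 6 (seedL 8).2.1) 4 := by
  refine sav_P6.mono ?_
  have : ∀ i j : Fin 6, (mgr mP6).Adj i j → (eg 6 (seedL 8).2.1).Adj i j := by decide
  exact this

lemma seed7 : Sav (eg 5 (seedL 7).2.1) 3 := by
  have h1 : Sav (del (eg 5 (seedL 7).2.1) 3) 2 := by
    refine sav_C4.embed ![⟨0, by decide⟩, ⟨1, by decide⟩, ⟨4, by decide⟩, ⟨2, by decide⟩] ?_ ?_
    · have : ∀ i j : Fin 4, (![0, 1, 4, 2] : Fin 4 → Fin 5) i = (![0, 1, 4, 2] : Fin 4 → Fin 5) j →
        i = j := by decide
      intro i j hij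
      apply this i j
      fin_cases i <;> fin_cases j <;> first | rfl | exact congrArg Subtype.val hij
    · have : ∀ i j : Fin 4, (mgr mC4).Adj i j →
        (eg 5 (seedL 7).2.1).Adj ((![0, 1, 4, 2] : Fin 4 → Fin 5) i)
          ((![0, 1, 4, 2] : Fin 4 → Fin 5) j) := by decide
      intro i j hij
      have h := this i j hij
      fin_cases i <;> fin_cases j <;> exact h
  refine Sav.free (3 : Fin 5) h1 {1, 2, 4} ?_ (by decide)
  have : ∀ w : Fin 5, w ∈ ({1, 2, 4} : Finset (Fin 5)) → (eg 5 (seedL 7).2.1).Adj 3 w ∧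
    ∃ u, (eg 5 (seedL 7).2.1).Adj 3 u ∧ (eg 5 (seedL 7).2.1).Adj w u := by decide
  exact this

lemma seed_ok (s : ℕ) (hs : s < 9) : Sav (eg (seedL s).1 (seedL s).2.1) (seedL s).2.2 := by
  interval_cases s
  · exact sav_zero _
  · exact seed1
  · exact seed2
  · exact seed3
  · exact seed4
  · exact seed5
  · exact seed6
  · exact seed7
  · exact seed8

/-! ### mask graphs -/

lemma bit_comm (m i j : ℕ) (h : i ≠ j) : bit m i j = bit m j i := by
  unfold bit
  rcases lt_or_gt_of_ne h with h1 | h1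
  · rw [if_pos h1, if_neg (by omega)]
  · rw [if_neg (by omega), if_pos h1]

def mg (n m : ℕ) : SimpleGraph (Fin n) where
  Adj i j := i ≠ j ∧ bit m i.1 j.1 = true
  symm := ⟨fun i j h => ⟨h.1.symm, by
    rw [← bit_comm m i.1 j.1 (fun h' => h.1 (Fin.ext h'))]; exact h.2⟩⟩
  loopless := ⟨fun _ h => h.1 rfl⟩

lemma mg_compl_adj (n m : ℕ) (i j : Fin n) (hij : i ≠ j) (h : bit m i.1 j.1 = false) :
    (mg n m)ᶜ.Adj i j := by
  rw [SimpleGraph.compl_adj]
  refine ⟨hij, ?_⟩
  rintro ⟨-, h2⟩
  rw [h] at h2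
  exact absurd h2 (by decide)

/-- digits as a function -/
def df (n k c : ℕ) (hn : 0 < n) : Fin k → Fin n := fun i => ⟨dig n c i.1, Nat.mod_lt _ hn⟩

lemma df_inj (n k c : ℕ) (hn : 0 < n) (h : injB n k c = true) :
    Function.Injective (df n k c hn) := by
  have key : ∀ i j : Fin k, j < i → df n k c hn i ≠ df n k c hn j := by
    intro i j hji heq
    unfold injB at h
    rw [List.all_eq_true] at h
    have h1 := h i.1 (List.mem_range.2 i.2)
    rw [List.all_eq_true] at h1
    have h2 := h1 j.1 (List.mem_range.2 hji)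
    rw [bne_iff_ne] at h2
    exact h2 (congrArg Fin.val heq)
  intro i j hij
  rcases lt_trichotomy i j with h1 | h1 | h1
  · exact absurd hij.symm (key j i h1)
  · exact h1
  · exact absurd hij (key i j h1)

lemma embB_true {n k : ℕ} {E : List (ℕ × ℕ)} {m c : ℕ} (hn : 0 < n)
    (h : embB n k E m c true = true) {w : ℕ} (hs : Sav (eg k E) w) : Sav (mg n m) w := by
  unfold embB at h
  rw [Bool.and_eq_true] at h
  have hinj := df_inj n k c hn h.1
  refine hs.embed (df n k c hn) hinj ?_
  have h2 := h.2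
  rw [List.all_eq_true] at h2
  intro i j hij
  have hne : df n k c hn i ≠ df n k c hn j := fun h' => hij.1 (hinj h')
  rcases hij.2 with h3 | h3
  · have := h2 _ h3
    rw [beq_iff_eq] at this
    exact ⟨hne, this⟩
  · have := h2 _ h3
    rw [beq_iff_eq] at this
    have h9 : (mg n m).Adj (df n k c hn j) (df n k c hn i) := ⟨hne.symm, this⟩
    exact h9.symm

lemma embB_false {n k : ℕ} {E : List (ℕ × ℕ)} {m c : ℕ} (hn : 0 < n)
    (h : embB n k E m c false = true) {w : ℕ} (hs : Sav (eg k E) w) : Sav (mg n m)ᶜ w := by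
  unfold embB at h
  rw [Bool.and_eq_true] at h
  have hinj := df_inj n k c hn h.1
  refine hs.embed (df n k c hn) hinj ?_
  have h2 := h.2
  rw [List.all_eq_true] at h2
  intro i j hij
  have hne : df n k c hn i ≠ df n k c hn j := fun h' => hij.1 (hinj h')
  rcases hij.2 with h3 | h3
  · have := h2 _ h3
    rw [beq_iff_eq] at this
    exact mg_compl_adj n m _ _ hne this
  · have := h2 _ h3
    rw [beq_iff_eq] at this
    exact (mg_compl_adj n m _ _ hne.symm this).symm

lemma chkG_good {n m e : ℕ} (hn : 0 < n) (h : chkG n m e = true) : Good (mg n m) := by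
  unfold chkG at h
  simp only [Bool.and_eq_true, decide_eq_true_eq] at h
  obtain ⟨⟨⟨⟨h1, h2⟩, h3⟩, h4⟩, h5⟩ := h
  refine ⟨_, _, embB_true hn h3 (seed_ok _ h1), embB_false hn h4 (seed_ok _ h2), ?_⟩
  rw [Fintype.card_fin]
  exact h5

lemma chkE_iso {n K m e : ℕ} (hn : 0 < n) (h : chkE n K m e = true) :
    ∃ k < K, ∃ σ : Fin n ≃ Fin n, (mg n m).comap σ = mg n (excM n k) := by
  unfold chkE at h
  simp only [Bool.and_eq_true, decide_eq_true_eq] at h
  obtain ⟨⟨⟨-, h1⟩, h2⟩, h3⟩ := h
  have hinj := df_inj n n (e / 16 % 65536) hn h2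
  refine ⟨_, h1, Equiv.ofBijective _ (Finite.injective_iff_bijective.1 hinj), ?_⟩
  rw [List.all_eq_true] at h3
  have key : ∀ i j : Fin n, j < i → bit m (df n n (e / 16 % 65536) hn i).1
      (df n n (e / 16 % 65536) hn j).1 = bit (excM n (e / 16 / 65536)) i.1 j.1 := by
    intro i j hji
    have h4 := h3 i.1 (List.mem_range.2 i.2)
    rw [List.all_eq_true] at h4
    have h5 := h4 j.1 (List.mem_range.2 hji)
    rw [beq_iff_eq] at h5
    exact h5
  ext i j
  show _ ≠ _ ∧ _ ↔ _ ≠ _ ∧ _
  by_cases hij : i = j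
  · subst hij
    simp
  · have hne : df n n (e / 16 % 65536) hn i ≠ df n n (e / 16 % 65536) hn j :=
      fun h => hij (hinj h)
    refine and_congr (iff_of_true hne hij) ?_
    rcases lt_or_gt_of_ne hij with h4 | h4
    · have := key j i h4
      rw [bit_comm _ _ _ (fun h => hne (Fin.ext h).symm), bit_comm _ _ _
        (fun h => hij (Fin.ext h).symm)] at this
      show bit m (df n n (e / 16 % 65536) hn i).1 (df n n (e / 16 % 65536) hn j).1 = true ↔ _
      rw [this]
    · have := key i j h4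
      show bit m (df n n (e / 16 % 65536) hn i).1 (df n n (e / 16 % 65536) hn j).1 = true ↔ _
      rw [this]

lemma chkA_spec (n K : ℕ) : ∀ (l : List ℕ) (m0 : ℕ), chkA n K m0 l = true →
    ∀ t, t < l.length → ∃ e, chkG n (m0 + t) e = true ∨ chkE n K (m0 + t) e = true := by
  intro l
  induction l with
  | nil => intro m0 _ t ht; simp at ht
  | cons e l ih =>
    intro m0 h t ht
    unfold chkA at h
    rw [Bool.and_eq_true, Bool.or_eq_true] at h
    cases t with
    | zero => exact ⟨e, h.1⟩
    | succ t =>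
      have := ih (m0 + 1) h.2 t (by simpa using ht)
      rwa [show m0 + 1 + t = m0 + (t + 1) by omega] at this

lemma chk6_spec : ∀ (M l : List ℕ), M.length = l.length → chk6 M l = true →
    ∀ m ∈ M, ∃ e, chkG 6 m e = true := by
  intro M
  induction M with
  | nil => intro l _ _ m hm; simp at hm
  | cons a M ih =>
    intro l hl h m hm
    cases l with
    | nil => simp at hl
    | cons e l =>
      unfold chk6 at h
      rw [Bool.and_eq_true] at h
      rcases List.mem_cons.1 hm with rfl | hm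
      · exact ⟨e, h.1⟩
      · exact ih l (by simpa using hl) h.2 m hm

/-! ### every graph is a mask graph -/

def ix (i j : ℕ) : ℕ := j * (j - 1) / 2 + i

open Classical in
noncomputable def maskOf {n : ℕ} (N : ℕ) (G : SimpleGraph (Fin n)) : ℕ :=
  Nat.ofBits (fun k : Fin N => decide (∃ i j : Fin n, i < j ∧ ix i.1 j.1 = k.1 ∧ G.Adj i j))

lemma maskOf_spec {n N : ℕ} (G : SimpleGraph (Fin n))
    (h1 : ∀ i j : Fin n, i < j → ix i.1 j.1 < N)
    (h2 : ∀ i j i' j' : Fin n, i < j → i' < j' → ix i.1 j.1 = ix i'.1 j'.1 → i = i' ∧ j = j') :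
    maskOf N G < 2 ^ N ∧ mg n (maskOf N G) = G := by
  classical
  refine ⟨Nat.ofBits_lt_two_pow _, ?_⟩
  have key : ∀ i j : Fin n, i < j → (bit (maskOf N G) i.1 j.1 = true ↔ G.Adj i j) := by
    intro i j hij
    unfold bit
    rw [if_pos (show i.1 < j.1 from hij)]
    show (maskOf N G).testBit (ix i.1 j.1) = true ↔ _
    unfold maskOf
    rw [Nat.testBit_ofBits_lt _ _ (h1 i j hij), decide_eq_true_eq]
    constructor
    · rintro ⟨i', j', h3, h4, h5⟩
      obtain ⟨rfl, rfl⟩ := h2 i' j' i j h3 hij h4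
      exact h5
    · intro h
      exact ⟨i, j, hij, rfl, h⟩
  ext i j
  show _ ≠ _ ∧ _ ↔ _
  rcases lt_trichotomy i j with h | h | h
  · rw [key i j h]
    exact ⟨fun h' => h'.2, fun h' => ⟨h.ne, h'⟩⟩
  · subst h
    simp
  · rw [bit_comm _ _ _ (fun h' => h.ne (Fin.ext h').symm), key j i h, G.adj_comm]
    exact ⟨fun h' => h'.2, fun h' => ⟨h.ne', h'⟩⟩

lemma Good.equiv {V W : Type} [Fintype V] [DecidableEq V] [Fintype W] [DecidableEq W]
    (e : V ≃ W) (G : SimpleGraph W) (h : Good (G.comap e)) : Good G := by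
  obtain ⟨a, b, ha, hb, hab⟩ := h
  refine ⟨a, b, ha.equiv e G, ?_, ?_⟩
  · apply Sav.equiv e
    have : (G.comap e)ᶜ = Gᶜ.comap e := by
      ext i j
      simp [SimpleGraph.compl_adj]
    rwa [← this]
  · rwa [← Fintype.card_congr e]

theorem class_n (n N K : ℕ) (hn : 0 < n) (tab : List ℕ) (hlen : tab.length = 2 ^ N)
    (hok : chkA n K 0 tab = true)
    (h1 : ∀ i j : Fin n, i < j → ix i.1 j.1 < N)
    (h2 : ∀ i j i' j' : Fin n, i < j → i' < j' → ix i.1 j.1 = ix i'.1 j'.1 → i = i' ∧ j = j')
    (G : SimpleGraph (Fin n)) :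
    Good G ∨ ∃ k < K, ∃ σ : Fin n ≃ Fin n, G.comap σ = mg n (excM n k) := by
  obtain ⟨hlt, heq⟩ := maskOf_spec G h1 h2
  obtain ⟨e, he | he⟩ := chkA_spec n K tab 0 hok (maskOf N G) (by rw [hlen]; exact hlt)
  · left
    rw [Nat.zero_add] at he
    have := chkG_good hn he
    rwa [heq] at this
  · right
    rw [Nat.zero_add] at he
    have := chkE_iso hn he
    rwa [heq] at this

theorem class5 (G : SimpleGraph (Fin 5)) :
    Good G ∨ ∃ k < 5, ∃ σ : Fin 5 ≃ Fin 5, G.comap σ = mg 5 (excM 5 k) :=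
  class_n 5 10 5 (by norm_num) tab5 (by rw [tab5_len]; norm_num) tab5_ok (by decide)
    (by decide +kernel) G

theorem class4 (G : SimpleGraph (Fin 4)) :
    Good G ∨ ∃ k < 3, ∃ σ : Fin 4 ≃ Fin 4, G.comap σ = mg 4 (excM 4 k) :=
  class_n 4 6 3 (by norm_num) tab4 (by rw [tab4_len]; norm_num) tab4_ok (by decide)
    (by decide +kernel) G

theorem class3 (G : SimpleGraph (Fin 3)) :
    Good G ∨ ∃ k < 2, ∃ σ : Fin 3 ≃ Fin 3, G.comap σ = mg 3 (excM 3 k) :=
  class_n 3 3 2 (by norm_num) tab3 (by rw [tab3_len]; norm_num) tab3_ok (by decide)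
    (by decide +kernel) G

theorem good6_mask (k N : ℕ) (hk : k < 5) (hN : N < 32) : Good (mg 6 (excM 5 k + 1024 * N)) := by
  have hlen : masks6.length = tab6.length := by rw [tab6_len]; decide +kernel
  obtain ⟨e, he⟩ := chk6_spec masks6 tab6 hlen tab6_ok (excM 5 k + 1024 * N) (by
    unfold masks6
    rw [List.mem_flatMap]
    refine ⟨k, List.mem_range.2 hk, ?_⟩
    rw [List.mem_map]
    exact ⟨N, List.mem_range.2 hN, rfl⟩)
  exact chkG_good (by norm_num) he

lemma excM_lt (k : ℕ) (hk : k < 5) : excM 5 k < 2 ^ 10 := by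
  interval_cases k <;> decide

/-- base case -/
theorem good6 {V : Type} [Fintype V] [DecidableEq V] (G : SimpleGraph V)
    (hV : Fintype.card V = 6) : Good G := by
  classical
  by_cases hall : ∀ v, Good (del G v)
  · exact good_step G hV.ge hall
  · push Not at hall
    obtain ⟨v, hv⟩ := hall
    have hc : Fintype.card {x : V // x ≠ v} = 5 := by
      have := card_del (V := V) v
      omega
    let e5 : Fin 5 ≃ {x : V // x ≠ v} := (Fintype.equivFinOfCardEq hc).symm
    rcases class5 ((del G v).comap e5) with h | ⟨k, hk, σ, hσ⟩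
    · exact absurd (Good.equiv e5 _ h) hv
    · let g : Fin 5 → V := fun i => (e5 (σ i)).1
      have hg : Function.Injective g := fun i j h => σ.injective (e5.injective (Subtype.ext h))
      have hgv : ∀ i, g i ≠ v := fun i => (e5 (σ i)).2
      have hgadj : ∀ i j : Fin 5, G.Adj (g i) (g j) ↔ (mg 5 (excM 5 k)).Adj i j := by
        intro i j
        rw [← hσ]; rfl
      let f : Fin 6 → V := fun i => if h : i.1 < 5 then g ⟨i.1, h⟩ else v
      have hf : Function.Injective f := by
        intro i j hij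
        simp only [f] at hij
        by_cases hi : i.1 < 5
        · by_cases hj : j.1 < 5
          · rw [dif_pos hi, dif_pos hj] at hij
            have h5 : (⟨i.1, hi⟩ : Fin 5) = ⟨j.1, hj⟩ := hg hij
            have h6 := congrArg Fin.val h5
            exact Fin.ext h6
          · rw [dif_pos hi, dif_neg hj] at hij
            exact absurd hij (hgv _)
        · by_cases hj : j.1 < 5
          · rw [dif_neg hi, dif_pos hj] at hij
            exact absurd hij.symm (hgv _)
          · exact Fin.ext (by omega)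
      have hbij : Function.Bijective f := by
        rw [Fintype.bijective_iff_injective_and_card]
        exact ⟨hf, by rw [Fintype.card_fin, hV]⟩
      let fe : Fin 6 ≃ V := Equiv.ofBijective f hbij
      let N : ℕ := Nat.ofBits (fun i : Fin 5 => decide (G.Adj v (g i)))
      have hN : N < 32 := Nat.ofBits_lt_two_pow _
      apply Good.equiv fe
      have hG : G.comap fe = mg 6 (excM 5 k + 1024 * N) := by
        have hbits : ∀ t, (excM 5 k + 1024 * N).testBit t =
            if t < 10 then (excM 5 k).testBit t else N.testBit (t - 10) := by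
          intro t
          have := Nat.testBit_two_pow_mul_add N (excM_lt k hk) t
          rw [show 2 ^ 10 * N + excM 5 k = excM 5 k + 1024 * N by ring] at this
          exact this
        have key : ∀ i j : Fin 6, i < j → (G.Adj (f i) (f j) ↔
            bit (excM 5 k + 1024 * N) i.1 j.1 = true) := by
          intro i j hij
          have hij' : i.1 < j.1 := hij
          have hi : i.1 < 5 := by omega
          unfold bit
          rw [if_pos hij', hbits]
          by_cases hj : j.1 < 5
          · have h1 : f i = g ⟨i.1, hi⟩ := dif_pos hi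
            have h2 : f j = g ⟨j.1, hj⟩ := dif_pos hj
            rw [h1, h2, hgadj]
            have h3 : j.1 * (j.1 - 1) / 2 + i.1 < 10 := by
              have : ∀ a b : Fin 5, a.1 < b.1 → b.1 * (b.1 - 1) / 2 + a.1 < 10 := by decide
              exact this ⟨i.1, hi⟩ ⟨j.1, hj⟩ hij'
            rw [if_pos h3]
            show _ ≠ _ ∧ bit (excM 5 k) i.1 j.1 = true ↔ _
            unfold bit
            rw [if_pos hij']
            constructor
            · exact fun h => h.2
            · intro h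
              refine ⟨fun h' => ?_, h⟩
              have := congrArg Fin.val h'
              simp only at this
              omega
          · have hj5 : j.1 = 5 := by omega
            have h1 : f i = g ⟨i.1, hi⟩ := dif_pos hi
            have h2 : f j = v := dif_neg hj
            rw [h1, h2, hj5]
            have h3 : ¬ (5 * (5 - 1) / 2 + i.1 < 10) := by omega
            rw [if_neg h3, show 5 * (5 - 1) / 2 + i.1 - 10 = i.1 by omega,
              Nat.testBit_ofBits_lt _ _ hi, decide_eq_true_eq, G.adj_comm]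
        ext i j
        show G.Adj (f i) (f j) ↔ _ ≠ _ ∧ _
        rcases lt_trichotomy i j with h | h | h
        · rw [key i j h]
          exact ⟨fun h' => ⟨h.ne, h'⟩, fun h' => h'.2⟩
        · subst h
          simp
        · rw [G.adj_comm, key j i h, bit_comm _ _ _ (fun h' => h.ne (Fin.ext h'))]
          exact ⟨fun h' => ⟨h.ne', h'⟩, fun h' => h'.2⟩
      rw [hG]
      exact good6_mask k N hk hN

theorem good_all : ∀ (n : ℕ), 6 ≤ n → ∀ (V : Type) [Fintype V] [DecidableEq V]
    (G : SimpleGraph V), Fintype.card V = n → Good G := by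
  intro n hn
  induction n, hn using Nat.le_induction with
  | base => intro V _ _ G hV; exact good6 G hV
  | succ n hn ih =>
    intro V _ _ G hV
    refine good_step G (by omega) fun v => ih _ (del G v) ?_
    have := card_del (V := V) v
    omega

end Pool.Agent.helper58.NG
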