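import Pool.Agent.helper58.NGExist

set_option autoImplicit false

namespace Pool.Agent.helper58.NG

open Matrix Filter Topology
open scoped Matrix.Norms.Elementwise

variable {W : Type} [Fintype W] [DecidableEq W]

/-! ### the rotation -/

noncomputable def Rm (a : W) : Matrix (W ⊕ Unit) (W ⊕ Unit) ℝ :=
  Matrix.fromBlocks (Matrix.diagonal fun i => if i = a then 4 / 5 else 1)
    (Matrix.of fun i _ => if i = a then 3 / 5 else 0)
    (Matrix.of fun _ j => if j = a then -(3 / 5) else 0) (Matrix.of fun _ _ => 4 / 5)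

lemma Rm_mul_inl (a : W) (Y : Matrix (W ⊕ Unit) (W ⊕ Unit) ℝ) (i : W) (z : W ⊕ Unit) :
    (Rm a * Y) (Sum.inl i) z =
      if i = a then 4 / 5 * Y (Sum.inl a) z + 3 / 5 * Y (Sum.inr ()) z else Y (Sum.inl i) z := by
  rw [Matrix.mul_apply, Fintype.sum_sum_type]
  simp only [Rm, Matrix.fromBlocks_apply₁₁, Matrix.fromBlocks_apply₁₂, Matrix.of_apply,
    Matrix.diagonal_apply, ite_mul, zero_mul, Finset.sum_ite_eq, Finset.mem_univ, if_true,
    Finset.univ_unique, Finset.sum_singleton, PUnit.default_eq_unit]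
  by_cases h : i = a
  · subst h; simp
  · simp [h]

lemma Rm_mul_inr (a : W) (Y : Matrix (W ⊕ Unit) (W ⊕ Unit) ℝ) (z : W ⊕ Unit) :
    (Rm a * Y) (Sum.inr ()) z = -(3 / 5) * Y (Sum.inl a) z + 4 / 5 * Y (Sum.inr ()) z := by
  rw [Matrix.mul_apply, Fintype.sum_sum_type]
  simp only [Rm, Matrix.fromBlocks_apply₂₁, Matrix.fromBlocks_apply₂₂, Matrix.of_apply,
    ite_mul, zero_mul, Finset.sum_ite_eq', Finset.mem_univ, if_true,
    Finset.univ_unique, Finset.sum_singleton, PUnit.default_eq_unit]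

lemma mul_RmT_inl (a : W) (Y : Matrix (W ⊕ Unit) (W ⊕ Unit) ℝ) (i : W) (z : W ⊕ Unit) :
    (Y * (Rm a)ᵀ) z (Sum.inl i) =
      if i = a then 4 / 5 * Y z (Sum.inl a) + 3 / 5 * Y z (Sum.inr ()) else Y z (Sum.inl i) := by
  have := Rm_mul_inl a Yᵀ i z
  rw [← Matrix.transpose_apply (Y * (Rm a)ᵀ), Matrix.transpose_mul, Matrix.transpose_transpose]
  simpa using this

lemma mul_RmT_inr (a : W) (Y : Matrix (W ⊕ Unit) (W ⊕ Unit) ℝ) (z : W ⊕ Unit) :
    (Y * (Rm a)ᵀ) z (Sum.inr ()) = -(3 / 5) * Y z (Sum.inl a) + 4 / 5 * Y z (Sum.inr ()) := by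
  have := Rm_mul_inr a Yᵀ z
  rw [← Matrix.transpose_apply (Y * (Rm a)ᵀ), Matrix.transpose_mul, Matrix.transpose_transpose]
  simpa using this

lemma Rm_orth (a : W) : Rm a * (Rm a)ᵀ = 1 := by
  ext (i | i) (j | j)
  · rw [mul_RmT_inl]
    simp only [Rm, Matrix.fromBlocks_apply₁₁, Matrix.fromBlocks_apply₁₂, Matrix.of_apply,
      Matrix.diagonal_apply, Matrix.one_apply, Sum.inl.injEq]
    by_cases hi : i = a
    · subst hi
      by_cases hj : j = i
      · subst hj; norm_num
      · simp [hj, Ne.symm hj]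
    · by_cases hj : j = a
      · subst hj; simp [hi]
      · by_cases hij : i = j
        · subst hij; simp [hi]
        · simp [hi, hj, hij]
  · cases j
    rw [mul_RmT_inr]
    simp only [Rm, Matrix.fromBlocks_apply₁₁, Matrix.fromBlocks_apply₁₂, Matrix.of_apply,
      Matrix.diagonal_apply, Matrix.one_apply]
    by_cases hi : i = a
    · subst hi; simp; norm_num
    · simp [hi]
  · cases i
    rw [mul_RmT_inl]
    simp only [Rm, Matrix.fromBlocks_apply₂₁, Matrix.fromBlocks_apply₂₂, Matrix.of_apply,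
      Matrix.one_apply]
    by_cases hj : j = a
    · subst hj; simp; norm_num
    · simp [hj]
  · cases i; cases j
    rw [mul_RmT_inr]
    simp only [Rm, Matrix.fromBlocks_apply₂₁, Matrix.fromBlocks_apply₂₂, Matrix.of_apply,
      Matrix.one_apply]
    norm_num

/-! ### strong spectral property by openness -/

/-- Test space in rotated coordinates. -/
def XS (H : SimpleGraph W) (a : W) (N₁ N₂ : W → Prop) :
    Submodule ℝ (Matrix W W ℝ × (W → ℝ)) where
  carrier := {x | x.1.IsSymm ∧ (∀ i, x.1 i i = 0) ∧ x.2 a = 0 ∧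
    (∀ i j, i ≠ a → j ≠ a → H.Adj i j → x.1 i j = 0) ∧
    (∀ j, N₁ j → 4 / 5 * x.1 a j + 3 / 5 * x.2 j = 0) ∧
    (∀ j, N₂ j → -(3 / 5) * x.1 a j + 4 / 5 * x.2 j = 0)}
  zero_mem' := by
    refine ⟨by simp [Matrix.IsSymm], by simp, by simp, by simp, by simp, by simp⟩
  add_mem' := by
    rintro x y ⟨h1, h2, h3, h4, h5, h6⟩ ⟨g1, g2, g3, g4, g5, g6⟩
    refine ⟨h1.add g1, fun i => ?_, ?_, fun i j hi hj h => ?_, fun j h => ?_, fun j h => ?_⟩
    · show x.1 i i + y.1 i i = 0
      rw [h2, g2]; simp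
    · show x.2 a + y.2 a = 0
      rw [h3, g3]; simp
    · show x.1 i j + y.1 i j = 0
      rw [h4 i j hi hj h, g4 i j hi hj h]; simp
    · show 4 / 5 * (x.1 a j + y.1 a j) + 3 / 5 * (x.2 j + y.2 j) = 0
      linarith [h5 j h, g5 j h]
    · show -(3 / 5) * (x.1 a j + y.1 a j) + 4 / 5 * (x.2 j + y.2 j) = 0
      linarith [h6 j h, g6 j h]
  smul_mem' := by
    rintro c x ⟨h1, h2, h3, h4, h5, h6⟩
    refine ⟨h1.smul c, fun i => ?_, ?_, fun i j hi hj h => ?_, fun j h => ?_, fun j h => ?_⟩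
    · show c * x.1 i i = 0
      rw [h2]; simp
    · show c * x.2 a = 0
      rw [h3]; simp
    · show c * x.1 i j = 0
      rw [h4 i j hi hj h]; simp
    · show 4 / 5 * (c * x.1 a j) + 3 / 5 * (c * x.2 j) = 0
      linear_combination c * h5 j h
    · show -(3 / 5) * (c * x.1 a j) + 4 / 5 * (c * x.2 j) = 0
      linear_combination c * h6 j h

noncomputable def Lam (S : Submodule ℝ (Matrix W W ℝ × (W → ℝ)))
    (p : ℝ × ℝ × Matrix W W ℝ × (W → ℝ)) : S →L[ℝ] (W → ℝ) × Matrix W W ℝ :=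
  LinearMap.toContinuousLinearMap
    { toFun := fun x => (p.2.1 • x.1.2 - p.1 • (p.2.2.1 *ᵥ x.1.2) + p.1 • (x.1.1 *ᵥ p.2.2.2),
        p.2.2.1 * x.1.1 + vecMulVec p.2.2.2 x.1.2 - x.1.1 * p.2.2.1 - vecMulVec x.1.2 p.2.2.2)
      map_add' := by
        intro x y
        refine Prod.ext ?_ ?_
        · simp only [Submodule.coe_add, Prod.snd_add, Prod.fst_add, smul_add, Matrix.mulVec_add,
            Matrix.add_mulVec]
          abel
        · simp only [Submodule.coe_add, Prod.snd_add, Prod.fst_add, Matrix.mul_add,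
            Matrix.add_mul, Matrix.vecMulVec_add, Matrix.add_vecMulVec]
          abel
      map_smul' := by
        intro c x
        refine Prod.ext ?_ ?_
        · simp only [Submodule.coe_smul, Prod.smul_snd, Prod.smul_fst, Matrix.mulVec_smul,
            Matrix.smul_mulVec, RingHom.id_apply, smul_add, smul_sub, smul_comm c]
        · simp only [Submodule.coe_smul, Prod.smul_snd, Prod.smul_fst, Matrix.mul_smul,
            Matrix.smul_mul, Matrix.vecMulVec_smul, Matrix.smul_vecMulVec, RingHom.id_apply,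
            smul_add, smul_sub] }

lemma Lam_continuous (S : Submodule ℝ (Matrix W W ℝ × (W → ℝ))) : Continuous (Lam S) := by
  refine (continuous_clm_apply (𝕜 := ℝ) (E := S) (F := (W → ℝ) × Matrix W W ℝ)).2 fun x => ?_
  show Continuous (fun p : ℝ × ℝ × Matrix W W ℝ × (W → ℝ) =>
    ((p.2.1 • x.1.2 - p.1 • (p.2.2.1 *ᵥ x.1.2) + p.1 • (x.1.1 *ᵥ p.2.2.2),
        p.2.2.1 * x.1.1 + vecMulVec p.2.2.2 x.1.2 - x.1.1 * p.2.2.1 - vecMulVec x.1.2 p.2.2.2) :
        (W → ℝ) × Matrix W W ℝ))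
  have h1 : Continuous (fun p : ℝ × ℝ × Matrix W W ℝ × (W → ℝ) => p.1) := continuous_fst
  have h2 : Continuous (fun p : ℝ × ℝ × Matrix W W ℝ × (W → ℝ) => p.2.1) :=
    continuous_fst.comp continuous_snd
  have h3 : Continuous (fun p : ℝ × ℝ × Matrix W W ℝ × (W → ℝ) => p.2.2.1) :=
    continuous_fst.comp (continuous_snd.comp continuous_snd)
  have h4 : Continuous (fun p : ℝ × ℝ × Matrix W W ℝ × (W → ℝ) => p.2.2.2) :=
    continuous_snd.comp (continuous_snd.comp continuous_snd)
  refine Continuous.prodMk ?_ ?_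
  · exact ((h2.smul continuous_const).sub (h1.smul (h3.matrix_mulVec continuous_const))).add
      (h1.smul (continuous_const.matrix_mulVec h4))
  · exact (((h3.matrix_mul continuous_const).add (h4.matrix_vecMulVec continuous_const)).sub
      (continuous_const.matrix_mul h3)).sub (continuous_const.matrix_vecMulVec h4)

lemma Lam_inj (H : SimpleGraph W) (a : W) (N₁ N₂ : W → Prop)
    (hN : ∀ j, H.Adj a j → N₁ j ∨ N₂ j) (A : Matrix W W ℝ) (hT : Tr H A) (b : W → ℝ) :
    Function.Injective (Lam (XS H a N₁ N₂) (0, 1, A, b)) := by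
  rw [injective_iff_map_eq_zero]
  rintro ⟨⟨X, ξ⟩, h1, h2, h3, h4, h5, h6⟩ h
  have e1 : (1:ℝ) • ξ - (0:ℝ) • (A *ᵥ ξ) + (0:ℝ) • (X *ᵥ b) = 0 := congrArg Prod.fst h
  have e2 : A * X + vecMulVec b ξ - X * A - vecMulVec ξ b = 0 := congrArg Prod.snd h
  have hξ : ξ = 0 := by simpa using e1
  subst hξ
  rw [Matrix.vecMulVec_zero, Matrix.zero_vecMulVec] at e2
  have hX : X = 0 := by
    have haj : ∀ j, H.Adj a j → X a j = 0 := by
      intro j hj
      rcases hN j hj with h7 | h7
      · have := h5 j h7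
        simp only [Pi.zero_apply] at this
        linarith
      · have := h6 j h7
        simp only [Pi.zero_apply] at this
        linarith
    apply hT X h1 h2
    · intro i j hij
      by_cases hi : i = a
      · subst hi; exact haj j hij
      · by_cases hj : j = a
        · subst hj
          have h7 : X j i = X i j := h1.apply i j
          rw [← h7]
          exact haj i hij.symm
        · exact h4 i j hi hj hij
    · have : A * X - X * A = 0 := by
        rw [← e2]; abel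
      exact sub_eq_zero.1 this
  subst hX
  rfl

/-! ### entries of rotated matrices -/

section rot
variable (a : W) (Y : Matrix (W ⊕ Unit) (W ⊕ Unit) ℝ)

lemma rot1 {i j : W} (hi : i ≠ a) (hj : j ≠ a) :
    (Rm a * Y * (Rm a)ᵀ) (Sum.inl i) (Sum.inl j) = Y (Sum.inl i) (Sum.inl j) := by
  rw [mul_RmT_inl, if_neg hj, Rm_mul_inl, if_neg hi]

lemma rot2 {j : W} (hj : j ≠ a) :
    (Rm a * Y * (Rm a)ᵀ) (Sum.inl a) (Sum.inl j) =
      4 / 5 * Y (Sum.inl a) (Sum.inl j) + 3 / 5 * Y (Sum.inr ()) (Sum.inl j) := by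
  rw [mul_RmT_inl, if_neg hj, Rm_mul_inl, if_pos rfl]

lemma rot3 {j : W} (hj : j ≠ a) :
    (Rm a * Y * (Rm a)ᵀ) (Sum.inr ()) (Sum.inl j) =
      -(3 / 5) * Y (Sum.inl a) (Sum.inl j) + 4 / 5 * Y (Sum.inr ()) (Sum.inl j) := by
  rw [mul_RmT_inl, if_neg hj, Rm_mul_inr]

lemma rot4 :
    (Rm a * Y * (Rm a)ᵀ) (Sum.inl a) (Sum.inl a) =
      4 / 5 * (4 / 5 * Y (Sum.inl a) (Sum.inl a) + 3 / 5 * Y (Sum.inr ()) (Sum.inl a)) +
      3 / 5 * (4 / 5 * Y (Sum.inl a) (Sum.inr ()) + 3 / 5 * Y (Sum.inr ()) (Sum.inr ())) := by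
  rw [mul_RmT_inl, if_pos rfl, Rm_mul_inl, if_pos rfl, Rm_mul_inl, if_pos rfl]

lemma rot5 :
    (Rm a * Y * (Rm a)ᵀ) (Sum.inr ()) (Sum.inl a) =
      4 / 5 * (-(3 / 5) * Y (Sum.inl a) (Sum.inl a) + 4 / 5 * Y (Sum.inr ()) (Sum.inl a)) +
      3 / 5 * (-(3 / 5) * Y (Sum.inl a) (Sum.inr ()) + 4 / 5 * Y (Sum.inr ()) (Sum.inr ())) := by
  rw [mul_RmT_inl, if_pos rfl, Rm_mul_inr, Rm_mul_inr]

lemma rot6 :
    (Rm a * Y * (Rm a)ᵀ) (Sum.inr ()) (Sum.inr ()) =
      -(3 / 5) * (-(3 / 5) * Y (Sum.inl a) (Sum.inl a) + 4 / 5 * Y (Sum.inr ()) (Sum.inl a)) +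
      4 / 5 * (-(3 / 5) * Y (Sum.inl a) (Sum.inr ()) + 4 / 5 * Y (Sum.inr ()) (Sum.inr ())) := by
  rw [mul_RmT_inr, Rm_mul_inr, Rm_mul_inr]

end rot

lemma Rm_orth' (a : W) : (Rm a)ᵀ * Rm a = 1 := mul_eq_one_comm.1 (Rm_orth a)

/-- Vertex splitting. -/
theorem Sav.split {H : SimpleGraph W} {a : W} {G : SimpleGraph (W ⊕ Unit)} {c : ℕ}
    (h : Sav H c)
    (g1 : ∀ i j, i ≠ a → j ≠ a → (G.Adj (Sum.inl i) (Sum.inl j) ↔ H.Adj i j))
    (g2 : ∀ j, j ≠ a → (H.Adj a j ↔
      (G.Adj (Sum.inl a) (Sum.inl j) ∨ G.Adj (Sum.inr ()) (Sum.inl j))))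
    (g3 : ∀ j, ¬ (G.Adj (Sum.inl a) (Sum.inl j) ∧ G.Adj (Sum.inr ()) (Sum.inl j)))
    (g4 : G.Adj (Sum.inr ()) (Sum.inl a)) : Sav G c := by
  classical
  obtain ⟨A, a1, a2, a3, a4⟩ := h
  let N₁ : W → Prop := fun j => G.Adj (Sum.inl a) (Sum.inl j)
  let N₂ : W → Prop := fun j => j ≠ a ∧ G.Adj (Sum.inr ()) (Sum.inl j)
  let s : W → ℝ := fun j => if N₁ j then 3 / 4 else if N₂ j then -(4 / 3) else 0
  have hN₁a : ¬ N₁ a := G.loopless.irrefl _
  have hN₂a : ¬ N₂ a := fun h => h.1 rfl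
  have hsa : s a = 0 := by simp only [s, hN₁a, hN₂a, if_false]
  have hN : ∀ j, H.Adj a j → N₁ j ∨ N₂ j := by
    intro j hj
    rcases (g2 j hj.ne.symm).1 hj with h | h
    · exact Or.inl h
    · exact Or.inr ⟨hj.ne.symm, h⟩
  let S := XS H a N₁ N₂
  have hCP : CPat H A := by
    intro i j hij hadj
    by_contra h
    exact hadj ((a2 i j hij).1 h)
  let p0 : ℝ × ℝ × Matrix W W ℝ × (W → ℝ) := (0, 1, A, fun j => s j * A a j)
  have ev1 : ∀ᶠ p in 𝓝 p0, Function.Injective (Lam S p) := by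
    have ho := (ContinuousLinearMap.isOpen_injective (𝕜 := ℝ) (E := S)
      (F := (W → ℝ) × Matrix W W ℝ)).preimage (Lam_continuous S)
    exact ho.mem_nhds (Lam_inj H a N₁ N₂ hN A a3 _)
  have ev2 : ∀ᶠ p in 𝓝 p0, ∀ q : W × W, A q.1 q.2 ≠ 0 → p.2.2.1 q.1 q.2 ≠ 0 := by
    rw [Filter.eventually_all]
    intro q
    by_cases h1 : A q.1 q.2 = 0
    · filter_upwards with M h2
      exact absurd h1 h2
    · have hc : Continuous (fun p : ℝ × ℝ × Matrix W W ℝ × (W → ℝ) => p.2.2.1 q.1 q.2) := by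
        have h3 : Continuous (fun p : ℝ × ℝ × Matrix W W ℝ × (W → ℝ) => p.2.2.1) :=
          continuous_fst.comp (continuous_snd.comp continuous_snd)
        exact h3.matrix_elem _ _
      have := hc.continuousAt.eventually_ne (x := p0) h1
      filter_upwards [this] with M hM _ using hM
  have ev3 : ∀ᶠ p in 𝓝 p0, p.2.1 - p.1 * p.2.2.1 a a ≠ 0 := by
    have hc : Continuous (fun p : ℝ × ℝ × Matrix W W ℝ × (W → ℝ) =>
        p.2.1 - p.1 * p.2.2.1 a a) := by
      have h1 : Continuous (fun p : ℝ × ℝ × Matrix W W ℝ × (W → ℝ) => p.1) := continuous_fst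
      have h2 : Continuous (fun p : ℝ × ℝ × Matrix W W ℝ × (W → ℝ) => p.2.1) :=
        continuous_fst.comp continuous_snd
      have h3 : Continuous (fun p : ℝ × ℝ × Matrix W W ℝ × (W → ℝ) => p.2.2.1) :=
        continuous_fst.comp (continuous_snd.comp continuous_snd)
      exact h2.sub (h1.mul (h3.matrix_elem _ _))
    refine hc.continuousAt.eventually_ne ?_
    simp [p0]
  obtain ⟨e, κ, C, b, he, ⟨hinj, hne, hdiag⟩, hCs, hCC, hb, hsp⟩ :=
    exists_border H A a1 hCP a3 s a _ (ev1.and (ev2.and ev3))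
  simp only at hne hdiag
  set B' := bord C b (κ / e) with hB'
  set R := Rm a with hR
  have hB's : B'.IsSymm := by
    unfold Matrix.IsSymm
    rw [hB', bord, Matrix.fromBlocks_transpose, hCs.eq]
    rfl
  have hba : b a = 0 := by rw [hb a, hsa, zero_mul]
  have hCpat : ∀ i j, i ≠ j → (C i j ≠ 0 ↔ H.Adj i j) := by
    intro i j hij
    constructor
    · intro h1
      by_contra h2
      exact h1 (hCC i j hij h2)
    · intro h1
      exact hne (i, j) ((a2 i j hij).2 h1)
  have b1 : ∀ i j, B' (Sum.inl i) (Sum.inl j) = C i j := fun i j => rfl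
  have b2 : ∀ i, B' (Sum.inl i) (Sum.inr ()) = b i := fun i => rfl
  have b3 : ∀ j, B' (Sum.inr ()) (Sum.inl j) = b j := fun j => rfl
  have b4 : B' (Sum.inr ()) (Sum.inr ()) = κ / e := rfl
  have hBs : (R * B' * Rᵀ).IsSymm := by
    unfold Matrix.IsSymm
    rw [Matrix.transpose_mul, Matrix.transpose_mul, Matrix.transpose_transpose, hB's.eq,
      Matrix.mul_assoc]
  refine ⟨R * B' * Rᵀ, hBs, ?_, ?_, ?_⟩
  · -- pattern
    have key : ∀ j, j ≠ a → ((R * B' * Rᵀ) (Sum.inl a) (Sum.inl j) ≠ 0 ↔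
        G.Adj (Sum.inl a) (Sum.inl j)) ∧ ((R * B' * Rᵀ) (Sum.inr ()) (Sum.inl j) ≠ 0 ↔
        G.Adj (Sum.inr ()) (Sum.inl j)) := by
      intro j hj
      rw [hR, rot2 a B' hj, rot3 a B' hj, b1, b3, hb j]
      by_cases h1 : N₁ j
      · have h2 : ¬ G.Adj (Sum.inr ()) (Sum.inl j) := fun h => g3 j ⟨h1, h⟩
        have h3 : C a j ≠ 0 := (hCpat a j hj.symm).2 ((g2 j hj).2 (Or.inl h1))
        have h4 : s j = 3 / 4 := by simp only [s, h1, if_true]
        rw [h4]
        refine ⟨iff_of_true ?_ h1, iff_of_false ?_ h2⟩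
        · intro h5
          apply h3
          linarith
        · rw [not_not]; ring
      · by_cases h2 : N₂ j
        · have h3 : C a j ≠ 0 := (hCpat a j hj.symm).2 ((g2 j hj).2 (Or.inr h2.2))
          have h4 : s j = -(4 / 3) := by simp only [s, h1, h2, if_true, if_false]
          rw [h4]
          refine ⟨iff_of_false ?_ h1, iff_of_true ?_ h2.2⟩
          · rw [not_not]; ring
          · intro h5
            apply h3
            linarith
        · have h5 : ¬ G.Adj (Sum.inr ()) (Sum.inl j) := fun h => h2 ⟨hj, h⟩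
          have h3 : C a j = 0 := by
            apply hCC a j hj.symm
            intro h6
            rcases (g2 j hj).1 h6 with h7 | h7
            · exact h1 h7
            · exact h5 h7
          rw [h3]
          refine ⟨iff_of_false (by simp) h1, iff_of_false (by simp) h5⟩
    have key2 : (R * B' * Rᵀ) (Sum.inr ()) (Sum.inl a) ≠ 0 := by
      rw [hR, rot5 a B', b1, b2, b3, b4, hba]
      intro h5
      apply hdiag
      field_simp at h5
      linarith
    rintro (i | i) (j | j) hij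
    · have hij' : i ≠ j := fun h => hij (by rw [h])
      by_cases hi : i = a
      · subst hi
        exact (key j hij'.symm).1
      · by_cases hj : j = a
        · subst hj
          have h1 := hBs.apply (Sum.inl i) (Sum.inl j)
          rw [← h1, G.adj_comm]
          exact (key i hi).1
        · rw [hR, rot1 a B' hi hj, b1, g1 i j hi hj]
          exact hCpat i j hij'
    · cases j
      have h1 := hBs.apply (Sum.inl i) (Sum.inr ())
      rw [← h1, G.adj_comm]
      by_cases hi : i = a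
      · subst hi
        exact iff_of_true key2 g4
      · exact (key i hi).2
    · cases i
      by_cases hj : j = a
      · subst hj
        exact iff_of_true key2 g4
      · exact (key j hj).2
    · exact absurd rfl hij
  · -- strong spectral property
    intro X x1 x2 x3 x4
    set X' := Rᵀ * X * R with hX'
    have hXX : X = R * X' * Rᵀ := by
      rw [hX']
      have : R * (Rᵀ * X * R) * Rᵀ = (R * Rᵀ) * X * (R * Rᵀ) := by
        simp only [Matrix.mul_assoc]
      rw [this, hR, Rm_orth, one_mul, mul_one]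
    have hX's : X'.IsSymm := by
      unfold Matrix.IsSymm
      rw [hX', Matrix.transpose_mul, Matrix.transpose_mul, Matrix.transpose_transpose, x1.eq,
        Matrix.mul_assoc]
    have hcomm : B' * X' = X' * B' := by
      have h1 : Rᵀ * (R * B' * Rᵀ * X) * R = Rᵀ * (X * (R * B' * Rᵀ)) * R := by rw [x4]
      have h2 : Rᵀ * (R * B' * Rᵀ * X) * R = (Rᵀ * R) * B' * (Rᵀ * X * R) := by
        simp only [Matrix.mul_assoc]
      have h3 : Rᵀ * (X * (R * B' * Rᵀ)) * R = (Rᵀ * X * R) * B' * (Rᵀ * R) := by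
        simp only [Matrix.mul_assoc]
      rw [h2, h3, hR, Rm_orth', one_mul, mul_one] at h1
      exact h1
    have s1 : X' (Sum.inl a) (Sum.inr ()) = X' (Sum.inr ()) (Sum.inl a) := (hX's.apply _ _)
    have d1 : X (Sum.inl a) (Sum.inl a) = 0 := x2 _
    have d2 : X (Sum.inr ()) (Sum.inr ()) = 0 := x2 _
    have d3 : X (Sum.inr ()) (Sum.inl a) = 0 := x3 _ _ g4
    rw [hXX, hR] at d1 d2 d3
    rw [rot4, s1] at d1
    rw [rot6, s1] at d2
    rw [rot5, s1] at d3
    have f1 : X' (Sum.inl a) (Sum.inl a) = 0 := by linarith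
    have f2 : X' (Sum.inr ()) (Sum.inl a) = 0 := by linarith
    have f3 : X' (Sum.inr ()) (Sum.inr ()) = 0 := by linarith
    let X1 : Matrix W W ℝ := X'.toBlocks₁₁
    let ξ : W → ℝ := fun i => X' (Sum.inl i) (Sum.inr ())
    have hξ' : ∀ j, X' (Sum.inr ()) (Sum.inl j) = ξ j := fun j => (hX's.apply _ _)
    have hXb : X' = bord X1 ξ 0 := by
      ext (i | i) (j | j)
      · rfl
      · rfl
      · exact hξ' j
      · exact f3
    have hmem : (X1, ξ) ∈ S := by
      refine ⟨?_, ?_, ?_, ?_, ?_, ?_⟩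
      · ext i j
        exact hX's.apply _ _
      · intro i
        show X' (Sum.inl i) (Sum.inl i) = 0
        by_cases hi : i = a
        · subst hi; exact f1
        · have h1 : X (Sum.inl i) (Sum.inl i) = 0 := x2 _
          rw [hXX, hR, rot1 a X' hi hi] at h1
          exact h1
      · show ξ a = 0
        rw [← hξ' a]; exact f2
      · intro i j hi hj hij
        show X' (Sum.inl i) (Sum.inl j) = 0
        have h1 : X (Sum.inl i) (Sum.inl j) = 0 := x3 _ _ ((g1 i j hi hj).2 hij)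
        rw [hXX, hR, rot1 a X' hi hj] at h1
        exact h1
      · intro j hj
        show 4 / 5 * X' (Sum.inl a) (Sum.inl j) + 3 / 5 * ξ j = 0
        have hja : j ≠ a := by
          rintro rfl; exact hN₁a hj
        have h1 : X (Sum.inl a) (Sum.inl j) = 0 := x3 _ _ hj
        rw [hXX, hR, rot2 a X' hja, hξ' j] at h1
        exact h1
      · intro j hj
        show -(3 / 5) * X' (Sum.inl a) (Sum.inl j) + 4 / 5 * ξ j = 0
        have h1 : X (Sum.inr ()) (Sum.inl j) = 0 := x3 _ _ hj.2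
        rw [hXX, hR, rot3 a X' hj.1, hξ' j] at h1
        exact h1
    rw [hXb, hB'] at hcomm
    unfold bord at hcomm
    rw [Matrix.fromBlocks_multiply, Matrix.fromBlocks_multiply, Matrix.fromBlocks_inj] at hcomm
    obtain ⟨c1, c2, -, -⟩ := hcomm
    have hz : Lam S (e, κ, C, b) ⟨(X1, ξ), hmem⟩ = 0 := by
      refine Prod.ext ?_ ?_
      · show κ • ξ - e • (C *ᵥ ξ) + e • (X1 *ᵥ b) = 0
        ext i
        have h1 := congrFun (congrFun c2 i) ()
        simp only [Matrix.add_apply, Matrix.mul_apply, Matrix.of_apply, Finset.univ_unique,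
          Finset.sum_singleton] at h1
        simp only [Pi.add_apply, Pi.sub_apply, Pi.smul_apply, smul_eq_mul, Matrix.mulVec,
          dotProduct, Pi.zero_apply]
        field_simp at h1
        linarith
      · show C * X1 + vecMulVec b ξ - X1 * C - vecMulVec ξ b = 0
        ext i j
        have h1 := congrFun (congrFun c1 i) j
        simp only [Matrix.add_apply, Matrix.mul_apply, Matrix.of_apply, Finset.univ_unique,
          Finset.sum_singleton] at h1
        simp only [Matrix.add_apply, Matrix.sub_apply, Matrix.mul_apply, vecMulVec_apply,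
          Matrix.zero_apply]
        linarith
    have hzero := (injective_iff_map_eq_zero _).1 hinj _ hz
    have h1 : (X1, ξ) = (0, 0) := congrArg Subtype.val hzero
    have h2 : X1 = 0 := congrArg Prod.fst h1
    have h3 : ξ = 0 := congrArg Prod.snd h1
    have h4 : X' = 0 := by
      rw [hXb, h2, h3]
      ext (i | i) (j | j) <;> rfl
    rw [hXX, h4, Matrix.mul_zero, Matrix.zero_mul]
  · -- counting
    have hsp2 : spectrum ℝ (R * B' * Rᵀ) = spectrum ℝ B' := by
      let u : (Matrix (W ⊕ Unit) (W ⊕ Unit) ℝ)ˣ := ⟨R, Rᵀ, Rm_orth a, Rm_orth' a⟩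
      exact spectrum.units_conjugate (u := u) (a := B')
    have h1 : nEig (R * B' * Rᵀ) ≤ nEig A + 1 := by
      unfold nEig
      rw [hsp2]
      calc (spectrum ℝ B').ncard ≤ (insert e⁻¹ (spectrum ℝ A)).ncard :=
            Set.ncard_le_ncard hsp (A.finite_real_spectrum.insert _)
        _ ≤ (spectrum ℝ A).ncard + 1 := Set.ncard_insert_le _ _
    rw [Fintype.card_sum, Fintype.card_unit]
    omega

end Pool.Agent.helper58.NG
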