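import Pool.Agent.helper58.NGGlue

set_option autoImplicit false

namespace Pool.Agent.helper58.NG

open Matrix Filter Topology

variable {V : Type} [Fintype V] [DecidableEq V]

lemma eig_orth (A : Matrix V V ℝ) (hA : A.IsSymm) (x y : V → ℝ) (l m : ℝ) (hlm : l ≠ m)
    (hx : A *ᵥ x = l • x) (hy : A *ᵥ y = m • y) : x ⬝ᵥ y = 0 := by
  have h1 : (A *ᵥ x) ⬝ᵥ y = x ⬝ᵥ (A *ᵥ y) := by
    rw [Matrix.dotProduct_mulVec, ← Matrix.mulVec_transpose, hA.eq]
  rw [hx, hy, smul_dotProduct, dotProduct_smul, smul_eq_mul, smul_eq_mul] at h1
  have h2 : (l - m) * (x ⬝ᵥ y) = 0 := by linarith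
  rcases mul_eq_zero.1 h2 with h | h
  · exact absurd (sub_eq_zero.1 h) hlm
  · exact h

/-- Number of bad eigenvalues. -/
theorem count_bad (H : SimpleGraph V) (A : Matrix V V ℝ) (hA : A.IsSymm) (hP : Pat H A)
    (N : Finset V)
    (hbad : ∀ l ∈ spectrum ℝ A, ∃ w ∈ N, ∃ x : V → ℝ, x ≠ 0 ∧ A *ᵥ x = l • x ∧
      ∀ i ∈ N, i ≠ w → x i = 0) (I : Finset V)
    (hI : ∀ w ∈ N, (∀ w' ∈ N, ¬ H.Adj w w') → w ∈ I) :
    nEig A ≤ Fintype.card V - N.card + I.card := by
  classical
  rcases isEmpty_or_nonempty V with hV | hV
  · have : spectrum ℝ A = ∅ := by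
      ext l
      simp only [Set.mem_empty_iff_false, iff_false]
      intro hl
      obtain ⟨w, -⟩ := hbad l hl
      exact hV.false w
    unfold nEig
    rw [this]
    simp
  let L : Finset ℝ := A.finite_real_spectrum.toFinset
  have hL : ∀ l, l ∈ L ↔ l ∈ spectrum ℝ A := fun l => by simp [L]
  have hn : nEig A = L.card := by
    unfold nEig
    rw [Set.ncard_eq_toFinset_card _ A.finite_real_spectrum]
  choose! wf hwN xf hx0 hxe hxs using hbad
  -- removed eigenvalues
  let r : V → ℝ := fun w => if h : ∃ l ∈ L, wf l = w ∧ xf l w ≠ 0 then h.choose else 0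
  let R : Finset ℝ := I.image r
  have hR : R.card ≤ I.card := Finset.card_image_le
  let L' : Finset ℝ := L \ R
  have hL' : L.card ≤ L'.card + R.card := by
    have := Finset.card_le_card_sdiff_add_card (s := L) (t := R)
    exact this
  have hmem : ∀ l : L', (l : ℝ) ∈ spectrum ℝ A := fun l =>
    (hL _).1 (Finset.mem_sdiff.1 l.2).1
  have horth : ∀ l ∈ spectrum ℝ A, ∀ m ∈ spectrum ℝ A, l ≠ m → xf l ⬝ᵥ xf m = 0 := by
    intro l hl m hm hlm
    exact eig_orth A hA _ _ l m hlm (hxe l hl) (hxe m hm)
  have hnorm : ∀ l ∈ spectrum ℝ A, xf l ⬝ᵥ xf l ≠ 0 := by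
    intro l hl h
    exact hx0 l hl (dotProduct_self_eq_zero.1 h)
  let Z : Type := {z : V // z ∉ N}
  let T : (L' → ℝ) →ₗ[ℝ] (Z → ℝ) :=
    { toFun := fun c z => ∑ l : L', c l * xf l z.1
      map_add' := by
        intro c d; ext z
        simp [add_mul, Finset.sum_add_distrib]
      map_smul' := by
        intro a c; ext z
        simp [Finset.mul_sum, mul_assoc] }
  have hinj : Function.Injective T := by
    rw [injective_iff_map_eq_zero]
    intro c hc
    let g : V → ℝ := ∑ l : L', c l • xf l
    have hgZ : ∀ z, z ∉ N → g z = 0 := by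
      intro z hz
      have := congrFun hc ⟨z, hz⟩
      simpa [g, T, Finset.sum_apply] using this
    -- dot products of g
    have hgx : ∀ m : L', g ⬝ᵥ xf m = c m * (xf m ⬝ᵥ xf m) := by
      intro m
      simp only [g, sum_dotProduct, smul_dotProduct, smul_eq_mul]
      rw [Finset.sum_eq_single m]
      · intro l _ hlm
        rw [horth l (hmem l) m (hmem m) (fun h => hlm (Subtype.ext h)), mul_zero]
      · intro h; exact absurd (Finset.mem_univ _) h
    have hgN : ∀ w ∈ N, g w = 0 := by
      intro w hw
      let d : L' → ℝ := fun m => if wf m = w then xf m w / (xf m ⬝ᵥ xf m) else 0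
      let q : V → ℝ := ∑ m : L', d m • xf m
      let e : V → ℝ := Pi.single w 1
      let f : V → ℝ := e - q
      have hqx : ∀ n : L', q ⬝ᵥ xf n = d n * (xf n ⬝ᵥ xf n) := by
        intro m
        simp only [q, sum_dotProduct, smul_dotProduct, smul_eq_mul]
        rw [Finset.sum_eq_single m]
        · intro l _ hlm
          rw [horth l (hmem l) m (hmem m) (fun h => hlm (Subtype.ext h)), mul_zero]
        · intro h; exact absurd (Finset.mem_univ _) h
      have hfx : ∀ n : L', f ⬝ᵥ xf n = 0 := by
        intro n
        simp only [f, sub_dotProduct]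
        rw [hqx n]
        have : e ⬝ᵥ xf n = xf n w := by simp [e]
        rw [this]
        by_cases h : wf n = w
        · simp only [d, h, if_true]
          field_simp [hnorm n (hmem n)]
          simp
        · simp only [d, h, if_false, zero_mul, sub_zero]
          exact hxs n (hmem n) w hw (fun h2 => h h2.symm)
      have hfg : f ⬝ᵥ g = 0 := by
        simp only [g, dotProduct_sum, dotProduct_smul, hfx, smul_zero, Finset.sum_const_zero]
      have hfq : f ⬝ᵥ q = 0 := by
        simp only [q, dotProduct_sum, dotProduct_smul, hfx, smul_zero, Finset.sum_const_zero]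
      have hfN : ∀ i ∈ N, i ≠ w → f i = 0 := by
        intro i hi hiw
        simp only [f, e, q, Pi.sub_apply, Finset.sum_apply, Pi.smul_apply, smul_eq_mul]
        rw [Pi.single_eq_of_ne hiw, zero_sub, neg_eq_zero]
        apply Finset.sum_eq_zero
        intro m _
        by_cases h : wf m = w
        · rw [hxs m (hmem m) i hi (by rw [h]; exact hiw), mul_zero]
        · simp [d, h]
      have h1 : f ⬝ᵥ g = f w * g w := by
        rw [dotProduct, Finset.sum_eq_single w]
        · intro i _ hiw
          by_cases hi : i ∈ N
          · rw [hfN i hi hiw, zero_mul]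
          · rw [hgZ i hi, mul_zero]
        · intro h; exact absurd (Finset.mem_univ _) h
      have h2 : f w = f ⬝ᵥ f := by
        have : f ⬝ᵥ f = f ⬝ᵥ e - f ⬝ᵥ q := by rw [← dotProduct_sub]
        rw [this, hfq, sub_zero]
        simp [e]
      have h3 : f ≠ 0 := by
        intro hf0
        have heq : e = q := sub_eq_zero.1 hf0
        by_cases hwI : ∀ w' ∈ N, ¬ H.Adj w w'
        · have hwI' := hI w hw hwI
          -- some eigenvector is nonzero at w
          have hex : ∃ m : L', wf m = w ∧ xf m w ≠ 0 := by
            by_contra hno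
            push Not at hno
            have : e w = q w := by rw [heq]
            simp only [e, q, Pi.single_eq_same, Finset.sum_apply, Pi.smul_apply,
              smul_eq_mul] at this
            rw [Finset.sum_eq_zero] at this
            · norm_num at this
            · intro m _
              by_cases h : wf m = w
              · rw [hno m h, mul_zero]
              · simp [d, h]
          obtain ⟨m, hm1, hm2⟩ := hex
          have hex2 : ∃ l ∈ L, wf l = w ∧ xf l w ≠ 0 :=
            ⟨m, (Finset.mem_sdiff.1 m.2).1, hm1, hm2⟩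
          have hr : r w = hex2.choose := dif_pos hex2
          obtain ⟨ha, hb, hcc⟩ := hex2.choose_spec
          rw [← hr] at ha hb hcc
          have hnot : r w ∉ L' := by
            intro h
            exact (Finset.mem_sdiff.1 h).2 (Finset.mem_image_of_mem r hwI')
          have h5 : e ⬝ᵥ xf (r w) = xf (r w) w := by simp [e]
          have h6 : q ⬝ᵥ xf (r w) = 0 := by
            simp only [q, sum_dotProduct, smul_dotProduct, smul_eq_mul]
            apply Finset.sum_eq_zero
            intro l _
            rw [horth l (hmem l) (r w) ((hL _).1 ha) (fun h => hnot (h ▸ l.2)), mul_zero]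
          rw [heq, h6] at h5
          exact hcc h5.symm
        · push Not at hwI
          obtain ⟨w', hw', hadj⟩ := hwI
          have h5 : (A *ᵥ e) w' = A w' w := by
            simp [e, Matrix.mulVec, dotProduct_single_one]
          have h6 : (A *ᵥ q) w' = 0 := by
            simp only [q, Matrix.mulVec_sum, Finset.sum_apply]
            apply Finset.sum_eq_zero
            intro m _
            rw [Matrix.mulVec_smul, hxe m (hmem m)]
            by_cases h : wf m = w
            · have : xf m w' = 0 := hxs m (hmem m) w' hw' (by rw [h]; exact hadj.ne.symm)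
              simp [this]
            · simp [d, h]
          rw [heq, h6] at h5
          exact (hP w' w hadj.ne.symm).2 hadj.symm h5.symm
      have h4 : f w ≠ 0 := by
        rw [h2]
        exact fun h => h3 (dotProduct_self_eq_zero.1 h)
      have h5 : f w * g w = 0 := by rw [← h1, hfg]
      exact (mul_eq_zero.1 h5).resolve_left h4
    have hg0 : g = 0 := by
      ext i
      by_cases hi : i ∈ N
      · exact hgN i hi
      · exact hgZ i hi
    ext m
    have := hgx m
    rw [hg0, zero_dotProduct] at this
    exact (mul_eq_zero.1 this.symm).resolve_right (hnorm m (hmem m))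
  have hfin := LinearMap.finrank_le_finrank_of_injective hinj
  rw [Module.finrank_fintype_fun_eq_card, Module.finrank_fintype_fun_eq_card,
    Fintype.card_coe] at hfin
  have hZ : Fintype.card Z = Fintype.card V - N.card := by
    simp only [Z]
    rw [Fintype.card_subtype_compl, Fintype.card_coe]
  omega

end Pool.Agent.helper58.NG
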