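import Mathlib

set_option autoImplicit false

namespace Pool.Agent.helper58.NG

open Matrix Filter Topology
open scoped Matrix.Norms.Operator

variable {V : Type} [Fintype V] [DecidableEq V]

/-- `A` has off-diagonal pattern exactly `G`. -/
def Pat (G : SimpleGraph V) (A : Matrix V V ℝ) : Prop :=
  ∀ i j, i ≠ j → (A i j ≠ 0 ↔ G.Adj i j)

/-- `A` vanishes at all off-diagonal non-edges of `G`. -/
def CPat (G : SimpleGraph V) (A : Matrix V V ℝ) : Prop :=
  ∀ i j, i ≠ j → ¬ G.Adj i j → A i j = 0

/-- The strong spectral property relative to `G`. -/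
def Tr (G : SimpleGraph V) (A : Matrix V V ℝ) : Prop :=
  ∀ X : Matrix V V ℝ, X.IsSymm → (∀ i, X i i = 0) → (∀ i j, G.Adj i j → X i j = 0) →
    A * X = X * A → X = 0

/-- number of distinct eigenvalues -/
noncomputable def nEig (A : Matrix V V ℝ) : ℕ := (spectrum ℝ A).ncard

/-- `G` saves `c` eigenvalues with the strong spectral property. -/
def Sav (G : SimpleGraph V) (c : ℕ) : Prop :=
  ∃ A : Matrix V V ℝ, A.IsSymm ∧ Pat G A ∧ Tr G A ∧ nEig A + c ≤ Fintype.card V

/-- the subspace of test matrices -/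
def NSub (G : SimpleGraph V) : Submodule ℝ (Matrix V V ℝ) where
  carrier := {X | X.IsSymm ∧ (∀ i, X i i = 0) ∧ (∀ i j, G.Adj i j → X i j = 0)}
  zero_mem' := ⟨by simp [Matrix.IsSymm], by simp, by simp⟩
  add_mem' := by
    rintro X Y ⟨hX1, hX2, hX3⟩ ⟨hY1, hY2, hY3⟩
    refine ⟨hX1.add hY1, fun i => by simp [hX2 i, hY2 i], fun i j h => by
      simp [hX3 i j h, hY3 i j h]⟩
  smul_mem' := by
    rintro c X ⟨hX1, hX2, hX3⟩
    refine ⟨hX1.smul c, fun i => by simp [hX2 i], fun i j h => by
      simp [hX3 i j h]⟩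

noncomputable def comMap (G : SimpleGraph V) (A : Matrix V V ℝ) :
    NSub G →L[ℝ] Matrix V V ℝ :=
  ((ContinuousLinearMap.mul ℝ (Matrix V V ℝ) A) -
    ((ContinuousLinearMap.mul ℝ (Matrix V V ℝ)).flip A)).comp (NSub G).subtypeL

lemma comMap_apply (G : SimpleGraph V) (A : Matrix V V ℝ) (X : NSub G) :
    comMap G A X = A * X.1 - X.1 * A := rfl

lemma continuous_comMap (G : SimpleGraph V) : Continuous (comMap G) := by
  unfold comMap
  fun_prop

lemma tr_iff (G : SimpleGraph V) (A : Matrix V V ℝ) :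
    Tr G A ↔ Function.Injective (comMap G A) := by
  rw [injective_iff_map_eq_zero]
  constructor
  · intro h X hX
    rw [comMap_apply, sub_eq_zero] at hX
    exact Subtype.ext (h X.1 X.2.1 X.2.2.1 X.2.2.2 hX)
  · intro h X h1 h2 h3 h4
    have := h ⟨X, h1, h2, h3⟩ (by rw [comMap_apply, sub_eq_zero]; exact h4)
    exact congrArg Subtype.val this

lemma isOpen_tr (G : SimpleGraph V) : IsOpen {A : Matrix V V ℝ | Tr G A} := by
  have h := (ContinuousLinearMap.isOpen_injective (𝕜 := ℝ) (E := NSub G)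
    (F := Matrix V V ℝ)).preimage (continuous_comMap G)
  convert h using 1
  ext A
  exact tr_iff G A

/-! ### local surjectivity -/

open Classical in
/-- masked symmetrization -/
noncomputable def piLin (G : SimpleGraph V) : Matrix V V ℝ →ₗ[ℝ] Matrix V V ℝ where
  toFun := fun M => Matrix.of fun i j => if i ≠ j ∧ ¬ G.Adj i j then M i j + M j i else 0
  map_add' := by
    intro M N; ext i j; simp only [Matrix.of_apply, Matrix.add_apply]; split_ifs <;> ring
  map_smul' := by
    intro c M; ext i j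
    simp only [Matrix.of_apply, Matrix.smul_apply, RingHom.id_apply, smul_eq_mul]
    split_ifs <;> ring

lemma piLin_apply_pos (G : SimpleGraph V) (M : Matrix V V ℝ) {i j : V} (h : i ≠ j)
    (h' : ¬ G.Adj i j) : piLin G M i j = M i j + M j i := by
  classical
  exact if_pos (c := i ≠ j ∧ ¬ G.Adj i j) ⟨h, h'⟩

lemma piLin_apply_neg (G : SimpleGraph V) (M : Matrix V V ℝ) {i j : V}
    (h : ¬ (i ≠ j ∧ ¬ G.Adj i j)) : piLin G M i j = 0 := by
  classical
  exact if_neg (c := i ≠ j ∧ ¬ G.Adj i j) h

/-- the derivative of conjugation, `K ↦ [B, K - Kᵀ]` -/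
noncomputable def brLin (B : Matrix V V ℝ) : Matrix V V ℝ →ₗ[ℝ] Matrix V V ℝ where
  toFun := fun K => B * (K - Kᵀ) - (K - Kᵀ) * B
  map_add' := by
    intro K L
    simp only [Matrix.transpose_add]
    noncomm_ring
  map_smul' := by
    intro c K
    simp only [Matrix.transpose_smul, RingHom.id_apply, ← smul_sub, Matrix.mul_smul,
      Matrix.smul_mul]

/-- surjectivity from the strong spectral property -/
lemma surj_of_tr (G : SimpleGraph V) (B : Matrix V V ℝ) (hB : B.IsSymm) (hT : Tr G B) :
    LinearMap.range ((piLin G).rangeRestrict ∘ₗ brLin B) = ⊤ := by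
  by_contra hne
  have hlt : LinearMap.range ((piLin G).rangeRestrict ∘ₗ brLin B) < ⊤ := lt_top_iff_ne_top.2 hne
  obtain ⟨f, hf0, hf⟩ := Submodule.exists_le_ker_of_lt_top _ hlt
  -- the functional on matrices
  let g : Matrix V V ℝ →ₗ[ℝ] ℝ := f ∘ₗ (piLin G).rangeRestrict
  let X : Matrix V V ℝ := Matrix.of fun i j => g (Matrix.single i j 1)
  have hsingle : ∀ i j : V, piLin G (Matrix.single i j (1:ℝ)) = piLin G (Matrix.single j i 1) := by
    intro i j
    ext a b
    by_cases h : a ≠ b ∧ ¬ G.Adj a b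
    · rw [piLin_apply_pos G _ h.1 h.2, piLin_apply_pos G _ h.1 h.2]
      simp only [Matrix.single, Matrix.of_apply]
      rw [add_comm]
      congr 1 <;> congr 1 <;> simp only [eq_iff_iff] <;> tauto
    · rw [piLin_apply_neg G _ h, piLin_apply_neg G _ h]
  have hsymm : X.IsSymm := by
    ext i j
    simp only [Matrix.transpose_apply, X, Matrix.of_apply, g, LinearMap.comp_apply]
    congr 1
    exact Subtype.ext (hsingle j i)
  have hz : ∀ i j, ¬ (i ≠ j ∧ ¬ G.Adj i j) → X i j = 0 := by
    intro i j h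
    have : (piLin G).rangeRestrict (Matrix.single i j 1) = 0 := by
      apply Subtype.ext
      show piLin G (Matrix.single i j 1) = 0
      ext a b
      by_cases h2 : a ≠ b ∧ ¬ G.Adj a b
      · rw [piLin_apply_pos G _ h2.1 h2.2]
        simp only [Matrix.single, Matrix.of_apply, Matrix.zero_apply]
        have h3 : ¬ (i = a ∧ j = b) := by
          rintro ⟨rfl, rfl⟩; exact h h2
        have h4 : ¬ (i = b ∧ j = a) := by
          rintro ⟨rfl, rfl⟩; exact h ⟨h2.1.symm, fun h5 => h2.2 h5.symm⟩
        simp [h3, h4]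
      · rw [piLin_apply_neg G _ h2]; rfl
    simp only [X, Matrix.of_apply, g, LinearMap.comp_apply, this, map_zero]
  have hg : ∀ M, g M = (X * M).trace := by
    intro M
    conv_lhs => rw [Matrix.matrix_eq_sum_single M]
    simp only [map_sum, Matrix.trace, Matrix.diag, Matrix.mul_apply]
    rw [Finset.sum_comm]
    refine Finset.sum_congr rfl fun j _ => Finset.sum_congr rfl fun i _ => ?_
    have : (Matrix.single i j (M i j)) = (M i j) • Matrix.single i j (1:ℝ) := by
      rw [Matrix.smul_single]; simp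
    rw [this, map_smul, smul_eq_mul, mul_comm]
    congr 1
    exact congrFun (congrFun hsymm j) i ▸ rfl
  have hcomm : B * X = X * B := by
    -- C = X B - B X is skew
    let C := X * B - B * X
    have hC : Cᵀ = -C := by
      simp only [C, Matrix.transpose_sub, Matrix.transpose_mul]
      rw [hsymm.eq, hB.eq]; abel
    have h0 : g (brLin B C) = 0 := by
      have : (piLin G).rangeRestrict (brLin B C) ∈
          LinearMap.range ((piLin G).rangeRestrict ∘ₗ brLin B) := ⟨C, rfl⟩
      exact hf this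
    rw [hg] at h0
    have h1 : (X * brLin B C).trace = 2 * (C * C).trace := by
      have h2 : brLin B C = (2:ℝ) • (B * C - C * B) := by
        show B * (C - Cᵀ) - (C - Cᵀ) * B = _
        rw [hC, sub_neg_eq_add, Matrix.mul_add, Matrix.add_mul, two_smul]
        abel
      rw [h2, Matrix.mul_smul, Matrix.trace_smul, smul_eq_mul]
      congr 1
      rw [Matrix.mul_sub, Matrix.trace_sub]
      have h3 : (X * (C * B)).trace = (B * X * C).trace := by
        rw [← Matrix.mul_assoc, Matrix.trace_mul_comm, ← Matrix.mul_assoc]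
      rw [h3, ← Matrix.mul_assoc, ← Matrix.trace_sub, ← Matrix.sub_mul]
    rw [h1] at h0
    have h4 : (C * C).trace = - ∑ i, ∑ j, (C i j) ^ 2 := by
      simp only [Matrix.trace, Matrix.diag, Matrix.mul_apply]
      rw [← Finset.sum_neg_distrib]
      refine Finset.sum_congr rfl fun i _ => ?_
      rw [← Finset.sum_neg_distrib]
      refine Finset.sum_congr rfl fun j _ => ?_
      have h5 : C j i = - C i j := by
        have := congrFun (congrFun hC i) j
        simpa [Matrix.transpose_apply] using this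
      rw [h5]; ring
    have h6 : ∑ i, ∑ j, (C i j) ^ 2 = 0 := by linarith
    have h7 : C = 0 := by
      ext i j
      have h8 := (Finset.sum_eq_zero_iff_of_nonneg
        (fun i _ => Finset.sum_nonneg fun j _ => sq_nonneg (C i j))).1 h6 i (Finset.mem_univ i)
      have h9 := (Finset.sum_eq_zero_iff_of_nonneg
        (fun j _ => sq_nonneg (C i j))).1 h8 j (Finset.mem_univ j)
      exact pow_eq_zero_iff (two_ne_zero) |>.1 h9
    exact (sub_eq_zero.1 h7).symm
  have hX0 : X = 0 := hT X hsymm (fun i => hz i i (by simp)) (fun i j h => hz i j (by tauto)) hcomm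
  apply hf0
  ext w
  obtain ⟨w, M, rfl⟩ := w
  have := hg M
  rw [hX0, Matrix.zero_mul, Matrix.trace_zero] at this
  exact this

noncomputable def skCLM : Matrix V V ℝ →L[ℝ] Matrix V V ℝ :=
  LinearMap.toContinuousLinearMap
    { toFun := fun K => K - Kᵀ
      map_add' := by intro K L; simp only [Matrix.transpose_add]; abel
      map_smul' := by intro c K; simp [smul_sub] }

lemma skCLM_apply (K : Matrix V V ℝ) : skCLM K = K - Kᵀ := rfl

noncomputable def conjMap (B : Matrix V V ℝ) (K : Matrix V V ℝ) : Matrix V V ℝ :=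
  NormedSpace.exp (-(skCLM K)) * B * NormedSpace.exp (skCLM K)

lemma conjMap_zero (B : Matrix V V ℝ) : conjMap B 0 = B := by
  simp [conjMap, NormedSpace.exp_zero]

lemma hasStrictFDerivAt_conjMap (B : Matrix V V ℝ) :
    HasStrictFDerivAt (conjMap B) (LinearMap.toContinuousLinearMap (brLin B)) 0 := by
  have h1 : HasStrictFDerivAt (fun K : Matrix V V ℝ => NormedSpace.exp (skCLM K)) skCLM 0 := by
    have := (hasStrictFDerivAt_exp_zero (𝕂 := ℝ) (𝔸 := Matrix V V ℝ))
    have h0 : skCLM (0 : Matrix V V ℝ) = 0 := map_zero _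
    rw [← h0] at this
    have := this.comp (0 : Matrix V V ℝ) skCLM.hasStrictFDerivAt
    exact this
  have h2 : HasStrictFDerivAt (fun K : Matrix V V ℝ => NormedSpace.exp (-(skCLM K)))
      (-skCLM) 0 := by
    have := (hasStrictFDerivAt_exp_zero (𝕂 := ℝ) (𝔸 := Matrix V V ℝ))
    have h0 : (-skCLM) (0 : Matrix V V ℝ) = 0 := map_zero _
    rw [← h0] at this
    have := this.comp (0 : Matrix V V ℝ) (-skCLM).hasStrictFDerivAt
    exact this
  have h3 := (h2.mul' (hasStrictFDerivAt_const B (0 : Matrix V V ℝ))).mul' h1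
  refine h3.congr_fderiv ?_
  ext K : 1
  have e1 : NormedSpace.exp (-(skCLM (0 : Matrix V V ℝ))) = 1 := by
    rw [map_zero, neg_zero, NormedSpace.exp_zero]
  have e2 : NormedSpace.exp (skCLM (0 : Matrix V V ℝ)) = 1 := by
    rw [map_zero, NormedSpace.exp_zero]
  simp only [e1, e2]
  show _ = B * (K - Kᵀ) - (K - Kᵀ) * B
  simp only [ContinuousLinearMap.add_apply, Pi.mul_apply, e1, e2]
  show (1 * B) * (K - Kᵀ) + MulOpposite.op (1 : Matrix V V ℝ) •
    ((1 : Matrix V V ℝ) * 0 + (-(K - Kᵀ)) * B) = _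
  simp only [one_mul, MulOpposite.op_one, one_smul, mul_zero, zero_add, neg_mul]
  abel

lemma conjMap_props (B : Matrix V V ℝ) (hB : B.IsSymm) (K : Matrix V V ℝ) :
    (conjMap B K).IsSymm ∧ spectrum ℝ (conjMap B K) = spectrum ℝ B := by
  have ht : (NormedSpace.exp (skCLM K))ᵀ = NormedSpace.exp (-(skCLM K)) := by
    rw [← Matrix.exp_transpose]
    congr 1
    rw [skCLM_apply, Matrix.transpose_sub, Matrix.transpose_transpose, neg_sub]
  have ht' : (NormedSpace.exp (-(skCLM K)))ᵀ = NormedSpace.exp (skCLM K) := by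
    rw [← ht, Matrix.transpose_transpose]
  have hinv : NormedSpace.exp (-(skCLM K)) * NormedSpace.exp (skCLM K) = 1 := by
    rw [← Matrix.exp_add_of_commute]
    · simp [NormedSpace.exp_zero]
    · exact (Commute.refl _).neg_left
  have hinv' : NormedSpace.exp (skCLM K) * NormedSpace.exp (-(skCLM K)) = 1 := by
    rw [← Matrix.exp_add_of_commute]
    · simp [NormedSpace.exp_zero]
    · exact (Commute.refl _).neg_right
  refine ⟨?_, ?_⟩
  · unfold Matrix.IsSymm conjMap
    rw [Matrix.transpose_mul, Matrix.transpose_mul, ht, ht', hB.eq, Matrix.mul_assoc]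
  · let u : (Matrix V V ℝ)ˣ := ⟨NormedSpace.exp (-(skCLM K)), NormedSpace.exp (skCLM K), hinv, hinv'⟩
    exact spectrum.units_conjugate (u := u) (a := B)

/-- Local solvability: near a `G`-transversal symmetric matrix, the non-edge entries can be
moved arbitrarily within the orthogonal orbit. -/
lemma exists_conj (G : SimpleGraph V) (B : Matrix V V ℝ) (hB : B.IsSymm) (hT : Tr G B)
    (U : Set (Matrix V V ℝ)) (hU : U ∈ 𝓝 B) (Z : Matrix V V ℝ) (hZ : Z.IsSymm) :
    ∀ᶠ t in 𝓝 (0:ℝ), ∃ M ∈ U, M.IsSymm ∧ spectrum ℝ M = spectrum ℝ B ∧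
      ∀ i j, i ≠ j → ¬ G.Adj i j → M i j = B i j + t * Z i j := by
  let P : Matrix V V ℝ →L[ℝ] LinearMap.range (piLin G) :=
    LinearMap.toContinuousLinearMap (piLin G).rangeRestrict
  have hF := P.hasStrictFDerivAt.comp (0 : Matrix V V ℝ) (hasStrictFDerivAt_conjMap B)
  have hs := hF.map_nhds_eq_of_surj (by
    rw [← surj_of_tr G B hB hT]
    rfl)
  have hc : ContinuousAt (conjMap B) 0 := (hasStrictFDerivAt_conjMap B).hasFDerivAt.continuousAt
  have hU' : (conjMap B) ⁻¹' U ∈ 𝓝 (0 : Matrix V V ℝ) := by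
    apply hc
    rw [conjMap_zero]; exact hU
  have himg : (fun x => P (conjMap B x)) '' ((conjMap B) ⁻¹' U) ∈ 𝓝 (P B) := by
    have h1 := Filter.image_mem_map (m := (fun x => P (conjMap B x))) hU'
    rw [conjMap_zero] at hs
    exact (Filter.ext_iff.1 hs _).1 h1
  have hcont : Tendsto (fun t : ℝ => P (B + t • Z)) (𝓝 0) (𝓝 (P B)) := by
    have : Continuous (fun t : ℝ => P (B + t • Z)) := by fun_prop
    have := this.tendsto 0
    simpa using this
  filter_upwards [hcont himg] with t ht
  obtain ⟨K, hK, hK2⟩ := ht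
  refine ⟨conjMap B K, hK, (conjMap_props B hB K).1, (conjMap_props B hB K).2, ?_⟩
  intro i j hij hadj
  have h1 : piLin G (conjMap B K) = piLin G (B + t • Z) := congrArg Subtype.val hK2
  have h2 := congrFun (congrFun h1 i) j
  rw [piLin_apply_pos G _ hij hadj, piLin_apply_pos G _ hij hadj] at h2
  have h3 : (conjMap B K) j i = (conjMap B K) i j := (conjMap_props B hB K).1.apply i j
  have h4 : B j i = B i j := hB.apply i j
  have h5 : Z j i = Z i j := hZ.apply i j
  simp only [Matrix.add_apply, Matrix.smul_apply, smul_eq_mul, h3, h4, h5] at h2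
  linarith

end Pool.Agent.helper58.NG
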