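import Pool.Agent.helper58.NGSeeds

set_option autoImplicit false

namespace Pool.Agent.helper58.NG

open Matrix

section
variable {V : Type} [Fintype V] [DecidableEq V]

/-- contraction of `y` into `x` -/
def contr (G : SimpleGraph V) (x y : V) : SimpleGraph {z : V // z ≠ y} where
  Adj i j := i ≠ j ∧ (G.Adj i.1 j.1 ∨ (i.1 = x ∧ G.Adj y j.1) ∨ (j.1 = x ∧ G.Adj y i.1))
  symm := ⟨fun i j h => ⟨h.1.symm, by
    rcases h.2 with h | h | h
    · exact Or.inl h.symm
    · exact Or.inr (Or.inr h)
    · exact Or.inr (Or.inl h)⟩⟩
  loopless := ⟨fun _ h => h.1 rfl⟩

theorem Sav.contract {G : SimpleGraph V} {x y : V} (hxy : G.Adj x y)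
    (hl : ∀ z, ¬ (G.Adj x z ∧ G.Adj y z)) {c : ℕ} (h : Sav (contr G x y) c) : Sav G c := by
  classical
  let e : {z : V // z ≠ y} ⊕ Unit ≃ V := Equiv.ofBijective (Sum.elim Subtype.val (fun _ => y)) (by
    constructor
    · rintro (i | i) (j | j) hij
      · simp only [Sum.elim_inl] at hij
        rw [Subtype.ext hij]
      · simp only [Sum.elim_inl, Sum.elim_inr] at hij
        exact absurd hij i.2
      · simp only [Sum.elim_inl, Sum.elim_inr] at hij
        exact absurd hij.symm j.2
      · rfl
    · intro z
      by_cases hz : z = y
      · exact ⟨Sum.inr (), hz.symm⟩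
      · exact ⟨Sum.inl ⟨z, hz⟩, rfl⟩)
  have el : ∀ i, e (Sum.inl i) = i.1 := fun i => rfl
  have er : e (Sum.inr ()) = y := rfl
  apply Sav.equiv e
  let a : {z : V // z ≠ y} := ⟨x, hxy.ne⟩
  refine Sav.split (a := a) h ?_ ?_ ?_ ?_
  · intro i j hi hj
    have hi' : i.1 ≠ x := fun h => hi (Subtype.ext h)
    have hj' : j.1 ≠ x := fun h => hj (Subtype.ext h)
    show G.Adj i.1 j.1 ↔ _ ∧ _
    constructor
    · intro h
      exact ⟨fun h2 => h.ne (by rw [h2]), Or.inl h⟩
    · rintro ⟨-, h | h | h⟩
      · exact h
      · exact absurd h.1 hi'
      · exact absurd h.1 hj'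
  · intro j hj
    have hj' : j.1 ≠ x := fun h => hj (Subtype.ext h)
    show _ ∧ _ ↔ G.Adj x j.1 ∨ G.Adj y j.1
    constructor
    · rintro ⟨-, h | h | h⟩
      · exact Or.inl h
      · exact Or.inr h.2
      · exact absurd h.1 hj'
    · rintro (h | h)
      · exact ⟨hj.symm, Or.inl h⟩
      · exact ⟨hj.symm, Or.inr (Or.inl ⟨rfl, h⟩)⟩
  · intro j
    exact hl j.1
  · exact hxy.symm

open Classical in
/-- neighbours as a finset -/
noncomputable def nb (G : SimpleGraph V) (v : V) : Finset V := Finset.univ.filter (fun w => G.Adj v w)

lemma mem_nb (G : SimpleGraph V) (v w : V) : w ∈ nb G v ↔ G.Adj v w := by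
  simp [nb]

end

lemma exists_ne_of_two_le {α : Type} [DecidableEq α] (s : Finset α) (h : 2 ≤ s.card) (a : α) :
    ∃ b ∈ s, b ≠ a := by
  have : (s.erase a).Nonempty := by
    rw [← Finset.card_pos]
    have := Finset.pred_card_le_card_erase (s := s) (a := a)
    omega
  obtain ⟨b, hb⟩ := this
  exact ⟨b, Finset.mem_of_mem_erase hb, Finset.ne_of_mem_erase hb⟩

/-- Lemma D: minimum degree bound. -/
theorem lemmaD : ∀ (n : ℕ) (V : Type) [Fintype V] [DecidableEq V] (G : SimpleGraph V) (d : ℕ),
    Fintype.card V = n → 2 ≤ d → (∀ v, d ≤ (nb G v).card) → d + 2 ≤ n → Sav G d := by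
  intro n
  induction n with
  | zero => intro V _ _ G d _ _ _ h; omega
  | succ n ih =>
    intro V _ _ G d hV hd hdeg hn
    classical
    by_cases hA : ∃ x y, G.Adj x y ∧ ∀ z, ¬ (G.Adj x z ∧ G.Adj y z)
    · obtain ⟨x, y, hxy, hl⟩ := hA
      by_cases hn2 : d + 2 ≤ n
      · -- contract
        refine Sav.contract hxy hl (ih _ (contr G x y) d ?_ hd ?_ hn2)
        · have := card_del (V := V) y
          omega
        · intro v
          by_cases hv : v.1 = x
          · -- merged vertex
            have h1 : 2 * d ≤ (nb G x).card + (nb G y).card := by
              have := hdeg x; have := hdeg y; omega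
            have hdisj : Disjoint (nb G x) (nb G y) := by
              rw [Finset.disjoint_left]
              intro z h2 h3
              exact hl z ⟨(mem_nb _ _ _).1 h2, (mem_nb _ _ _).1 h3⟩
            have hsub : ((nb G x ∪ nb G y).erase x).erase y ⊆
                (nb (contr G x y) v).map ⟨Subtype.val, Subtype.val_injective⟩ := by
              intro z hz
              rw [Finset.mem_erase, Finset.mem_erase, Finset.mem_union, mem_nb, mem_nb] at hz
              obtain ⟨h2, h3, h4⟩ := hz
              rw [Finset.mem_map]
              refine ⟨⟨z, h2⟩, ?_, rfl⟩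
              rw [mem_nb]
              refine ⟨fun h => h3 (by rw [← hv, h]), ?_⟩
              rcases h4 with h4 | h4
              · left; show G.Adj v.1 z; rw [hv]; exact h4
              · right; left; exact ⟨hv, h4⟩
            have h5 := Finset.card_le_card hsub
            rw [Finset.card_map] at h5
            have h6 := Finset.pred_card_le_card_erase (s := (nb G x ∪ nb G y)) (a := x)
            have h7 := Finset.pred_card_le_card_erase (s := (nb G x ∪ nb G y).erase x) (a := y)
            rw [Finset.card_union_of_disjoint hdisj] at h6
            omega
          · refine (hdeg v.1).trans ?_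
            let f : V → V := fun w => if w = y then x else w
            have hmaps : ∀ w ∈ nb G v.1, f w ∈
                (nb (contr G x y) v).map ⟨Subtype.val, Subtype.val_injective⟩ := by
              intro w hw
              rw [mem_nb] at hw
              rw [Finset.mem_map]
              by_cases hwy : w = y
              · refine ⟨⟨x, hxy.ne⟩, ?_, by simp [f, hwy]⟩
                rw [mem_nb]
                refine ⟨fun h => hv (by rw [h]), ?_⟩
                right; right
                refine ⟨rfl, ?_⟩
                have h9 : G.Adj w v.1 := hw.symm
                rw [hwy] at h9; exact h9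
              · refine ⟨⟨w, hwy⟩, ?_, by simp [f, hwy]⟩
                rw [mem_nb]
                refine ⟨fun h => hw.ne (by rw [h]), Or.inl hw⟩
            have hinj : Set.InjOn f (nb G v.1) := by
              intro w hw w' hw' hff
              rw [Finset.mem_coe, mem_nb] at hw hw'
              simp only [f] at hff
              by_cases h1 : w = y
              · by_cases h2 : w' = y
                · rw [h1, h2]
                · rw [if_pos h1, if_neg h2] at hff
                  exfalso
                  subst h1
                  rw [← hff] at hw'
                  exact hl v.1 ⟨hw'.symm, hw.symm⟩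
              · by_cases h2 : w' = y
                · rw [if_neg h1, if_pos h2] at hff
                  exfalso
                  subst h2
                  rw [hff] at hw
                  exact hl v.1 ⟨hw.symm, hw'.symm⟩
                · rw [if_neg h1, if_neg h2] at hff
                  exact hff
            have := Finset.card_le_card_of_injOn f hmaps hinj
            rwa [Finset.card_map] at this
      · -- n + 1 = d + 2
        have hdisj : Disjoint (nb G x) (nb G y) := by
          rw [Finset.disjoint_left]
          intro z h2 h3
          exact hl z ⟨(mem_nb _ _ _).1 h2, (mem_nb _ _ _).1 h3⟩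
        have h1 : (nb G x).card + (nb G y).card ≤ n + 1 := by
          rw [← Finset.card_union_of_disjoint hdisj, ← hV]
          exact Finset.card_le_univ _
        have h2 := hdeg x
        have h3 := hdeg y
        have hd2 : d = 2 := by omega
        subst hd2
        obtain ⟨p, hp, hpy⟩ := exists_ne_of_two_le (nb G x) (by omega) y
        obtain ⟨q, hq, hqx⟩ := exists_ne_of_two_le (nb G y) (by omega) x
        rw [mem_nb] at hp hq
        have hpq : p ≠ q := by
          rintro rfl
          exact hl p ⟨hp, hq⟩
        have hpx : p ≠ x := hp.ne.symm
        have hqy : q ≠ y := hq.ne.symm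
        -- x y p q are all the vertices
        have hall : ∀ z, z = x ∨ z = y ∨ z = p ∨ z = q := by
          intro z
          by_contra hz
          push Not at hz
          obtain ⟨z1, z2, z3, z4⟩ := hz
          have h5 : ({z, x, y, p, q} : Finset V).card = 5 := by
            rw [Finset.card_insert_of_notMem, Finset.card_insert_of_notMem,
              Finset.card_insert_of_notMem, Finset.card_insert_of_notMem, Finset.card_singleton]
            · simp [hpq]
            · simp [hpy.symm, hqy.symm]
            · simp [hxy.ne, hpx.symm, hqx.symm]
            · simp [z1, z2, z3, z4]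
          have := Finset.card_le_univ ({z, x, y, p, q} : Finset V)
          omega
        obtain ⟨r, hr, hrx⟩ := exists_ne_of_two_le (nb G p) (hdeg p) x
        rw [mem_nb] at hr
        have hrq : r = q := by
          rcases hall r with h | h | h | h
          · exact absurd h hrx
          · exfalso
            rw [h] at hr
            exact hl p ⟨hp, hr.symm⟩
          · exact absurd h hr.ne.symm
          · exact h
        rw [hrq] at hr
        -- cycle x y q p
        have e1 := hxy.ne
        have e2 := hpx.symm
        have e3 := hqx.symm
        have e4 := hqy.symm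
        have e5 := hpy.symm
        have e6 := hpq.symm
        refine sav_C4.embed ![x, y, q, p] ?_ ?_
        · intro i j hij
          fin_cases i <;> fin_cases j <;> first | rfl | (exfalso; simp at hij; tauto)
        · intro i j hij
          fin_cases i <;> fin_cases j <;>
            first
              | exact hxy | exact hxy.symm | exact hq | exact hq.symm | exact hr | exact hr.symm
              | exact hp | exact hp.symm
              | (exfalso; revert hij; decide)
    · push Not at hA
      have htri : ∀ x y, G.Adj x y → ∃ z, G.Adj x z ∧ G.Adj y z := hA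
      by_cases hd3 : 3 ≤ d
      · obtain ⟨v⟩ : Nonempty V := by
          rw [← Fintype.card_pos_iff]; omega
        obtain ⟨d', rfl⟩ : ∃ d', d = d' + 1 := ⟨d - 1, by omega⟩
        refine Sav.free v (ih _ (del G v) d' ?_ (by omega) ?_ (by omega)) (nb G v) ?_ (hdeg v)
        · have := card_del (V := V) v
          omega
        · intro w
          have h1 := hdeg w.1
          have hsub : (nb G w.1).erase v ⊆
              (nb (del G v) w).map ⟨Subtype.val, Subtype.val_injective⟩ := by
            intro z hz
            rw [Finset.mem_erase, mem_nb] at hz
            rw [Finset.mem_map]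
            exact ⟨⟨z, hz.1⟩, (mem_nb _ _ _).2 hz.2, rfl⟩
          have h5 := Finset.card_le_card hsub
          rw [Finset.card_map] at h5
          have h6 := Finset.pred_card_le_card_erase (s := nb G w.1) (a := v)
          omega
        · intro w hw
          rw [mem_nb] at hw
          exact ⟨hw, htri v w hw⟩
      · have hd2 : d = 2 := by omega
        subst hd2
        obtain ⟨x⟩ : Nonempty V := by
          rw [← Fintype.card_pos_iff]; omega
        obtain ⟨y, hy, -⟩ := exists_ne_of_two_le (nb G x) (hdeg x) x
        rw [mem_nb] at hy
        obtain ⟨z, hxz, hyz⟩ := htri x y hy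
        obtain ⟨v, hv⟩ : ∃ v, v ∉ ({x, y, z} : Finset V) := by
          by_contra h
          push Not at h
          have h1 : (Finset.univ : Finset V) ⊆ {x, y, z} := fun v _ => h v
          have h2 := Finset.card_le_card h1
          have h3 : ({x, y, z} : Finset V).card ≤ 3 := Finset.card_le_three
          rw [Finset.card_univ] at h2
          omega
        simp only [Finset.mem_insert, Finset.mem_singleton, not_or] at hv
        have h1 : Sav (del G v) 1 := by
          refine sav_K3.embed (G := del G v)
            ![⟨x, Ne.symm hv.1⟩, ⟨y, Ne.symm hv.2.1⟩, ⟨z, Ne.symm hv.2.2⟩] ?_ ?_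
          · intro i j hij
            have e1 := hy.ne
            have e2 := hxz.ne
            have e3 := hyz.ne
            fin_cases i <;> fin_cases j <;> first | rfl | (exfalso; simp at hij; tauto)
          · intro i j hij
            fin_cases i <;> fin_cases j <;>
            first
              | exact hy | exact hy.symm | exact hxz | exact hxz.symm | exact hyz | exact hyz.symm
              | (exfalso; revert hij; decide)
        refine Sav.free v h1 (nb G v) ?_ (hdeg v)
        intro w hw
        rw [mem_nb] at hw
        exact ⟨hw, htri v w hw⟩

end Pool.Agent.helper58.NG
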