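import Pool.Agent.helper58.NGHouse

set_option autoImplicit false

namespace Pool.Agent.helper58.NG

open Matrix Filter Topology
open scoped Matrix.Norms.Elementwise

variable {W : Type} [Fintype W] [DecidableEq W]

abbrev PP (W : Type) : Type := ℝ × (W → ℝ) × Matrix W W ℝ

lemma cd_e : ContDiff ℝ 1 (fun p : PP W => p.1) := contDiff_fst

lemma cd_k (i : W) : ContDiff ℝ 1 (fun p : PP W => p.2.1 i) := by
  have : ContDiff ℝ 1 (fun p : PP W => p.2.1) := contDiff_fst.comp contDiff_snd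
  exact (contDiff_pi.1 this) i

lemma cd_M (i j : W) : ContDiff ℝ 1 (fun p : PP W => p.2.2 i j) := by
  have h1 : ContDiff ℝ 1 (fun p : PP W => p.2.2) := contDiff_snd.comp contDiff_snd
  have h2 : ContDiff ℝ 1 (fun M : Matrix W W ℝ => M i j) :=
    (LinearMap.toContinuousLinearMap (Matrix.entryLinearMap ℝ ℝ i j)).contDiff
  exact h2.comp h1

lemma cd_Mk (i : W) : ContDiff ℝ 1 (fun p : PP W => (p.2.2 *ᵥ p.2.1) i) := by
  simp only [Matrix.mulVec, dotProduct]
  exact ContDiff.sum fun l _ => (cd_M i l).mul (cd_k l)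

lemma cd_D : ContDiff ℝ 1 (fun p : PP W => pD p) := by
  unfold pD
  simp only [dotProduct]
  exact contDiff_const.add ((cd_e.pow 2).mul (ContDiff.sum fun l _ => (cd_k l).mul (cd_k l)))

lemma cd_q : ContDiff ℝ 1 (fun p : PP W => pq p) := by
  unfold pq
  simp only [dotProduct]
  exact ContDiff.sum fun l _ => (cd_k l).mul (cd_Mk l)

lemma D_ne (p : PP W) : pD p ≠ 0 := (pD_pos p).ne'

lemma cd_C (i j : W) : ContDiff ℝ 1 (fun p : PP W => pC p i j) := by
  unfold pC
  simp only [Matrix.of_apply]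
  have h1 := cd_M (W := W) i j
  have h2 := cd_e (W := W)
  have h3 := cd_D (W := W)
  have h4 := cd_q (W := W)
  have h5 := cd_k (W := W) i
  have h6 := cd_k (W := W) j
  have h7 := cd_Mk (W := W) i
  have h8 := cd_Mk (W := W) j
  refine (h1.sub (ContDiff.mul (ContDiff.div (contDiff_const.mul (h2.pow 2)) h3 D_ne)
    ((h5.mul h8).add (h7.mul h6)))).add
    (ContDiff.mul (ContDiff.div (contDiff_const.mul (((h2.pow 4).mul h4).add h2)) (h3.pow 2)
      (fun p => pow_ne_zero 2 (D_ne p))) (h5.mul h6))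

lemma cd_b (i : W) : ContDiff ℝ 1 (fun p : PP W => pb p i) := by
  unfold pb
  have h2 := cd_e (W := W)
  have h3 := cd_D (W := W)
  have h4 := cd_q (W := W)
  have h5 := cd_k (W := W) i
  have h7 := cd_Mk (W := W) i
  refine ((ContDiff.div contDiff_const h3 D_ne).neg.mul (h5.add (h2.mul h7))).add
    (ContDiff.mul (ContDiff.div (contDiff_const.mul (((h2.pow 3).mul h4).add contDiff_const))
      (h3.pow 2) (fun p => pow_ne_zero 2 (D_ne p))) h5)

lemma cd_kap : ContDiff ℝ 1 (fun p : PP W => pk p) := by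
  unfold pk
  have h2 := cd_e (W := W)
  have h3 := cd_D (W := W)
  have h4 := cd_q (W := W)
  refine (contDiff_const.sub (ContDiff.div contDiff_const h3 D_ne)).add
    (ContDiff.div (contDiff_const.mul (((h2.pow 3).mul h4).add contDiff_const))
      (h3.pow 2) (fun p => pow_ne_zero 2 (D_ne p)))

lemma cd_Cmat : ContDiff ℝ 1 (fun p : PP W => pC p) := by
  have : ContDiff ℝ 1 (fun p : PP W => (fun i j => pC p i j : W → W → ℝ)) :=
    contDiff_pi.2 fun i => contDiff_pi.2 fun j => cd_C i j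
  exact this

lemma pD_zero (k : W → ℝ) (M : Matrix W W ℝ) : pD (0, k, M) = 1 := by simp [pD]
lemma pC_zero (k : W → ℝ) (M : Matrix W W ℝ) : pC (0, k, M) = M := by
  ext i j; simp [pC]
lemma pb_zero (k : W → ℝ) (M : Matrix W W ℝ) (i : W) : pb (0, k, M) i = 2 * k i := by
  simp only [pb, pD_zero]; ring_nf
lemma pk_zero (k : W → ℝ) (M : Matrix W W ℝ) : pk (0, k, M) = 1 := by
  simp only [pk, pD_zero]; norm_num

noncomputable def FX (H : SimpleGraph W) (s : W → ℝ) (a : W) (p : PP W) :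
    ℝ × (W → ℝ) × LinearMap.range (piLin H) :=
  (p.1, (fun j => pb p j - s j * pC p a j), (piLin H).rangeRestrict (pC p))

noncomputable def rrC (H : SimpleGraph W) : Matrix W W ℝ →L[ℝ] LinearMap.range (piLin H) :=
  LinearMap.toContinuousLinearMap (piLin H).rangeRestrict

lemma cd_FX (H : SimpleGraph W) (s : W → ℝ) (a : W) : ContDiff ℝ 1 (FX H s a) := by
  unfold FX
  refine cd_e.prodMk (ContDiff.prodMk ?_ ?_)
  · exact contDiff_pi.2 fun j => (cd_b j).sub (contDiff_const.mul (cd_C a j))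
  · exact (rrC H).contDiff.comp cd_Cmat

/-- linear slice -/
noncomputable def slice (H : SimpleGraph W) (s : W → ℝ) (a : W) :
    (W → ℝ) × Matrix W W ℝ →L[ℝ] ℝ × (W → ℝ) × LinearMap.range (piLin H) :=
  LinearMap.toContinuousLinearMap
    { toFun := fun x => (0, (fun j => 2 * x.1 j - s j * x.2 a j), (piLin H).rangeRestrict x.2)
      map_add' := by
        intro x y
        refine Prod.ext (by simp) (Prod.ext ?_ ?_)
        · ext j
          simp only [Prod.fst_add, Prod.snd_add, Pi.add_apply, Matrix.add_apply]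
          ring
        · simp only [Prod.snd_add, map_add]
      map_smul' := by
        intro c x
        refine Prod.ext (by simp) (Prod.ext ?_ ?_)
        · ext j
          simp only [Prod.smul_fst, Prod.smul_snd, Pi.smul_apply, Matrix.smul_apply, smul_eq_mul,
            RingHom.id_apply]
          ring
        · simp only [Prod.smul_snd, map_smul, RingHom.id_apply] }

lemma FX_slice (H : SimpleGraph W) (s : W → ℝ) (a : W) (x : (W → ℝ) × Matrix W W ℝ) :
    FX H s a (0, x.1, x.2) = slice H s a x := by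
  refine Prod.ext rfl (Prod.ext ?_ ?_)
  · ext j
    simp only [FX, pb_zero, pC_zero]
    rfl
  · simp only [FX, pC_zero]
    rfl

noncomputable def GX (A : Matrix W W ℝ) (x : PP W) : PP W := (x.1, x.2.1, conjMap A x.2.2)

noncomputable def GX' (A : Matrix W W ℝ) : PP W →L[ℝ] PP W :=
  (ContinuousLinearMap.fst ℝ ℝ ((W → ℝ) × Matrix W W ℝ)).prod
    (((ContinuousLinearMap.fst ℝ (W → ℝ) (Matrix W W ℝ)).comp
      (ContinuousLinearMap.snd ℝ ℝ ((W → ℝ) × Matrix W W ℝ))).prod
    ((LinearMap.toContinuousLinearMap (brLin A)).comp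
      ((ContinuousLinearMap.snd ℝ (W → ℝ) (Matrix W W ℝ)).comp
      (ContinuousLinearMap.snd ℝ ℝ ((W → ℝ) × Matrix W W ℝ)))))

lemma hasStrictFDerivAt_GX (A : Matrix W W ℝ) (k0 : W → ℝ) :
    HasStrictFDerivAt (GX A) (GX' A) (0, k0, 0) := by
  have h1 : HasStrictFDerivAt (fun x : PP W => x.1)
      (ContinuousLinearMap.fst ℝ ℝ ((W → ℝ) × Matrix W W ℝ)) (0, k0, 0) :=
    (ContinuousLinearMap.fst ℝ ℝ ((W → ℝ) × Matrix W W ℝ)).hasStrictFDerivAt
  have h2 : HasStrictFDerivAt (fun x : PP W => x.2.1)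
      ((ContinuousLinearMap.fst ℝ (W → ℝ) (Matrix W W ℝ)).comp
      (ContinuousLinearMap.snd ℝ ℝ ((W → ℝ) × Matrix W W ℝ))) (0, k0, 0) :=
    ((ContinuousLinearMap.fst ℝ (W → ℝ) (Matrix W W ℝ)).comp
      (ContinuousLinearMap.snd ℝ ℝ ((W → ℝ) × Matrix W W ℝ))).hasStrictFDerivAt
  have h3 : HasStrictFDerivAt (fun x : PP W => x.2.2)
      ((ContinuousLinearMap.snd ℝ (W → ℝ) (Matrix W W ℝ)).comp
      (ContinuousLinearMap.snd ℝ ℝ ((W → ℝ) × Matrix W W ℝ))) (0, k0, 0) :=
    ((ContinuousLinearMap.snd ℝ (W → ℝ) (Matrix W W ℝ)).comp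
      (ContinuousLinearMap.snd ℝ ℝ ((W → ℝ) × Matrix W W ℝ))).hasStrictFDerivAt
  have h4 : HasStrictFDerivAt (fun x : PP W => conjMap A x.2.2) _ (0, k0, 0) :=
    (hasStrictFDerivAt_conjMap A).comp (((0, k0, 0) : PP W)) h3
  exact h1.prodMk (h2.prodMk h4)

theorem exists_border (H : SimpleGraph W) (A : Matrix W W ℝ) (hA : A.IsSymm) (hC : CPat H A)
    (hT : Tr H A) (s : W → ℝ) (a : W)
    (U : Set (ℝ × ℝ × Matrix W W ℝ × (W → ℝ)))
    (hU : U ∈ 𝓝 ((0, 1, A, fun j => s j * A a j) : ℝ × ℝ × Matrix W W ℝ × (W → ℝ))) :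
    ∃ (e κ : ℝ) (C : Matrix W W ℝ) (b : W → ℝ), e ≠ 0 ∧ (e, κ, C, b) ∈ U ∧ C.IsSymm ∧ CPat H C ∧
      (∀ j, b j = s j * C a j) ∧ spectrum ℝ (bord C b (κ / e)) ⊆ insert e⁻¹ (spectrum ℝ A) := by
  let k0 : W → ℝ := fun j => s j * A a j / 2
  have hF : HasStrictFDerivAt (FX H s a) (fderiv ℝ (FX H s a) (0, k0, A)) (0, k0, A) :=
    (cd_FX H s a).hasStrictFDerivAt one_ne_zero
  set F' := fderiv ℝ (FX H s a) (0, k0, A) with hF'
  have hGbase : GX A (0, k0, 0) = (0, k0, A) := by
    simp [GX, conjMap_zero]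
  -- slice derivative
  have hsl : ∀ x : (W → ℝ) × Matrix W W ℝ, F' (0, x) = slice H s a x := by
    have h1 : HasFDerivAt (FX H s a) F' (0, k0, A) := hF.hasFDerivAt
    have h2 : HasFDerivAt (fun x : (W → ℝ) × Matrix W W ℝ => FX H s a (0, x))
        (F'.comp (ContinuousLinearMap.inr ℝ ℝ ((W → ℝ) × Matrix W W ℝ))) (k0, A) := by
      have h3 : HasFDerivAt (fun x : (W → ℝ) × Matrix W W ℝ => ((0 : ℝ), x))
          (ContinuousLinearMap.inr ℝ ℝ ((W → ℝ) × Matrix W W ℝ)) (k0, A) :=
        (ContinuousLinearMap.inr ℝ ℝ ((W → ℝ) × Matrix W W ℝ)).hasFDerivAt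
      exact HasFDerivAt.comp (k0, A) h1 h3
    have h4 : HasFDerivAt (fun x : (W → ℝ) × Matrix W W ℝ => FX H s a (0, x))
        (slice H s a) (k0, A) := by
      have : (fun x : (W → ℝ) × Matrix W W ℝ => FX H s a (0, x)) = slice H s a := by
        funext x
        exact FX_slice H s a x
      rw [this]
      exact (slice H s a).hasFDerivAt
    have h5 := h2.unique h4
    intro x
    have := congrArg (fun L : ((W → ℝ) × Matrix W W ℝ) →L[ℝ] _ => L x) h5
    exact this
  have hfst : ∀ x : PP W, (F' x).1 = x.1 := by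
    have h1 : HasFDerivAt (FX H s a) F' (0, k0, A) := hF.hasFDerivAt
    have h2 : HasFDerivAt (fun x : PP W => (FX H s a x).1)
        ((ContinuousLinearMap.fst ℝ ℝ _).comp F') (0, k0, A) := h1.fst
    have h3 : HasFDerivAt (fun x : PP W => (FX H s a x).1)
        (ContinuousLinearMap.fst ℝ ℝ ((W → ℝ) × Matrix W W ℝ)) (0, k0, A) :=
      (ContinuousLinearMap.fst ℝ ℝ ((W → ℝ) × Matrix W W ℝ)).hasFDerivAt
    have h5 := h2.unique h3
    intro x
    exact congrArg (fun L : PP W →L[ℝ] ℝ => L x) h5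
  have hcomp : HasStrictFDerivAt (fun x => FX H s a (GX A x)) (F'.comp (GX' A)) (0, k0, 0) := by
    have hF2 : HasStrictFDerivAt (FX H s a) F' (GX A (0, k0, 0)) := by
      rw [hGbase]; exact hF
    exact hF2.comp _ (hasStrictFDerivAt_GX A k0)
  have hsurj : (F'.comp (GX' A)).range = ⊤ := by
    rw [LinearMap.range_eq_top]
    rintro ⟨e, y, w⟩
    obtain ⟨K, hK⟩ : ∃ K, (piLin H).rangeRestrict (brLin A K) = w - (F' (e, 0, 0)).2.2 := by
      have := surj_of_tr H A hA hT
      rw [LinearMap.range_eq_top] at this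
      exact this _
    let dk : W → ℝ := fun j => (y j - (F' (e, 0, 0)).2.1 j + s j * (brLin A K) a j) / 2
    refine ⟨(e, dk, K), ?_⟩
    have h1 : (F'.comp (GX' A)) (e, dk, K) = F' (e, 0, 0) + F' (0, dk, brLin A K) := by
      rw [← map_add]
      show F' (e, dk, brLin A K) = _
      congr 1
      simp
    show (F'.comp (GX' A)) (e, dk, K) = _
    rw [h1, hsl]
    refine Prod.ext ?_ (Prod.ext ?_ ?_)
    · show (F' (e, 0, 0)).1 + 0 = e
      rw [hfst]; simp
    · ext j
      show (F' (e, 0, 0)).2.1 j + (2 * dk j - s j * (brLin A K) a j) = y j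
      simp only [dk]; ring
    · show (F' (e, 0, 0)).2.2 + (piLin H).rangeRestrict (brLin A K) = w
      rw [hK]; abel
  have hmap := hcomp.map_nhds_eq_of_surj hsurj
  -- continuity of data
  have hcG : ContinuousAt (GX A) (0, k0, 0) := (hasStrictFDerivAt_GX A k0).hasFDerivAt.continuousAt
  let dat : PP W → ℝ × ℝ × Matrix W W ℝ × (W → ℝ) := fun p => (p.1, pk p, pC p, pb p)
  have hdat : Continuous dat := by
    have hb : Continuous (fun p : PP W => pb p) := continuous_pi fun i => (cd_b i).continuous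
    exact continuous_fst.prodMk (cd_kap.continuous.prodMk (cd_Cmat.continuous.prodMk hb))
  have hdat0 : dat (0, k0, A) = (0, 1, A, fun j => s j * A a j) := by
    refine Prod.ext rfl (Prod.ext (pk_zero _ _) (Prod.ext (pC_zero _ _) ?_))
    ext j
    show pb (0, k0, A) j = _
    rw [pb_zero]; simp only [k0]; ring
  have hV : (fun x => dat (GX A x)) ⁻¹' U ∈ 𝓝 ((0, k0, 0) : PP W) := by
    have h1 : ContinuousAt (fun x => dat (GX A x)) ((0, k0, 0) : PP W) :=
      hdat.continuousAt.comp hcG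
    apply h1
    show U ∈ 𝓝 (dat (GX A (0, k0, 0)))
    rw [hGbase, hdat0]; exact hU
  have himg : (fun x => FX H s a (GX A x)) '' ((fun x => dat (GX A x)) ⁻¹' U) ∈
      𝓝 (FX H s a (GX A (0, k0, 0))) := by
    have h1 := Filter.image_mem_map (m := (fun x => FX H s a (GX A x))) hV
    exact (Filter.ext_iff.1 hmap _).1 h1
  have hbase : FX H s a (GX A (0, k0, 0)) = (0, 0, 0) := by
    rw [hGbase]
    refine Prod.ext rfl (Prod.ext ?_ ?_)
    · ext j
      show pb (0, k0, A) j - s j * pC (0, k0, A) a j = 0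
      rw [pb_zero, pC_zero]; simp only [k0]; ring
    · show (piLin H).rangeRestrict (pC (0, k0, A)) = 0
      rw [pC_zero]
      apply Subtype.ext
      show piLin H A = 0
      ext i j
      by_cases h : i ≠ j ∧ ¬ H.Adj i j
      · rw [piLin_apply_pos H _ h.1 h.2, hC i j h.1 h.2,
          hC j i h.1.symm (fun h' => h.2 h'.symm)]
        simp
      · rw [piLin_apply_neg H _ h]; rfl
  rw [hbase] at himg
  have hline : Tendsto (fun t : ℝ => ((t, 0, 0) : ℝ × (W → ℝ) × LinearMap.range (piLin H)))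
      (𝓝 0) (𝓝 (0, 0, 0)) := by
    have : Continuous (fun t : ℝ => ((t, 0, 0) : ℝ × (W → ℝ) × LinearMap.range (piLin H))) := by
      fun_prop
    exact this.tendsto 0
  have hev := hline himg
  have hev2 : ∀ᶠ t in 𝓝[≠] (0:ℝ), ((t, 0, 0) : ℝ × (W → ℝ) × LinearMap.range (piLin H)) ∈
      (fun x => FX H s a (GX A x)) '' ((fun x => dat (GX A x)) ⁻¹' U) :=
    (Filter.Eventually.filter_mono nhdsWithin_le_nhds hev)
  obtain ⟨t, ⟨x, hxU, hx⟩, ht⟩ := (hev2.and self_mem_nhdsWithin).exists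
  have ht0 : t ≠ 0 := ht
  obtain ⟨e, k, K⟩ := x
  have hx1 : e = t := congrArg Prod.fst hx
  subst hx1
  set M := conjMap A K with hM
  have hMs : M.IsSymm := (conjMap_props A hA K).1
  have hMsp : spectrum ℝ M = spectrum ℝ A := (conjMap_props A hA K).2
  have hCs : (pC (e, k, M)).IsSymm := by
    ext i j
    simp only [Matrix.transpose_apply, pC, Matrix.of_apply]
    have : M j i = M i j := hMs.apply i j
    rw [this]
    ring
  refine ⟨e, pk (e, k, M), pC (e, k, M), pb (e, k, M), ht0, hxU, hCs, ?_, ?_, ?_⟩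
  · intro i j hij hadj
    have h1 : (piLin H).rangeRestrict (pC (e, k, M)) = 0 := congrArg (fun z => z.2.2) hx
    have h2 : piLin H (pC (e, k, M)) = 0 := congrArg Subtype.val h1
    have h3 := congrFun (congrFun h2 i) j
    rw [piLin_apply_pos H _ hij hadj] at h3
    have h4 : pC (e, k, M) j i = pC (e, k, M) i j := hCs.apply i j
    rw [h4] at h3
    simp only [Matrix.zero_apply] at h3
    linarith
  · intro j
    have h1 : (fun j => pb (e, k, M) j - s j * pC (e, k, M) a j) = 0 :=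
      congrArg (fun z => z.2.1) hx
    have h2 := congrFun h1 j
    simp only [Pi.zero_apply] at h2
    linarith
  · rw [bord_eq e ht0 k M hMs, hh_spectrum, spectrum_blocks, hMsp]
    · rintro μ (hμ | hμ)
      · exact Set.mem_insert_of_mem _ hμ
      · left
        rw [mem_spec_iff] at hμ
        obtain ⟨x, hx, hx2⟩ := hμ
        obtain ⟨i, hi⟩ := Function.ne_iff.1 hx
        have := congrFun hx2 i
        simp only [Matrix.mulVec_diagonal, Pi.smul_apply, smul_eq_mul] at this
        exact (mul_right_cancel₀ hi this).symm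
    · have : (0:ℝ) < (Sum.elim (fun i => e * k i) (fun _ : Unit => (1:ℝ))) ⬝ᵥ
          (Sum.elim (fun i => e * k i) (fun _ : Unit => (1:ℝ))) := by
        simp only [dotProduct, Fintype.sum_sum_type, Sum.elim_inl, Sum.elim_inr,
          Finset.univ_unique, Finset.sum_singleton]
        have : 0 ≤ ∑ x, e * k x * (e * k x) := Finset.sum_nonneg fun i _ => mul_self_nonneg _
        linarith
      exact this.ne'

end Pool.Agent.helper58.NG
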