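import Pool.Agent.helper58.NGPert

set_option autoImplicit false

namespace Pool.Agent.helper58.NG

open Matrix Filter Topology

section spec
variable {V : Type} [Fintype V] [DecidableEq V]

lemma mem_spec_iff (A : Matrix V V ℝ) (μ : ℝ) :
    μ ∈ spectrum ℝ A ↔ ∃ x : V → ℝ, x ≠ 0 ∧ A *ᵥ x = μ • x := by
  rw [spectrum.mem_iff, Matrix.isUnit_iff_isUnit_det, isUnit_iff_ne_zero, not_not,
    ← Matrix.exists_mulVec_eq_zero_iff]
  refine exists_congr fun x => and_congr_right fun _ => ?_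
  rw [Matrix.sub_mulVec, sub_eq_zero, Matrix.algebraMap_eq_diagonal]
  have : (Matrix.diagonal ((algebraMap ℝ (V → ℝ)) μ)) *ᵥ x = μ • x := by
    ext i
    simp [Matrix.mulVec_diagonal]
  rw [this]
  exact eq_comm

end spec

variable {V₁ V₂ : Type} [Fintype V₁] [DecidableEq V₁] [Fintype V₂] [DecidableEq V₂]

lemma spectrum_blocks (A₁ : Matrix V₁ V₁ ℝ) (A₂ : Matrix V₂ V₂ ℝ) :
    spectrum ℝ (Matrix.fromBlocks A₁ 0 0 A₂) = spectrum ℝ A₁ ∪ spectrum ℝ A₂ := by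
  ext μ
  rw [Set.mem_union, Matrix.mem_spectrum_iff_isRoot_charpoly,
    Matrix.mem_spectrum_iff_isRoot_charpoly, Matrix.mem_spectrum_iff_isRoot_charpoly,
    Matrix.charpoly_fromBlocks_zero₁₂, Polynomial.root_mul]

lemma tr_blocks (G : SimpleGraph (V₁ ⊕ V₂)) (A₁ : Matrix V₁ V₁ ℝ) (A₂ : Matrix V₂ V₂ ℝ)
    (t₁ : Tr (G.comap Sum.inl) A₁) (t₂ : Tr (G.comap Sum.inr) A₂)
    (hY : ∀ Y : Matrix V₁ V₂ ℝ, A₁ * Y = Y * A₂ →
      (∀ i j, G.Adj (Sum.inl i) (Sum.inr j) → Y i j = 0) → Y = 0) :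
    Tr G (Matrix.fromBlocks A₁ 0 0 A₂) := by
  intro X hs hd he hc
  obtain ⟨X₁, Y, Y', X₂, rfl⟩ : ∃ X₁ Y Y' X₂, X = Matrix.fromBlocks X₁ Y Y' X₂ :=
    ⟨_, _, _, _, (Matrix.fromBlocks_toBlocks X).symm⟩
  rw [Matrix.isSymm_fromBlocks_iff] at hs
  obtain ⟨s1, s2, s3, s4⟩ := hs
  rw [Matrix.fromBlocks_multiply, Matrix.fromBlocks_multiply, Matrix.fromBlocks_inj] at hc
  simp only [Matrix.zero_mul, Matrix.mul_zero, add_zero, zero_add] at hc
  obtain ⟨c1, c2, c3, c4⟩ := hc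
  have e1 : X₁ = 0 := t₁ X₁ s1 (fun i => by simpa using hd (Sum.inl i))
    (fun i j h => by simpa using he (Sum.inl i) (Sum.inl j) h) c1
  have e4 : X₂ = 0 := t₂ X₂ s4 (fun i => by simpa using hd (Sum.inr i))
    (fun i j h => by simpa using he (Sum.inr i) (Sum.inr j) h) c4
  have e2 : Y = 0 := hY Y c2 (fun i j h => by simpa using he (Sum.inl i) (Sum.inr j) h)
  have e3 : Y' = 0 := by rw [← s2, e2, Matrix.transpose_zero]
  rw [e1, e2, e3, e4, Matrix.fromBlocks_zero]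

theorem glue (G : SimpleGraph (V₁ ⊕ V₂)) (A₁ : Matrix V₁ V₁ ℝ) (A₂ : Matrix V₂ V₂ ℝ)
    (s₁ : A₁.IsSymm) (s₂ : A₂.IsSymm)
    (p₁ : Pat (G.comap Sum.inl) A₁) (p₂ : Pat (G.comap Sum.inr) A₂)
    (t₁ : Tr (G.comap Sum.inl) A₁) (t₂ : Tr (G.comap Sum.inr) A₂)
    (hY : ∀ Y : Matrix V₁ V₂ ℝ, A₁ * Y = Y * A₂ →
      (∀ i j, G.Adj (Sum.inl i) (Sum.inr j) → Y i j = 0) → Y = 0)
    (hYe : ∀ a b, G.Adj (Sum.inl a) (Sum.inr b) → ∀ Y : Matrix V₁ V₂ ℝ, A₁ * Y = Y * A₂ →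
      (∀ i j, G.Adj (Sum.inl i) (Sum.inr j) → ¬ (i = a ∧ j = b) → Y i j = 0) → Y = 0) :
    ∃ M : Matrix (V₁ ⊕ V₂) (V₁ ⊕ V₂) ℝ, M.IsSymm ∧ Pat G M ∧ Tr G M ∧
      spectrum ℝ M = spectrum ℝ A₁ ∪ spectrum ℝ A₂ := by
  rw [← spectrum_blocks]
  have key : ∀ a b, G.Adj (Sum.inl a) (Sum.inr b) →
      Tr (G.deleteEdges {s(Sum.inl a, Sum.inr b)}) (Matrix.fromBlocks A₁ 0 0 A₂) := by
    intro a b hab
    apply tr_blocks
    · convert t₁ using 1
      ext i j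
      simp [SimpleGraph.deleteEdges_adj]
    · convert t₂ using 1
      ext i j
      simp [SimpleGraph.deleteEdges_adj]
    · intro Y h1 h2
      refine hYe a b hab Y h1 fun i j hij hne => h2 i j ?_
      rw [SimpleGraph.deleteEdges_adj]
      refine ⟨hij, ?_⟩
      simp only [Set.mem_singleton_iff, Sym2.eq_iff]
      rintro (⟨h3, h4⟩ | ⟨h3, h4⟩)
      · exact hne ⟨Sum.inl_injective h3, Sum.inr_injective h4⟩
      · cases h3
  apply turn_on G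
  · exact Matrix.IsSymm.fromBlocks s₁ (by simp) s₂
  · rintro (i | i) (j | j) hij hadj
    · simp only [Matrix.fromBlocks_apply₁₁]
      by_contra h
      exact hadj ((p₁ i j (fun h => hij (by rw [h]))).1 h)
    · simp
    · simp
    · simp only [Matrix.fromBlocks_apply₂₂]
      by_contra h
      exact hadj ((p₂ i j (fun h => hij (by rw [h]))).1 h)
  · exact tr_blocks G A₁ A₂ t₁ t₂ hY
  · rintro (a | a) (b | b) hab h0
    · exact absurd h0 ((p₁ a b (by rintro rfl; exact hab.ne rfl)).2 hab)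
    · exact key a b hab
    · have := key b a hab.symm
      rw [Sym2.eq_swap]
      exact this
    · exact absurd h0 ((p₂ a b (by rintro rfl; exact hab.ne rfl)).2 hab)

end Pool.Agent.helper58.NG
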