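import Pool.Agent.helper58.NGRules

set_option autoImplicit false

namespace Pool.Agent.helper58.NG

open Matrix Filter Topology

section house
variable {n : Type} [Fintype n] [DecidableEq n]

/-- Householder reflection -/
noncomputable def hh (v : n → ℝ) : Matrix n n ℝ := 1 - (2 / (v ⬝ᵥ v)) • vecMulVec v v

lemma vmv_mul_vmv (a b c d : n → ℝ) :
    vecMulVec a b * vecMulVec c d = (b ⬝ᵥ c) • vecMulVec a d := by
  ext i j
  simp only [Matrix.mul_apply, vecMulVec_apply, Matrix.smul_apply, smul_eq_mul, dotProduct,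
    Finset.sum_mul]
  refine Finset.sum_congr rfl fun k _ => by ring

lemma hh_sq (v : n → ℝ) (hv : v ⬝ᵥ v ≠ 0) : hh v * hh v = 1 := by
  unfold hh
  simp only [mul_sub, sub_mul, mul_one, one_mul, Matrix.mul_smul, Matrix.smul_mul, vmv_mul_vmv,
    smul_smul]
  have : 2 / (v ⬝ᵥ v) * (2 / (v ⬝ᵥ v) * (v ⬝ᵥ v)) = 2 * (2 / (v ⬝ᵥ v)) := by
    field_simp
  rw [this]
  ext i j
  simp only [Matrix.sub_apply, Matrix.smul_apply, smul_eq_mul]
  ring

lemma hh_symm (v : n → ℝ) : (hh v).IsSymm := by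
  unfold hh Matrix.IsSymm
  rw [Matrix.transpose_sub, Matrix.transpose_one, Matrix.transpose_smul,
    Matrix.transpose_vecMulVec]

lemma hh_conj_apply (v : n → ℝ) (N : Matrix n n ℝ) (hN : N.IsSymm) (i j : n) :
    (hh v * N * hh v) i j = N i j - (2 / (v ⬝ᵥ v)) * (v i * (N *ᵥ v) j + (N *ᵥ v) i * v j)
      + (2 / (v ⬝ᵥ v)) ^ 2 * (v ⬝ᵥ (N *ᵥ v)) * (v i * v j) := by
  have h1 : ∀ j, (v ᵥ* N) j = (N *ᵥ v) j := by
    intro j
    rw [← Matrix.mulVec_transpose, hN.eq]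
  unfold hh
  simp only [mul_sub, sub_mul, mul_one, one_mul, Matrix.mul_smul, Matrix.smul_mul,
    Matrix.mul_vecMulVec, Matrix.vecMulVec_mul]
  simp only [Matrix.sub_apply, Matrix.smul_apply, smul_eq_mul, vecMulVec_apply,
    Matrix.smul_mulVec, Matrix.vecMulVec_mulVec, Pi.smul_apply, MulOpposite.smul_eq_mul_unop,
    MulOpposite.unop_op]
  have h2 : (v ᵥ* N) ⬝ᵥ v = v ⬝ᵥ (N *ᵥ v) := by
    rw [Matrix.dotProduct_mulVec]
  rw [h2, h1 j]
  ring

lemma hh_spectrum (v : n → ℝ) (hv : v ⬝ᵥ v ≠ 0) (N : Matrix n n ℝ) :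
    spectrum ℝ (hh v * N * hh v) = spectrum ℝ N := by
  let u : (Matrix n n ℝ)ˣ := ⟨hh v, hh v, hh_sq v hv, hh_sq v hv⟩
  exact spectrum.units_conjugate (u := u) (a := N)

end house

section param
variable {W : Type} [Fintype W] [DecidableEq W]

/-- denominators -/
noncomputable def pD (p : ℝ × (W → ℝ) × Matrix W W ℝ) : ℝ := 1 + p.1 ^ 2 * (p.2.1 ⬝ᵥ p.2.1)

noncomputable def pq (p : ℝ × (W → ℝ) × Matrix W W ℝ) : ℝ := p.2.1 ⬝ᵥ (p.2.2 *ᵥ p.2.1)

noncomputable def pC (p : ℝ × (W → ℝ) × Matrix W W ℝ) : Matrix W W ℝ := Matrix.of fun i j =>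
  p.2.2 i j - (2 * p.1 ^ 2 / pD p) * (p.2.1 i * (p.2.2 *ᵥ p.2.1) j + (p.2.2 *ᵥ p.2.1) i * p.2.1 j)
    + (4 * (p.1 ^ 4 * pq p + p.1) / (pD p) ^ 2) * (p.2.1 i * p.2.1 j)

noncomputable def pb (p : ℝ × (W → ℝ) × Matrix W W ℝ) : W → ℝ := fun i =>
  -(2 / pD p) * (p.2.1 i + p.1 * (p.2.2 *ᵥ p.2.1) i)
    + (4 * (p.1 ^ 3 * pq p + 1) / (pD p) ^ 2) * p.2.1 i

noncomputable def pk (p : ℝ × (W → ℝ) × Matrix W W ℝ) : ℝ :=
  1 - 4 / pD p + (4 * (p.1 ^ 3 * pq p + 1) / (pD p) ^ 2)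

lemma pD_pos (p : ℝ × (W → ℝ) × Matrix W W ℝ) : 0 < pD p := by
  unfold pD
  have : 0 ≤ p.2.1 ⬝ᵥ p.2.1 := by
    rw [dotProduct]
    exact Finset.sum_nonneg fun i _ => mul_self_nonneg _
  positivity

/-- bordered matrix -/
noncomputable def bord (C : Matrix W W ℝ) (b : W → ℝ) (c : ℝ) : Matrix (W ⊕ Unit) (W ⊕ Unit) ℝ :=
  Matrix.fromBlocks C (Matrix.of fun i _ => b i) (Matrix.of fun _ j => b j) (Matrix.of fun _ _ => c)

lemma bord_eq (e : ℝ) (he : e ≠ 0) (k : W → ℝ) (M : Matrix W W ℝ) (hM : M.IsSymm) :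
    bord (pC (e, k, M)) (pb (e, k, M)) (pk (e, k, M) / e) =
      hh (Sum.elim (fun i => e * k i) (fun _ => 1)) *
        Matrix.fromBlocks M 0 0 (Matrix.diagonal fun _ : Unit => e⁻¹) *
        hh (Sum.elim (fun i => e * k i) (fun _ => 1)) := by
  set v : W ⊕ Unit → ℝ := Sum.elim (fun i => e * k i) (fun _ => 1) with hv
  set N : Matrix (W ⊕ Unit) (W ⊕ Unit) ℝ :=
    Matrix.fromBlocks M 0 0 (Matrix.diagonal fun _ : Unit => e⁻¹) with hN
  have hNs : N.IsSymm := Matrix.IsSymm.fromBlocks hM (by simp) (Matrix.isSymm_diagonal _)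
  have hD : v ⬝ᵥ v = pD (e, k, M) := by
    simp only [hv, dotProduct, Fintype.sum_sum_type, Sum.elim_inl, Sum.elim_inr, pD,
      Finset.univ_unique, Finset.sum_singleton, Finset.mul_sum]
    rw [add_comm]
    congr 1
    · norm_num
    · exact Finset.sum_congr rfl fun i _ => by ring
  have hNv1 : ∀ i, (N *ᵥ v) (Sum.inl i) = e * (M *ᵥ k) i := by
    intro i
    simp only [hN, hv, Matrix.mulVec, dotProduct, Fintype.sum_sum_type, Matrix.fromBlocks_apply₁₁,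
      Matrix.fromBlocks_apply₁₂, Sum.elim_inl, Sum.elim_inr, Matrix.zero_apply, zero_mul,
      Finset.sum_const_zero, add_zero, Finset.mul_sum]
    exact Finset.sum_congr rfl fun i _ => by ring
  have hNv2 : (N *ᵥ v) (Sum.inr ()) = e⁻¹ := by
    simp [hN, hv, Matrix.mulVec, dotProduct, Fintype.sum_sum_type]
  have hq : v ⬝ᵥ (N *ᵥ v) = e ^ 2 * pq (e, k, M) + e⁻¹ := by
    rw [dotProduct, Fintype.sum_sum_type]
    simp only [hNv1, Finset.univ_unique, Finset.sum_singleton, PUnit.default_eq_unit, hNv2]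
    simp only [hv, Sum.elim_inl, Sum.elim_inr, one_mul, pq, dotProduct, Finset.mul_sum]
    congr 1
    exact Finset.sum_congr rfl fun i _ => by ring
  have hDne : pD (e, k, M) ≠ 0 := (pD_pos _).ne'
  ext (i | i) (j | j)
  · rw [hh_conj_apply v N hNs, hD, hq, hNv1, hNv1]
    simp only [bord, Matrix.fromBlocks_apply₁₁, pC, Matrix.of_apply, hN, hv, Sum.elim_inl]
    field_simp
    ring
  · rw [hh_conj_apply v N hNs, hD, hq, hNv1, hNv2]
    simp only [bord, Matrix.fromBlocks_apply₁₂, pb, Matrix.of_apply, hN, hv, Sum.elim_inl,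
      Sum.elim_inr, Matrix.zero_apply]
    field_simp
    ring
  · rw [hh_conj_apply v N hNs, hD, hq, hNv1, hNv2]
    simp only [bord, Matrix.fromBlocks_apply₂₁, pb, Matrix.of_apply, hN, hv, Sum.elim_inl,
      Sum.elim_inr, Matrix.zero_apply]
    field_simp
    ring
  · rw [hh_conj_apply v N hNs, hD, hq, hNv2]
    simp only [bord, Matrix.fromBlocks_apply₂₂, pk, Matrix.of_apply, hN, hv,
      Sum.elim_inr, Matrix.diagonal_apply_eq]
    field_simp
    ring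

end param

end Pool.Agent.helper58.NG
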