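import Pool.Agent.helper58.NGDefs

set_option autoImplicit false

namespace Pool.Agent.helper58.NG

open Matrix Filter Topology
open scoped Matrix.Norms.Operator

variable {V : Type} [Fintype V] [DecidableEq V]

/-- Turning on edges, isospectrally. -/
theorem turn_on (G : SimpleGraph V) (B : Matrix V V ℝ) (hB : B.IsSymm) (hC : CPat G B)
    (hT : Tr G B)
    (hE : ∀ a b, G.Adj a b → B a b = 0 → Tr (G.deleteEdges {s(a, b)}) B) :
    ∃ M : Matrix V V ℝ, M.IsSymm ∧ Pat G M ∧ Tr G M ∧ spectrum ℝ M = spectrum ℝ B := by
  classical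
  obtain ⟨k, hk⟩ : ∃ k, (Finset.univ.filter
    (fun p : V × V => G.Adj p.1 p.2 ∧ B p.1 p.2 = 0)).card = k := ⟨_, rfl⟩
  induction k using Nat.strong_induction_on generalizing B with
  | _ k ih =>
    by_cases hex : ∃ a b, G.Adj a b ∧ B a b = 0
    · obtain ⟨a, b, hab, h0⟩ := hex
      have hne : a ≠ b := hab.ne
      have ev1 : ∀ᶠ M in 𝓝 B, Tr G M := (isOpen_tr G).mem_nhds hT
      have ev2 : ∀ᶠ M in 𝓝 B, ∀ p : V × V, G.Adj p.1 p.2 → B p.1 p.2 = 0 →
          Tr (G.deleteEdges {s(p.1, p.2)}) M := by
        rw [Filter.eventually_all]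
        intro p
        by_cases h1 : G.Adj p.1 p.2 ∧ B p.1 p.2 = 0
        · filter_upwards [(isOpen_tr (G.deleteEdges {s(p.1, p.2)})).mem_nhds
            (hE p.1 p.2 h1.1 h1.2)] with M hM _ _ using hM
        · filter_upwards with M h2 h3
          exact absurd ⟨h2, h3⟩ h1
      have ev3 : ∀ᶠ M in 𝓝 B, ∀ p : V × V, B p.1 p.2 ≠ 0 → M p.1 p.2 ≠ 0 := by
        rw [Filter.eventually_all]
        intro p
        by_cases h1 : B p.1 p.2 = 0
        · filter_upwards with M h2
          exact absurd h1 h2
        · have hc : Continuous (fun M : Matrix V V ℝ => M p.1 p.2) := by fun_prop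
          have := hc.continuousAt.eventually_ne (x := B) h1
          filter_upwards [this] with M hM _ using hM
      have hU := ev1.and (ev2.and ev3)
      let Z : Matrix V V ℝ := Matrix.single a b 1 + Matrix.single b a 1
      have hZ : Z.IsSymm := by
        unfold Matrix.IsSymm
        simp only [Z, Matrix.transpose_add, Matrix.transpose_single]
        rw [add_comm]
      have key := exists_conj (G.deleteEdges {s(a, b)}) B hB (hE a b hab h0) _ hU Z hZ
      have key2 : ∀ᶠ t in 𝓝[≠] (0:ℝ), _ := (key.filter_mono nhdsWithin_le_nhds)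
      obtain ⟨t, ⟨M, ⟨hM1, hM2, hM3⟩, hMs, hMsp, hMe⟩, ht⟩ :=
        (key2.and self_mem_nhdsWithin).exists
      have ht0 : t ≠ 0 := ht
      have hMC : CPat G M := by
        intro i j hij hadj
        have h1 : ¬ (G.deleteEdges {s(a, b)}).Adj i j := by
          intro h; exact hadj ((SimpleGraph.deleteEdges_adj.1 h).1)
        rw [hMe i j hij h1, hC i j hij hadj]
        have h2 : ¬ (a = i ∧ b = j) := by rintro ⟨rfl, rfl⟩; exact hadj hab
        have h3 : ¬ (b = i ∧ a = j) := by rintro ⟨rfl, rfl⟩; exact hadj hab.symm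
        simp [Z, Matrix.single, h2, h3]
      have hMab : M a b ≠ 0 := by
        have h1 : ¬ (G.deleteEdges {s(a, b)}).Adj a b := by
          intro h; exact (SimpleGraph.deleteEdges_adj.1 h).2 (Set.mem_singleton _)
        rw [hMe a b hne h1, h0]
        have h3 : ¬ (b = a ∧ a = b) := by rintro ⟨h, -⟩; exact hne h.symm
        simp [Z, Matrix.single, h3, ht0]
      have hlt : (Finset.univ.filter
          (fun p : V × V => G.Adj p.1 p.2 ∧ M p.1 p.2 = 0)).card < k := by
        rw [← hk]
        apply Finset.card_lt_card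
        refine ⟨?_, ?_⟩
        · intro p hp
          simp only [Finset.mem_filter, Finset.mem_univ, true_and] at hp ⊢
          refine ⟨hp.1, ?_⟩
          by_contra h
          exact hM3 p h hp.2
        · intro hsub
          have : (a, b) ∈ (Finset.univ.filter
            (fun p : V × V => G.Adj p.1 p.2 ∧ B p.1 p.2 = 0)) := by
            simp [hab, h0]
          have := hsub this
          simp only [Finset.mem_filter, Finset.mem_univ, true_and] at this
          exact hMab this.2
      obtain ⟨M', h1, h2, h3, h4⟩ := ih _ hlt M hMs hMC hM1 (by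
        intro i j hij hM0
        refine hM2 (i, j) hij ?_
        by_contra h
        exact hM3 (i, j) h hM0) rfl
      exact ⟨M', h1, h2, h3, h4.trans hMsp⟩
    · push Not at hex
      refine ⟨B, hB, ?_, hT, rfl⟩
      intro i j hij
      constructor
      · intro h
        by_contra h2
        exact h (hC i j hij h2)
      · intro h; exact hex i j h

end Pool.Agent.helper58.NG
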