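import Pool.Agent.helper58.NGCount

set_option autoImplicit false

namespace Pool.Agent.helper58.NG

open Matrix Filter Topology

section basics
variable {V : Type} [Fintype V] [DecidableEq V]

lemma nEig_le_of_poly (A : Matrix V V ℝ) (p : Polynomial ℝ) (hp : p ≠ 0)
    (h : Polynomial.aeval A p = 0) : nEig A ≤ p.natDegree := by
  classical
  unfold nEig
  have hsub : spectrum ℝ A ⊆ (p.roots.toFinset : Set ℝ) := by
    intro l hl
    rcases isEmpty_or_nonempty V with hV | hV
    · exfalso
      rw [mem_spec_iff] at hl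
      obtain ⟨x, hx, -⟩ := hl
      exact hx (Subsingleton.elim _ _)
    · have h1 := spectrum.subset_polynomial_aeval A p ⟨l, hl, rfl⟩
      rw [h, spectrum.zero_eq] at h1
      simp only [Finset.mem_coe, Multiset.mem_toFinset]
      rw [Polynomial.mem_roots hp]
      exact h1
  calc (spectrum ℝ A).ncard ≤ (p.roots.toFinset : Set ℝ).ncard :=
        Set.ncard_le_ncard hsub (Finset.finite_toSet _)
    _ = p.roots.toFinset.card := Set.ncard_coe_finset _
    _ ≤ Multiset.card p.roots := Multiset.toFinset_card_le _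
    _ ≤ p.natDegree := Polynomial.card_roots' p

lemma nEig_le_card (A : Matrix V V ℝ) : nEig A ≤ Fintype.card V := by
  have := nEig_le_of_poly A A.charpoly A.charpoly_monic.ne_zero (Matrix.aeval_self_charpoly A)
  rwa [Matrix.charpoly_natDegree_eq_dim] at this

lemma nEig_congr {W : Type} [Fintype W] [DecidableEq W] {A : Matrix V V ℝ} {B : Matrix W W ℝ}
    (h : spectrum ℝ A = spectrum ℝ B) : nEig A = nEig B := by
  unfold nEig; rw [h]

lemma Sav.mono_c {G : SimpleGraph V} {c d : ℕ} (h : Sav G c) (hd : d ≤ c) : Sav G d := by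
  obtain ⟨A, h1, h2, h3, h4⟩ := h
  exact ⟨A, h1, h2, h3, by omega⟩

/-- T1 -/
lemma Sav.mono {G G' : SimpleGraph V} {c : ℕ} (h : Sav G c) (hG : G ≤ G') : Sav G' c := by
  obtain ⟨A, h1, h2, h3, h4⟩ := h
  have tr : ∀ G'' : SimpleGraph V, G ≤ G'' → Tr G'' A := by
    intro G'' hG'' X a b c d
    exact h3 X a b (fun i j h => c i j (hG'' h)) d
  obtain ⟨M, m1, m2, m3, m4⟩ := turn_on G' A h1
    (fun i j hij hadj => by
      by_contra h
      exact hadj (hG ((h2 i j hij).1 h)))
    (tr G' hG)
    (fun a b hab h0 => by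
      apply tr
      intro i j hij
      rw [SimpleGraph.deleteEdges_adj]
      refine ⟨hG hij, ?_⟩
      simp only [Set.mem_singleton_iff, Sym2.eq_iff]
      rintro (⟨rfl, rfl⟩ | ⟨rfl, rfl⟩)
      · exact (h2 i j hij.ne).2 hij h0
      · have := h1.apply j i
        exact (h2 i j hij.ne).2 hij (by rw [this]; exact h0))
  exact ⟨M, m1, m2, m3, by rw [nEig_congr m4]; exact h4⟩

lemma Sav.equiv {W : Type} [Fintype W] [DecidableEq W] (e : V ≃ W) (G : SimpleGraph W) {c : ℕ}
    (h : Sav (G.comap e) c) : Sav G c := by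
  obtain ⟨A, h1, h2, h3, h4⟩ := h
  have hsp : spectrum ℝ (A.submatrix e.symm e.symm) = spectrum ℝ A := by
    have := AlgEquiv.spectrum_eq (Matrix.reindexAlgEquiv ℝ ℝ e) A
    rw [← this]
    rfl
  refine ⟨A.submatrix e.symm e.symm, ?_, ?_, ?_, ?_⟩
  · unfold Matrix.IsSymm
    rw [Matrix.transpose_submatrix, h1.eq]
  · intro i j hij
    have := h2 (e.symm i) (e.symm j) (fun h => hij (e.symm.injective h))
    simpa using this
  · intro X x1 x2 x3 x4
    have hX : X.submatrix e e = 0 := by
      apply h3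
      · unfold Matrix.IsSymm
        rw [Matrix.transpose_submatrix, x1.eq]
      · intro i; exact x2 _
      · intro i j hij; exact x3 _ _ hij
      · have h5 : A = (A.submatrix e.symm e.symm).submatrix e e := by
          simp
        rw [h5, Matrix.submatrix_mul_equiv, Matrix.submatrix_mul_equiv, x4]
    have : X = (X.submatrix e e).submatrix e.symm e.symm := by simp
    rw [this, hX]
    rfl
  · rw [nEig_congr hsp, ← Fintype.card_congr e]
    exact h4

lemma sav_bot : Sav (⊥ : SimpleGraph V) 0 := by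
  classical
  let e := Fintype.equivFin V
  refine ⟨Matrix.diagonal (fun i => ((e i : ℕ) : ℝ)), Matrix.isSymm_diagonal _, ?_, ?_, ?_⟩
  · intro i j hij
    simp [Matrix.diagonal_apply_ne _ hij]
  · intro X x1 x2 x3 x4
    ext i j
    by_cases hij : i = j
    · rw [hij]; exact x2 j
    · have := congrFun (congrFun x4 i) j
      rw [Matrix.diagonal_mul, Matrix.mul_diagonal] at this
      have h2 : (((e i : ℕ) : ℝ) - ((e j : ℕ) : ℝ)) * X i j = 0 := by linarith
      rcases mul_eq_zero.1 h2 with h | h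
      · exfalso
        apply hij
        have : ((e i : ℕ) : ℝ) = ((e j : ℕ) : ℝ) := by linarith
        exact e.injective (Fin.ext (by exact_mod_cast this))
      · exact h
  · simpa using nEig_le_card _

lemma sav_zero (G : SimpleGraph V) : Sav G 0 := sav_bot.mono bot_le

end basics

section union
variable {V₁ V₂ : Type} [Fintype V₁] [DecidableEq V₁] [Fintype V₂] [DecidableEq V₂]

lemma sylvester (A₁ : Matrix V₁ V₁ ℝ) (A₂ : Matrix V₂ V₂ ℝ) (s₂ : A₂.IsSymm)
    (hd : Disjoint (spectrum ℝ A₁) (spectrum ℝ A₂)) (Y : Matrix V₁ V₂ ℝ)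
    (h : A₁ * Y = Y * A₂) : Y = 0 := by
  have hH : A₂.IsHermitian := by
    unfold Matrix.IsHermitian
    rw [Matrix.conjTranspose_eq_transpose_of_trivial]
    exact s₂
  have hz : ∀ i, Y *ᵥ (hH.eigenvectorBasis i).ofLp = 0 := by
    intro i
    by_contra hne
    have h1 := hH.mulVec_eigenvectorBasis i
    have h2 : A₁ *ᵥ (Y *ᵥ (hH.eigenvectorBasis i).ofLp) =
        hH.eigenvalues i • (Y *ᵥ (hH.eigenvectorBasis i).ofLp) := by
      rw [Matrix.mulVec_mulVec, h, ← Matrix.mulVec_mulVec, h1, Matrix.mulVec_smul]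
    have h3 : hH.eigenvalues i ∈ spectrum ℝ A₁ := (mem_spec_iff _ _).2 ⟨_, hne, h2⟩
    have h4 : hH.eigenvalues i ∈ spectrum ℝ A₂ := hH.eigenvalues_mem_spectrum_real i
    exact Set.disjoint_left.1 hd h3 h4
  ext a b
  have h5 : ∀ x : EuclideanSpace ℝ V₂, Y *ᵥ x.ofLp = 0 := by
    intro x
    rw [← hH.eigenvectorBasis.sum_repr x]
    simp only [WithLp.ofLp_sum, WithLp.ofLp_smul, Matrix.mulVec_sum, Matrix.mulVec_smul, hz,
      smul_zero, Finset.sum_const_zero]
  have h6 := congrFun (h5 (WithLp.toLp 2 (Pi.single b 1))) a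
  simpa using h6

lemma exists_shift (S T : Set ℝ) (hS : S.Finite) (hT : T.Finite) :
    ∃ r : ℝ, Disjoint S ((fun x => r + x) '' T) := by
  have hfin : (Set.image2 (fun a b => a - b) S T).Finite := hS.image2 _ hT
  obtain ⟨r, hr⟩ := hfin.exists_notMem
  refine ⟨r, Set.disjoint_left.2 ?_⟩
  rintro x hx ⟨y, hy, rfl⟩
  exact hr ⟨r + y, hx, y, hy, by ring⟩

lemma spectrum_shift (A : Matrix V₁ V₁ ℝ) (r : ℝ) :
    spectrum ℝ (algebraMap ℝ _ r + A) = (fun x => r + x) '' spectrum ℝ A := by
  have := spectrum.singleton_add_eq A r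
  rw [← this]
  ext x
  simp [Set.mem_add]

lemma Sav.union_sum {G : SimpleGraph (V₁ ⊕ V₂)} {c₁ c₂ : ℕ} (h₁ : Sav (G.comap Sum.inl) c₁)
    (h₂ : Sav (G.comap Sum.inr) c₂) : Sav G (c₁ + c₂) := by
  obtain ⟨A₁, a1, a2, a3, a4⟩ := h₁
  obtain ⟨A₂, b1, b2, b3, b4⟩ := h₂
  obtain ⟨r, hr⟩ := exists_shift _ _ A₁.finite_real_spectrum A₂.finite_real_spectrum
  have hsp := spectrum_shift A₂ r
  set B : Matrix V₂ V₂ ℝ := algebraMap ℝ _ r + A₂ with hB
  have hBoff : ∀ i j, i ≠ j → B i j = A₂ i j := by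
    intro i j hij
    simp [hB, Matrix.algebraMap_matrix_apply, hij]
  have hBs : B.IsSymm := by
    have : (algebraMap ℝ (Matrix V₂ V₂ ℝ) r).IsSymm := by
      rw [Matrix.algebraMap_eq_diagonal]
      exact Matrix.isSymm_diagonal _
    exact this.add b1
  have hBp : Pat (G.comap Sum.inr) B := by
    intro i j hij
    rw [hBoff i j hij]
    exact b2 i j hij
  have hcomm : ∀ X : Matrix V₂ V₂ ℝ, (algebraMap ℝ (Matrix V₂ V₂ ℝ) r) * X =
      X * (algebraMap ℝ (Matrix V₂ V₂ ℝ) r) := fun X => Algebra.commutes r X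
  have hBt : Tr (G.comap Sum.inr) B := by
    intro X x1 x2 x3 x4
    refine b3 X x1 x2 x3 ?_
    rw [hB, Matrix.add_mul, Matrix.mul_add, hcomm X] at x4
    exact add_left_cancel x4
  rw [← hsp] at hr
  obtain ⟨M, m1, m2, m3, m4⟩ := glue G A₁ B a1 hBs a2 hBp a3 hBt
    (fun Y hY _ => sylvester A₁ B hBs hr Y hY)
    (fun a b _ Y hY _ => sylvester A₁ B hBs hr Y hY)
  refine ⟨M, m1, m2, m3, ?_⟩
  have h5 : nEig M ≤ nEig A₁ + nEig A₂ := by
    unfold nEig
    rw [m4, hsp]
    refine (Set.ncard_union_le _ _).trans ?_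
    exact Nat.add_le_add_left (Set.ncard_image_le A₂.finite_real_spectrum) _
  rw [Fintype.card_sum]
  omega

end union

section part
variable {V : Type} [Fintype V] [DecidableEq V]

/-- T2 -/
theorem Sav.union {G : SimpleGraph V} (p : V → Prop) [DecidablePred p] {c₁ c₂ : ℕ}
    (h₁ : Sav (G.comap (Subtype.val : {x // p x} → V)) c₁)
    (h₂ : Sav (G.comap (Subtype.val : {x // ¬ p x} → V)) c₂) : Sav G (c₁ + c₂) :=
  Sav.equiv (Equiv.sumCompl p) G (Sav.union_sum h₁ h₂)

/-- embedding of a small graph -/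
theorem Sav.embed {W : Type} [Fintype W] [DecidableEq W] {H : SimpleGraph W} {G : SimpleGraph V}
    {c : ℕ} (h : Sav H c) (f : W → V) (hf : Function.Injective f)
    (hadj : ∀ i j, H.Adj i j → G.Adj (f i) (f j)) : Sav G c := by
  classical
  have h1 : Sav (G.comap f) c := h.mono (fun i j hij => hadj i j hij)
  have h2 : Sav (G.comap (Subtype.val : {x // ∃ y, f y = x} → V)) c := by
    let e : W ≃ {x // ∃ y, f y = x} := Equiv.ofInjective f hf
    apply Sav.equiv e
    exact h1
  have := Sav.union (G := G) (fun x => ∃ y, f y = x) h2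
    (sav_zero (G.comap (Subtype.val : {x // ¬ ∃ y, f y = x} → V)))
  simpa using this

/-- vertex deletion -/
def del (G : SimpleGraph V) (v : V) : SimpleGraph {x : V // x ≠ v} := G.comap Subtype.val

lemma Sav.of_del {G : SimpleGraph V} {v : V} {c : ℕ} (h : Sav (del G v) c) : Sav G c :=
  h.embed Subtype.val Subtype.val_injective (fun _ _ h => h)

lemma card_del (v : V) : Fintype.card {x : V // x ≠ v} + 1 = Fintype.card V := by
  rw [Fintype.card_subtype_compl, Fintype.card_subtype_eq]
  have : 0 < Fintype.card V := Fintype.card_pos_iff.2 ⟨v⟩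
  omega

/-- T3: free vertex addition. -/
theorem Sav.free {G : SimpleGraph V} (v : V) {c : ℕ} (h : Sav (del G v) c)
    (S : Finset V) (hS : ∀ w ∈ S, G.Adj v w ∧ ∃ u, G.Adj v u ∧ G.Adj w u)
    (hc : c + 1 ≤ S.card) : Sav G (c + 1) := by
  classical
  obtain ⟨A, a1, a2, a3, a4⟩ := h
  by_cases hgood : ∃ l ∈ spectrum ℝ A, ∀ w : {x : V // x ≠ v}, G.Adj v w → ∀ x, A *ᵥ x = l • x →
      (∀ i : {x : V // x ≠ v}, G.Adj v i → i ≠ w → x i = 0) → x = 0
  · obtain ⟨l, hl, hg⟩ := hgood
    let V₂ := {x : V // ¬ x ≠ v}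
    have huniq : ∀ a b : V₂, a = b := by
      rintro ⟨a, ha⟩ ⟨b, hb⟩
      apply Subtype.ext
      rw [not_not] at ha hb
      show a = b
      rw [ha, hb]
    let D : Matrix V₂ V₂ ℝ := Matrix.diagonal (fun _ => l)
    have hDsp : spectrum ℝ D ⊆ spectrum ℝ A := by
      intro m hm
      rw [mem_spec_iff] at hm
      obtain ⟨x, hx, hx2⟩ := hm
      obtain ⟨i, hi⟩ := Function.ne_iff.1 hx
      have := congrFun hx2 i
      simp only [D, Matrix.mulVec_diagonal, Pi.smul_apply, smul_eq_mul] at this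
      have : l = m := mul_right_cancel₀ hi this
      rw [← this]; exact hl
    -- a non-lonely neighbour
    have hSne : S.Nonempty := Finset.card_pos.1 (by omega)
    obtain ⟨w0, hw0⟩ := hSne
    have hw0' := (hS w0 hw0).1
    have vmem : ¬ v ≠ v := fun h => h rfl
    have hcol : ∀ Y : Matrix {x : V // x ≠ v} V₂ ℝ, A * Y = Y * D →
        A *ᵥ (fun i => Y i ⟨v, vmem⟩) = l • (fun i => Y i ⟨v, vmem⟩) := by
      intro Y hY
      ext i
      have := congrFun (congrFun hY i) ⟨v, vmem⟩
      rw [Matrix.mul_diagonal] at this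
      simp only [Matrix.mulVec, dotProduct, Pi.smul_apply, smul_eq_mul]
      rw [Matrix.mul_apply] at this
      rw [this, mul_comm]
    have hz : ∀ Y : Matrix {x : V // x ≠ v} V₂ ℝ, (fun i => Y i ⟨v, vmem⟩) = 0 → Y = 0 := by
      intro Y hY
      ext i j
      rw [huniq j ⟨v, vmem⟩]
      exact congrFun hY i
    let e := Equiv.sumCompl (fun x => x ≠ v)
    have hGadj : ∀ (i : {x : V // x ≠ v}) (j : V₂),
        (G.comap e).Adj (Sum.inl i) (Sum.inr j) ↔ G.Adj v i := by
      intro i j
      rw [huniq j ⟨v, vmem⟩]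
      simp only [SimpleGraph.comap_adj, e, Equiv.sumCompl_apply_inl, Equiv.sumCompl_apply_inr]
      exact G.adj_comm _ _
    obtain ⟨M, m1, m2, m3, m4⟩ := glue (G.comap e) A D a1 (Matrix.isSymm_diagonal _)
      (by
        intro i j hij
        exact a2 i j hij)
      (by
        intro i j hij
        exact absurd (huniq i j) hij)
      (by
        intro X x1 x2 x3 x4
        exact a3 X x1 x2 x3 x4)
      (by
        intro X _ x2 _ _
        ext i j
        rw [huniq i j]; exact x2 j)
      (by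
        intro Y hY hY0
        apply hz
        refine hg ⟨w0, hw0'.ne.symm⟩ hw0' _ (hcol Y hY) ?_
        intro i hi _
        exact hY0 i ⟨v, vmem⟩ ((hGadj _ _).2 hi))
      (by
        intro a b hab Y hY hY0
        apply hz
        refine hg a ((hGadj _ _).1 hab) _ (hcol Y hY) ?_
        intro i hi hia
        exact hY0 i ⟨v, vmem⟩ ((hGadj _ _).2 hi) (fun h => hia h.1))
    have hM : Sav (G.comap e) (c + 1) := by
      refine ⟨M, m1, m2, m3, ?_⟩
      have : nEig M = nEig A := by
        unfold nEig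
        rw [m4, Set.union_eq_self_of_subset_right hDsp]
      rw [this, Fintype.card_congr e, ← card_del v]
      omega
    exact hM.equiv e G
  · push Not at hgood
    let N : Finset {x : V // x ≠ v} := Finset.univ.filter (fun w => G.Adj v w.1)
    let I : Finset {x : V // x ≠ v} := N.filter (fun w => ∀ w' ∈ N, ¬ (del G v).Adj w w')
    have hcount := count_bad (del G v) A a1 a2 N
      (by
        intro l hl
        obtain ⟨w, hw, x, hx, hx2, hx3⟩ := hgood l hl
        exact ⟨w, by simp [N, hw], x, hx3, hx, fun i hi hiw =>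
          hx2 i (by simpa [N] using hi) hiw⟩) I
      (by
        intro w hw hw2
        exact Finset.mem_filter.2 ⟨hw, hw2⟩)
    have hNI : S.card + I.card ≤ N.card := by
      have h1 : (N \ I).card + I.card = N.card :=
        Finset.card_sdiff_add_card_eq_card (Finset.filter_subset _ _)
      have h2 : S.card ≤ (N \ I).card := by
        have : S ⊆ (N \ I).map ⟨Subtype.val, Subtype.val_injective⟩ := by
          intro w hw
          obtain ⟨h3, u, h4, h5⟩ := hS w hw
          rw [Finset.mem_map]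
          refine ⟨⟨w, h3.ne.symm⟩, ?_, rfl⟩
          rw [Finset.mem_sdiff]
          refine ⟨by simp [N, h3], ?_⟩
          intro h6
          have h7 := (Finset.mem_filter.1 h6).2
          exact h7 ⟨u, h4.ne.symm⟩ (by simp [N, h4]) h5
        have := Finset.card_le_card this
        rwa [Finset.card_map] at this
      omega
    have hNc : N.card ≤ Fintype.card {x : V // x ≠ v} := Finset.card_le_univ _
    exact Sav.of_del (v := v) ⟨A, a1, a2, a3, by omega⟩

end part

end Pool.Agent.helper58.NG
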