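import Pool.Agent.helper58.NGContract

set_option autoImplicit false

namespace Pool.Agent.helper58.NG

open Matrix

/-- matrix entry as a plain function (helps `decide`) -/
def ent {n : ℕ} (M : Matrix (Fin n) (Fin n) ℤ) (i j : Fin n) : ℤ := M i j

/-- graph from an integer matrix pattern -/
def gr {n : ℕ} (f : Fin n → Fin n → Bool) : SimpleGraph (Fin n) where
  Adj i j := i ≠ j ∧ (f i j = true ∨ f j i = true)
  symm := ⟨fun _ _ h => ⟨h.1.symm, h.2.symm⟩⟩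
  loopless := ⟨fun _ h => h.1 rfl⟩

instance {n : ℕ} (f : Fin n → Fin n → Bool) : DecidableRel (gr f).Adj := fun i j => by
  unfold gr; infer_instance

/-- graph of nonzero off-diagonal entries -/
def mgr {n : ℕ} (M : Matrix (Fin n) (Fin n) ℤ) : SimpleGraph (Fin n) where
  Adj i j := i ≠ j ∧ (M i j ≠ 0 ∨ M j i ≠ 0)
  symm := ⟨fun _ _ h => ⟨h.1.symm, h.2.symm⟩⟩
  loopless := ⟨fun _ h => h.1 rfl⟩

instance {n : ℕ} (M : Matrix (Fin n) (Fin n) ℤ) : DecidableRel (mgr M).Adj := fun i j => by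
  unfold mgr; infer_instance

def rl {n : ℕ} (M : Matrix (Fin n) (Fin n) ℤ) : Matrix (Fin n) (Fin n) ℝ :=
  M.map (Int.castRingHom ℝ)

lemma rl_apply {n : ℕ} (M : Matrix (Fin n) (Fin n) ℤ) (i j : Fin n) : rl M i j = (M i j : ℝ) := rfl

lemma seed {n : ℕ} (M : Matrix (Fin n) (Fin n) ℤ) (hs : M.IsSymm) (p : Polynomial ℝ)
    (hp : p ≠ 0) (h0 : Polynomial.aeval (rl M) p = 0) (c : ℕ) (hc : p.natDegree + c ≤ n)
    (hT : ∀ X : Matrix (Fin n) (Fin n) ℝ, (∀ i j, X j i = X i j) → (∀ i, X i i = 0) →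
      (∀ i j, i ≠ j → M i j ≠ 0 → X i j = 0) →
      (∀ i j, ∑ k, (M i k : ℝ) * X k j = ∑ k, X i k * (M k j : ℝ)) → X = 0) :
    Sav (mgr M) c := by
  have hadj : ∀ i j, i ≠ j → ((mgr M).Adj i j ↔ M i j ≠ 0) := by
    intro i j hij
    have : M j i = M i j := hs.apply i j
    simp [mgr, hij, this]
  refine ⟨rl M, ?_, ?_, ?_, ?_⟩
  · unfold Matrix.IsSymm rl
    rw [← Matrix.transpose_map, hs.eq]
  · intro i j hij
    rw [hadj i j hij, rl_apply]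
    simp
  · intro X x1 x2 x3 x4
    apply hT X (fun i j => x1.apply i j) x2
    · intro i j hij h
      exact x3 i j ((hadj i j hij).2 h)
    · intro i j
      have := congrFun (congrFun x4 i) j
      rw [Matrix.mul_apply, Matrix.mul_apply] at this
      exact this
  · rw [Fintype.card_fin]
    have := nEig_le_of_poly (rl M) p hp h0
    omega

lemma rl_mul {n : ℕ} (M N : Matrix (Fin n) (Fin n) ℤ) : rl (M * N) = rl M * rl N := by
  unfold rl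
  rw [Matrix.map_mul]

lemma aeval_quad {n : ℕ} (M : Matrix (Fin n) (Fin n) ℤ) (u v : ℤ)
    (h : M * M = u • M + v • (1 : Matrix (Fin n) (Fin n) ℤ)) :
    Polynomial.aeval (rl M) (Polynomial.X ^ 2 - (Polynomial.C (u : ℝ) * Polynomial.X +
      Polynomial.C (v : ℝ))) = 0 := by
  have h1 : rl M * rl M = (u : ℝ) • rl M + (v : ℝ) • (1 : Matrix (Fin n) (Fin n) ℝ) := by
    rw [← rl_mul, h]
    ext i j
    simp only [rl_apply, Matrix.add_apply, Matrix.smul_apply, smul_eq_mul, Int.cast_add,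
      Int.cast_mul, Matrix.one_apply]
    split_ifs <;> simp
  simp only [map_sub, map_add, map_mul, map_pow, Polynomial.aeval_X, Polynomial.aeval_C]
  rw [pow_two, h1, Algebra.algebraMap_eq_smul_one, Algebra.algebraMap_eq_smul_one]
  simp

lemma quad_deg (u v : ℝ) : (Polynomial.X ^ 2 - (Polynomial.C u * Polynomial.X +
      Polynomial.C v)).natDegree = 2 := by
  compute_degree!

/-- K3 -/
def mK3 : Matrix (Fin 3) (Fin 3) ℤ := !![1, 1, 1; 1, 1, 1; 1, 1, 1]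

lemma sav_K3 : Sav (mgr mK3) 1 := by
  have hdeg := quad_deg (((3 : ℤ)) : ℝ) (((0 : ℤ)) : ℝ)
  refine seed mK3 (by decide) _ ?_ (aeval_quad mK3 3 0 (by decide)) 1 (by rw [hdeg]) ?_
  · intro h
    rw [h] at hdeg
    simp at hdeg
  · intro X h1 h2 h3 h4
    ext i j
    by_cases hij : i = j
    · rw [hij]; exact h2 j
    · have h5 : ∀ i j : Fin 3, i ≠ j → ent mK3 i j ≠ 0 := by decide
      exact h3 i j hij (h5 i j hij)

def mC4 : Matrix (Fin 4) (Fin 4) ℤ := !![0, 1, 0, -1; 1, 0, 1, 0; 0, 1, 0, 1; -1, 0, 1, 0]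

lemma C4_tr : ∀ X : Matrix (Fin 4) (Fin 4) ℝ, (∀ i j, X j i = X i j) → (∀ i, X i i = 0) →
      (∀ i j, i ≠ j → mC4 i j ≠ 0 → X i j = 0) →
      (∀ i j, ∑ k, (mC4 i k : ℝ) * X k j = ∑ k, X i k * (mC4 k j : ℝ)) → X = 0 := by
  intro X h1 h2 h3 h4
  have e01 : X 0 1 = 0 := h3 0 1 (by decide) (show ent mC4 0 1 ≠ 0 by decide)
  have e10 : X 1 0 = 0 := by rw [h1 0 1]; exact e01
  have e03 : X 0 3 = 0 := h3 0 3 (by decide) (show ent mC4 0 3 ≠ 0 by decide)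
  have e30 : X 3 0 = 0 := by rw [h1 0 3]; exact e03
  have e12 : X 1 2 = 0 := h3 1 2 (by decide) (show ent mC4 1 2 ≠ 0 by decide)
  have e21 : X 2 1 = 0 := by rw [h1 1 2]; exact e12
  have e23 : X 2 3 = 0 := h3 2 3 (by decide) (show ent mC4 2 3 ≠ 0 by decide)
  have e32 : X 3 2 = 0 := by rw [h1 2 3]; exact e23
  have e00 : X 0 0 = 0 := h2 0
  have e11 : X 1 1 = 0 := h2 1
  have e22 : X 2 2 = 0 := h2 2
  have e33 : X 3 3 = 0 := h2 3
  have u20 : X 2 0 = X 0 2 := h1 0 2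
  have u31 : X 3 1 = X 1 3 := h1 1 3
  have m00 : ((mC4 0 0 : ℤ) : ℝ) = 0 := by show (((0) : ℤ) : ℝ) = _; norm_num
  have m01 : ((mC4 0 1 : ℤ) : ℝ) = 1 := by show (((1) : ℤ) : ℝ) = _; norm_num
  have m02 : ((mC4 0 2 : ℤ) : ℝ) = 0 := by show (((0) : ℤ) : ℝ) = _; norm_num
  have m03 : ((mC4 0 3 : ℤ) : ℝ) = -1 := by show (((-1) : ℤ) : ℝ) = _; norm_num
  have m10 : ((mC4 1 0 : ℤ) : ℝ) = 1 := by show (((1) : ℤ) : ℝ) = _; norm_num
  have m11 : ((mC4 1 1 : ℤ) : ℝ) = 0 := by show (((0) : ℤ) : ℝ) = _; norm_num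
  have m12 : ((mC4 1 2 : ℤ) : ℝ) = 1 := by show (((1) : ℤ) : ℝ) = _; norm_num
  have m13 : ((mC4 1 3 : ℤ) : ℝ) = 0 := by show (((0) : ℤ) : ℝ) = _; norm_num
  have m20 : ((mC4 2 0 : ℤ) : ℝ) = 0 := by show (((0) : ℤ) : ℝ) = _; norm_num
  have m21 : ((mC4 2 1 : ℤ) : ℝ) = 1 := by show (((1) : ℤ) : ℝ) = _; norm_num
  have m22 : ((mC4 2 2 : ℤ) : ℝ) = 0 := by show (((0) : ℤ) : ℝ) = _; norm_num
  have m23 : ((mC4 2 3 : ℤ) : ℝ) = 1 := by show (((1) : ℤ) : ℝ) = _; norm_num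
  have m30 : ((mC4 3 0 : ℤ) : ℝ) = -1 := by show (((-1) : ℤ) : ℝ) = _; norm_num
  have m31 : ((mC4 3 1 : ℤ) : ℝ) = 0 := by show (((0) : ℤ) : ℝ) = _; norm_num
  have m32 : ((mC4 3 2 : ℤ) : ℝ) = 1 := by show (((1) : ℤ) : ℝ) = _; norm_num
  have m33 : ((mC4 3 3 : ℤ) : ℝ) = 0 := by show (((0) : ℤ) : ℝ) = _; norm_num
  have f01 := h4 0 1
  rw [Fin.sum_univ_four, Fin.sum_univ_four] at f01
  simp only [m00, m01, e01, e00, m11, e11, m02, m21, e21, m03, m31, u31, e03] at f01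
  have f03 := h4 0 3
  rw [Fin.sum_univ_four, Fin.sum_univ_four] at f03
  simp only [m00, m03, e03, e00, m01, m13, e01, m02, m23, e23, m33, e33] at f03
  have z02 : X 0 2 = 0 := by linarith
  have z20 : X 2 0 = 0 := by rw [u20]; exact z02
  have z13 : X 1 3 = 0 := by linarith
  have z31 : X 3 1 = 0 := by rw [u31]; exact z13
  ext i j
  fin_cases i <;> fin_cases j <;> assumption

def mClaw : Matrix (Fin 4) (Fin 4) ℤ := !![0, 1, 1, 1; 1, 0, 0, 0; 1, 0, 0, 0; 1, 0, 0, 0]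

lemma claw_tr : ∀ X : Matrix (Fin 4) (Fin 4) ℝ, (∀ i j, X j i = X i j) → (∀ i, X i i = 0) →
      (∀ i j, i ≠ j → mClaw i j ≠ 0 → X i j = 0) →
      (∀ i j, ∑ k, (mClaw i k : ℝ) * X k j = ∑ k, X i k * (mClaw k j : ℝ)) → X = 0 := by
  intro X h1 h2 h3 h4
  have e01 : X 0 1 = 0 := h3 0 1 (by decide) (show ent mClaw 0 1 ≠ 0 by decide)
  have e10 : X 1 0 = 0 := by rw [h1 0 1]; exact e01
  have e02 : X 0 2 = 0 := h3 0 2 (by decide) (show ent mClaw 0 2 ≠ 0 by decide)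
  have e20 : X 2 0 = 0 := by rw [h1 0 2]; exact e02
  have e03 : X 0 3 = 0 := h3 0 3 (by decide) (show ent mClaw 0 3 ≠ 0 by decide)
  have e30 : X 3 0 = 0 := by rw [h1 0 3]; exact e03
  have e00 : X 0 0 = 0 := h2 0
  have e11 : X 1 1 = 0 := h2 1
  have e22 : X 2 2 = 0 := h2 2
  have e33 : X 3 3 = 0 := h2 3
  have u21 : X 2 1 = X 1 2 := h1 1 2
  have u31 : X 3 1 = X 1 3 := h1 1 3
  have u32 : X 3 2 = X 2 3 := h1 2 3
  have m00 : ((mClaw 0 0 : ℤ) : ℝ) = 0 := by show (((0) : ℤ) : ℝ) = _; norm_num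
  have m01 : ((mClaw 0 1 : ℤ) : ℝ) = 1 := by show (((1) : ℤ) : ℝ) = _; norm_num
  have m02 : ((mClaw 0 2 : ℤ) : ℝ) = 1 := by show (((1) : ℤ) : ℝ) = _; norm_num
  have m03 : ((mClaw 0 3 : ℤ) : ℝ) = 1 := by show (((1) : ℤ) : ℝ) = _; norm_num
  have m10 : ((mClaw 1 0 : ℤ) : ℝ) = 1 := by show (((1) : ℤ) : ℝ) = _; norm_num
  have m11 : ((mClaw 1 1 : ℤ) : ℝ) = 0 := by show (((0) : ℤ) : ℝ) = _; norm_num
  have m12 : ((mClaw 1 2 : ℤ) : ℝ) = 0 := by show (((0) : ℤ) : ℝ) = _; norm_num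
  have m13 : ((mClaw 1 3 : ℤ) : ℝ) = 0 := by show (((0) : ℤ) : ℝ) = _; norm_num
  have m20 : ((mClaw 2 0 : ℤ) : ℝ) = 1 := by show (((1) : ℤ) : ℝ) = _; norm_num
  have m21 : ((mClaw 2 1 : ℤ) : ℝ) = 0 := by show (((0) : ℤ) : ℝ) = _; norm_num
  have m22 : ((mClaw 2 2 : ℤ) : ℝ) = 0 := by show (((0) : ℤ) : ℝ) = _; norm_num
  have m23 : ((mClaw 2 3 : ℤ) : ℝ) = 0 := by show (((0) : ℤ) : ℝ) = _; norm_num
  have m30 : ((mClaw 3 0 : ℤ) : ℝ) = 1 := by show (((1) : ℤ) : ℝ) = _; norm_num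
  have m31 : ((mClaw 3 1 : ℤ) : ℝ) = 0 := by show (((0) : ℤ) : ℝ) = _; norm_num
  have m32 : ((mClaw 3 2 : ℤ) : ℝ) = 0 := by show (((0) : ℤ) : ℝ) = _; norm_num
  have m33 : ((mClaw 3 3 : ℤ) : ℝ) = 0 := by show (((0) : ℤ) : ℝ) = _; norm_num
  have f01 := h4 0 1
  rw [Fin.sum_univ_four, Fin.sum_univ_four] at f01
  simp only [m00, m01, e01, e00, m11, e11, m02, m21, u21, e02, m03, m31, u31, e03] at f01
  have f02 := h4 0 2
  rw [Fin.sum_univ_four, Fin.sum_univ_four] at f02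
  simp only [m00, m02, e02, e00, m01, m12, e01, m22, e22, m03, m32, u32, e03] at f02
  have f03 := h4 0 3
  rw [Fin.sum_univ_four, Fin.sum_univ_four] at f03
  simp only [m00, m03, e03, e00, m01, m13, e01, m02, m23, e02, m33, e33] at f03
  have z12 : X 1 2 = 0 := by linarith
  have z21 : X 2 1 = 0 := by rw [u21]; exact z12
  have z13 : X 1 3 = 0 := by linarith
  have z31 : X 3 1 = 0 := by rw [u31]; exact z13
  have z23 : X 2 3 = 0 := by linarith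
  have z32 : X 3 2 = 0 := by rw [u32]; exact z23
  ext i j
  fin_cases i <;> fin_cases j <;> assumption

def mNet : Matrix (Fin 6) (Fin 6) ℤ := !![0, 0, 0, 1, 0, 0; 0, 0, 0, 0, 1, 0; 0, 0, 0, 0, 0, 1; 1, 0, 0, 0, 1, 1; 0, 1, 0, 1, 0, 1; 0, 0, 1, 1, 1, 0]

lemma net_tr : ∀ X : Matrix (Fin 6) (Fin 6) ℝ, (∀ i j, X j i = X i j) → (∀ i, X i i = 0) →
      (∀ i j, i ≠ j → mNet i j ≠ 0 → X i j = 0) →
      (∀ i j, ∑ k, (mNet i k : ℝ) * X k j = ∑ k, X i k * (mNet k j : ℝ)) → X = 0 := by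
  intro X h1 h2 h3 h4
  have e03 : X 0 3 = 0 := h3 0 3 (by decide) (show ent mNet 0 3 ≠ 0 by decide)
  have e30 : X 3 0 = 0 := by rw [h1 0 3]; exact e03
  have e14 : X 1 4 = 0 := h3 1 4 (by decide) (show ent mNet 1 4 ≠ 0 by decide)
  have e41 : X 4 1 = 0 := by rw [h1 1 4]; exact e14
  have e25 : X 2 5 = 0 := h3 2 5 (by decide) (show ent mNet 2 5 ≠ 0 by decide)
  have e52 : X 5 2 = 0 := by rw [h1 2 5]; exact e25
  have e34 : X 3 4 = 0 := h3 3 4 (by decide) (show ent mNet 3 4 ≠ 0 by decide)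
  have e43 : X 4 3 = 0 := by rw [h1 3 4]; exact e34
  have e35 : X 3 5 = 0 := h3 3 5 (by decide) (show ent mNet 3 5 ≠ 0 by decide)
  have e53 : X 5 3 = 0 := by rw [h1 3 5]; exact e35
  have e45 : X 4 5 = 0 := h3 4 5 (by decide) (show ent mNet 4 5 ≠ 0 by decide)
  have e54 : X 5 4 = 0 := by rw [h1 4 5]; exact e45
  have e00 : X 0 0 = 0 := h2 0
  have e11 : X 1 1 = 0 := h2 1
  have e22 : X 2 2 = 0 := h2 2
  have e33 : X 3 3 = 0 := h2 3
  have e44 : X 4 4 = 0 := h2 4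
  have e55 : X 5 5 = 0 := h2 5
  have u10 : X 1 0 = X 0 1 := h1 0 1
  have u20 : X 2 0 = X 0 2 := h1 0 2
  have u40 : X 4 0 = X 0 4 := h1 0 4
  have u50 : X 5 0 = X 0 5 := h1 0 5
  have u21 : X 2 1 = X 1 2 := h1 1 2
  have u31 : X 3 1 = X 1 3 := h1 1 3
  have u51 : X 5 1 = X 1 5 := h1 1 5
  have u32 : X 3 2 = X 2 3 := h1 2 3
  have u42 : X 4 2 = X 2 4 := h1 2 4
  have m00 : ((mNet 0 0 : ℤ) : ℝ) = 0 := by show (((0) : ℤ) : ℝ) = _; norm_num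
  have m01 : ((mNet 0 1 : ℤ) : ℝ) = 0 := by show (((0) : ℤ) : ℝ) = _; norm_num
  have m02 : ((mNet 0 2 : ℤ) : ℝ) = 0 := by show (((0) : ℤ) : ℝ) = _; norm_num
  have m03 : ((mNet 0 3 : ℤ) : ℝ) = 1 := by show (((1) : ℤ) : ℝ) = _; norm_num
  have m04 : ((mNet 0 4 : ℤ) : ℝ) = 0 := by show (((0) : ℤ) : ℝ) = _; norm_num
  have m05 : ((mNet 0 5 : ℤ) : ℝ) = 0 := by show (((0) : ℤ) : ℝ) = _; norm_num
  have m10 : ((mNet 1 0 : ℤ) : ℝ) = 0 := by show (((0) : ℤ) : ℝ) = _; norm_num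
  have m11 : ((mNet 1 1 : ℤ) : ℝ) = 0 := by show (((0) : ℤ) : ℝ) = _; norm_num
  have m12 : ((mNet 1 2 : ℤ) : ℝ) = 0 := by show (((0) : ℤ) : ℝ) = _; norm_num
  have m13 : ((mNet 1 3 : ℤ) : ℝ) = 0 := by show (((0) : ℤ) : ℝ) = _; norm_num
  have m14 : ((mNet 1 4 : ℤ) : ℝ) = 1 := by show (((1) : ℤ) : ℝ) = _; norm_num
  have m15 : ((mNet 1 5 : ℤ) : ℝ) = 0 := by show (((0) : ℤ) : ℝ) = _; norm_num
  have m20 : ((mNet 2 0 : ℤ) : ℝ) = 0 := by show (((0) : ℤ) : ℝ) = _; norm_num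
  have m21 : ((mNet 2 1 : ℤ) : ℝ) = 0 := by show (((0) : ℤ) : ℝ) = _; norm_num
  have m22 : ((mNet 2 2 : ℤ) : ℝ) = 0 := by show (((0) : ℤ) : ℝ) = _; norm_num
  have m23 : ((mNet 2 3 : ℤ) : ℝ) = 0 := by show (((0) : ℤ) : ℝ) = _; norm_num
  have m24 : ((mNet 2 4 : ℤ) : ℝ) = 0 := by show (((0) : ℤ) : ℝ) = _; norm_num
  have m25 : ((mNet 2 5 : ℤ) : ℝ) = 1 := by show (((1) : ℤ) : ℝ) = _; norm_num
  have m30 : ((mNet 3 0 : ℤ) : ℝ) = 1 := by show (((1) : ℤ) : ℝ) = _; norm_num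
  have m31 : ((mNet 3 1 : ℤ) : ℝ) = 0 := by show (((0) : ℤ) : ℝ) = _; norm_num
  have m32 : ((mNet 3 2 : ℤ) : ℝ) = 0 := by show (((0) : ℤ) : ℝ) = _; norm_num
  have m33 : ((mNet 3 3 : ℤ) : ℝ) = 0 := by show (((0) : ℤ) : ℝ) = _; norm_num
  have m34 : ((mNet 3 4 : ℤ) : ℝ) = 1 := by show (((1) : ℤ) : ℝ) = _; norm_num
  have m35 : ((mNet 3 5 : ℤ) : ℝ) = 1 := by show (((1) : ℤ) : ℝ) = _; norm_num
  have m40 : ((mNet 4 0 : ℤ) : ℝ) = 0 := by show (((0) : ℤ) : ℝ) = _; norm_num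
  have m41 : ((mNet 4 1 : ℤ) : ℝ) = 1 := by show (((1) : ℤ) : ℝ) = _; norm_num
  have m42 : ((mNet 4 2 : ℤ) : ℝ) = 0 := by show (((0) : ℤ) : ℝ) = _; norm_num
  have m43 : ((mNet 4 3 : ℤ) : ℝ) = 1 := by show (((1) : ℤ) : ℝ) = _; norm_num
  have m44 : ((mNet 4 4 : ℤ) : ℝ) = 0 := by show (((0) : ℤ) : ℝ) = _; norm_num
  have m45 : ((mNet 4 5 : ℤ) : ℝ) = 1 := by show (((1) : ℤ) : ℝ) = _; norm_num
  have m50 : ((mNet 5 0 : ℤ) : ℝ) = 0 := by show (((0) : ℤ) : ℝ) = _; norm_num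
  have m51 : ((mNet 5 1 : ℤ) : ℝ) = 0 := by show (((0) : ℤ) : ℝ) = _; norm_num
  have m52 : ((mNet 5 2 : ℤ) : ℝ) = 1 := by show (((1) : ℤ) : ℝ) = _; norm_num
  have m53 : ((mNet 5 3 : ℤ) : ℝ) = 1 := by show (((1) : ℤ) : ℝ) = _; norm_num
  have m54 : ((mNet 5 4 : ℤ) : ℝ) = 1 := by show (((1) : ℤ) : ℝ) = _; norm_num
  have m55 : ((mNet 5 5 : ℤ) : ℝ) = 0 := by show (((0) : ℤ) : ℝ) = _; norm_num
  have f01 := h4 0 1
  rw [Fin.sum_univ_six, Fin.sum_univ_six] at f01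
  simp only [m00, m01, e00, m11, e11, m02, m21, u21, m03, m31, u31, e03, m04, m41, e41, m05, m51, u51] at f01
  have f02 := h4 0 2
  rw [Fin.sum_univ_six, Fin.sum_univ_six] at f02
  simp only [m00, m02, e00, m01, m12, m22, e22, m03, m32, u32, e03, m04, m42, u42, m05, m52, e52] at f02
  have f03 := h4 0 3
  rw [Fin.sum_univ_six, Fin.sum_univ_six] at f03
  simp only [m00, m03, e03, e00, m01, m13, m02, m23, m33, e33, m04, m43, e43, m05, m53, e53] at f03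
  have f04 := h4 0 4
  rw [Fin.sum_univ_six, Fin.sum_univ_six] at f04
  simp only [m00, m04, e00, m01, m14, e14, m02, m24, m03, m34, e34, e03, m44, e44, m05, m54, e54] at f04
  have f05 := h4 0 5
  rw [Fin.sum_univ_six, Fin.sum_univ_six] at f05
  simp only [m00, m05, e00, m01, m15, m02, m25, e25, m03, m35, e35, e03, m04, m45, e45, m55, e55] at f05
  have f12 := h4 1 2
  rw [Fin.sum_univ_six, Fin.sum_univ_six] at f12
  simp only [m10, m02, u10, m11, m12, e11, m22, e22, m13, m32, u32, m14, m42, u42, e14, m15, m52, e52] at f12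
  have f13 := h4 1 3
  rw [Fin.sum_univ_six, Fin.sum_univ_six] at f13
  simp only [m10, m03, e03, u10, m11, m13, e11, m12, m23, m33, e33, m14, m43, e43, e14, m15, m53, e53] at f13
  have f15 := h4 1 5
  rw [Fin.sum_univ_six, Fin.sum_univ_six] at f15
  simp only [m10, m05, u10, m11, m15, e11, m12, m25, e25, m13, m35, e35, m14, m45, e45, e14, m55, e55] at f15
  have f23 := h4 2 3
  rw [Fin.sum_univ_six, Fin.sum_univ_six] at f23
  simp only [m20, m03, e03, u20, m21, m13, u21, m22, m23, e22, m33, e33, m24, m43, e43, m25, m53, e53, e25] at f23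
  have z01 : X 0 1 = 0 := by linarith
  have z10 : X 1 0 = 0 := by rw [u10]; exact z01
  have z02 : X 0 2 = 0 := by linarith
  have z20 : X 2 0 = 0 := by rw [u20]; exact z02
  have z04 : X 0 4 = 0 := by linarith
  have z40 : X 4 0 = 0 := by rw [u40]; exact z04
  have z05 : X 0 5 = 0 := by linarith
  have z50 : X 5 0 = 0 := by rw [u50]; exact z05
  have z12 : X 1 2 = 0 := by linarith
  have z21 : X 2 1 = 0 := by rw [u21]; exact z12
  have z13 : X 1 3 = 0 := by linarith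
  have z31 : X 3 1 = 0 := by rw [u31]; exact z13
  have z15 : X 1 5 = 0 := by linarith
  have z51 : X 5 1 = 0 := by rw [u51]; exact z15
  have z23 : X 2 3 = 0 := by linarith
  have z32 : X 3 2 = 0 := by rw [u32]; exact z23
  have z24 : X 2 4 = 0 := by linarith
  have z42 : X 4 2 = 0 := by rw [u42]; exact z24
  ext i j
  fin_cases i <;> fin_cases j <;> assumption

def mP6 : Matrix (Fin 6) (Fin 6) ℤ := !![-2, 0, 2, 2, 2, 3; 0, 2, 0, -4, 1, 2; 2, 0, 1, 0, 4, -2; 2, -4, 0, -1, 0, 2; 2, 1, 4, 0, -2, 0; 3, 2, -2, 2, 0, 2]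

lemma P6_tr : ∀ X : Matrix (Fin 6) (Fin 6) ℝ, (∀ i j, X j i = X i j) → (∀ i, X i i = 0) →
      (∀ i j, i ≠ j → mP6 i j ≠ 0 → X i j = 0) →
      (∀ i j, ∑ k, (mP6 i k : ℝ) * X k j = ∑ k, X i k * (mP6 k j : ℝ)) → X = 0 := by
  intro X h1 h2 h3 h4
  have e02 : X 0 2 = 0 := h3 0 2 (by decide) (show ent mP6 0 2 ≠ 0 by decide)
  have e20 : X 2 0 = 0 := by rw [h1 0 2]; exact e02
  have e03 : X 0 3 = 0 := h3 0 3 (by decide) (show ent mP6 0 3 ≠ 0 by decide)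
  have e30 : X 3 0 = 0 := by rw [h1 0 3]; exact e03
  have e04 : X 0 4 = 0 := h3 0 4 (by decide) (show ent mP6 0 4 ≠ 0 by decide)
  have e40 : X 4 0 = 0 := by rw [h1 0 4]; exact e04
  have e05 : X 0 5 = 0 := h3 0 5 (by decide) (show ent mP6 0 5 ≠ 0 by decide)
  have e50 : X 5 0 = 0 := by rw [h1 0 5]; exact e05
  have e13 : X 1 3 = 0 := h3 1 3 (by decide) (show ent mP6 1 3 ≠ 0 by decide)
  have e31 : X 3 1 = 0 := by rw [h1 1 3]; exact e13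
  have e14 : X 1 4 = 0 := h3 1 4 (by decide) (show ent mP6 1 4 ≠ 0 by decide)
  have e41 : X 4 1 = 0 := by rw [h1 1 4]; exact e14
  have e15 : X 1 5 = 0 := h3 1 5 (by decide) (show ent mP6 1 5 ≠ 0 by decide)
  have e51 : X 5 1 = 0 := by rw [h1 1 5]; exact e15
  have e24 : X 2 4 = 0 := h3 2 4 (by decide) (show ent mP6 2 4 ≠ 0 by decide)
  have e42 : X 4 2 = 0 := by rw [h1 2 4]; exact e24
  have e25 : X 2 5 = 0 := h3 2 5 (by decide) (show ent mP6 2 5 ≠ 0 by decide)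
  have e52 : X 5 2 = 0 := by rw [h1 2 5]; exact e25
  have e35 : X 3 5 = 0 := h3 3 5 (by decide) (show ent mP6 3 5 ≠ 0 by decide)
  have e53 : X 5 3 = 0 := by rw [h1 3 5]; exact e35
  have e00 : X 0 0 = 0 := h2 0
  have e11 : X 1 1 = 0 := h2 1
  have e22 : X 2 2 = 0 := h2 2
  have e33 : X 3 3 = 0 := h2 3
  have e44 : X 4 4 = 0 := h2 4
  have e55 : X 5 5 = 0 := h2 5
  have u10 : X 1 0 = X 0 1 := h1 0 1
  have u21 : X 2 1 = X 1 2 := h1 1 2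
  have u32 : X 3 2 = X 2 3 := h1 2 3
  have u43 : X 4 3 = X 3 4 := h1 3 4
  have u54 : X 5 4 = X 4 5 := h1 4 5
  have m00 : ((mP6 0 0 : ℤ) : ℝ) = -2 := by show (((-2) : ℤ) : ℝ) = _; norm_num
  have m01 : ((mP6 0 1 : ℤ) : ℝ) = 0 := by show (((0) : ℤ) : ℝ) = _; norm_num
  have m02 : ((mP6 0 2 : ℤ) : ℝ) = 2 := by show (((2) : ℤ) : ℝ) = _; norm_num
  have m03 : ((mP6 0 3 : ℤ) : ℝ) = 2 := by show (((2) : ℤ) : ℝ) = _; norm_num
  have m04 : ((mP6 0 4 : ℤ) : ℝ) = 2 := by show (((2) : ℤ) : ℝ) = _; norm_num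
  have m05 : ((mP6 0 5 : ℤ) : ℝ) = 3 := by show (((3) : ℤ) : ℝ) = _; norm_num
  have m10 : ((mP6 1 0 : ℤ) : ℝ) = 0 := by show (((0) : ℤ) : ℝ) = _; norm_num
  have m11 : ((mP6 1 1 : ℤ) : ℝ) = 2 := by show (((2) : ℤ) : ℝ) = _; norm_num
  have m12 : ((mP6 1 2 : ℤ) : ℝ) = 0 := by show (((0) : ℤ) : ℝ) = _; norm_num
  have m13 : ((mP6 1 3 : ℤ) : ℝ) = -4 := by show (((-4) : ℤ) : ℝ) = _; norm_num
  have m14 : ((mP6 1 4 : ℤ) : ℝ) = 1 := by show (((1) : ℤ) : ℝ) = _; norm_num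
  have m15 : ((mP6 1 5 : ℤ) : ℝ) = 2 := by show (((2) : ℤ) : ℝ) = _; norm_num
  have m20 : ((mP6 2 0 : ℤ) : ℝ) = 2 := by show (((2) : ℤ) : ℝ) = _; norm_num
  have m21 : ((mP6 2 1 : ℤ) : ℝ) = 0 := by show (((0) : ℤ) : ℝ) = _; norm_num
  have m22 : ((mP6 2 2 : ℤ) : ℝ) = 1 := by show (((1) : ℤ) : ℝ) = _; norm_num
  have m23 : ((mP6 2 3 : ℤ) : ℝ) = 0 := by show (((0) : ℤ) : ℝ) = _; norm_num
  have m24 : ((mP6 2 4 : ℤ) : ℝ) = 4 := by show (((4) : ℤ) : ℝ) = _; norm_num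
  have m25 : ((mP6 2 5 : ℤ) : ℝ) = -2 := by show (((-2) : ℤ) : ℝ) = _; norm_num
  have m30 : ((mP6 3 0 : ℤ) : ℝ) = 2 := by show (((2) : ℤ) : ℝ) = _; norm_num
  have m31 : ((mP6 3 1 : ℤ) : ℝ) = -4 := by show (((-4) : ℤ) : ℝ) = _; norm_num
  have m32 : ((mP6 3 2 : ℤ) : ℝ) = 0 := by show (((0) : ℤ) : ℝ) = _; norm_num
  have m33 : ((mP6 3 3 : ℤ) : ℝ) = -1 := by show (((-1) : ℤ) : ℝ) = _; norm_num
  have m34 : ((mP6 3 4 : ℤ) : ℝ) = 0 := by show (((0) : ℤ) : ℝ) = _; norm_num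
  have m35 : ((mP6 3 5 : ℤ) : ℝ) = 2 := by show (((2) : ℤ) : ℝ) = _; norm_num
  have m40 : ((mP6 4 0 : ℤ) : ℝ) = 2 := by show (((2) : ℤ) : ℝ) = _; norm_num
  have m41 : ((mP6 4 1 : ℤ) : ℝ) = 1 := by show (((1) : ℤ) : ℝ) = _; norm_num
  have m42 : ((mP6 4 2 : ℤ) : ℝ) = 4 := by show (((4) : ℤ) : ℝ) = _; norm_num
  have m43 : ((mP6 4 3 : ℤ) : ℝ) = 0 := by show (((0) : ℤ) : ℝ) = _; norm_num
  have m44 : ((mP6 4 4 : ℤ) : ℝ) = -2 := by show (((-2) : ℤ) : ℝ) = _; norm_num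
  have m45 : ((mP6 4 5 : ℤ) : ℝ) = 0 := by show (((0) : ℤ) : ℝ) = _; norm_num
  have m50 : ((mP6 5 0 : ℤ) : ℝ) = 3 := by show (((3) : ℤ) : ℝ) = _; norm_num
  have m51 : ((mP6 5 1 : ℤ) : ℝ) = 2 := by show (((2) : ℤ) : ℝ) = _; norm_num
  have m52 : ((mP6 5 2 : ℤ) : ℝ) = -2 := by show (((-2) : ℤ) : ℝ) = _; norm_num
  have m53 : ((mP6 5 3 : ℤ) : ℝ) = 2 := by show (((2) : ℤ) : ℝ) = _; norm_num
  have m54 : ((mP6 5 4 : ℤ) : ℝ) = 0 := by show (((0) : ℤ) : ℝ) = _; norm_num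
  have m55 : ((mP6 5 5 : ℤ) : ℝ) = 2 := by show (((2) : ℤ) : ℝ) = _; norm_num
  have f01 := h4 0 1
  rw [Fin.sum_univ_six, Fin.sum_univ_six] at f01
  simp only [m00, m01, e00, m11, e11, m02, m21, u21, e02, m03, m31, e31, e03, m04, m41, e41, e04, m05, m51, e51, e05] at f01
  have f02 := h4 0 2
  rw [Fin.sum_univ_six, Fin.sum_univ_six] at f02
  simp only [m00, m02, e02, e00, m01, m12, m22, e22, m03, m32, u32, e03, m04, m42, e42, e04, m05, m52, e52, e05] at f02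
  have f03 := h4 0 3
  rw [Fin.sum_univ_six, Fin.sum_univ_six] at f03
  simp only [m00, m03, e03, e00, m01, m13, e13, m02, m23, e02, m33, e33, m04, m43, u43, e04, m05, m53, e53, e05] at f03
  have f04 := h4 0 4
  rw [Fin.sum_univ_six, Fin.sum_univ_six] at f04
  simp only [m00, m04, e04, e00, m01, m14, e14, m02, m24, e24, e02, m03, m34, e03, m44, e44, m05, m54, u54, e05] at f04
  have f05 := h4 0 5
  rw [Fin.sum_univ_six, Fin.sum_univ_six] at f05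
  simp only [m00, m05, e05, e00, m01, m15, e15, m02, m25, e25, e02, m03, m35, e35, e03, m04, m45, e04, m55, e55] at f05
  have z01 : X 0 1 = 0 := by linarith
  have z10 : X 1 0 = 0 := by rw [u10]; exact z01
  have z12 : X 1 2 = 0 := by linarith
  have z21 : X 2 1 = 0 := by rw [u21]; exact z12
  have z23 : X 2 3 = 0 := by linarith
  have z32 : X 3 2 = 0 := by rw [u32]; exact z23
  have z34 : X 3 4 = 0 := by linarith
  have z43 : X 4 3 = 0 := by rw [u43]; exact z34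
  have z45 : X 4 5 = 0 := by linarith
  have z54 : X 5 4 = 0 := by rw [u54]; exact z45
  ext i j
  fin_cases i <;> fin_cases j <;> assumption

lemma sav_C4 : Sav (mgr mC4) 2 := by
  have hdeg := quad_deg (((0 : ℤ)) : ℝ) (((2 : ℤ)) : ℝ)
  refine seed mC4 (by decide) _ ?_ (aeval_quad mC4 0 2 (by decide)) 2 (by rw [hdeg]) C4_tr
  intro h
  rw [h] at hdeg
  simp at hdeg

lemma sav_P6 : Sav (mgr mP6) 4 := by
  have hdeg := quad_deg (((0 : ℤ)) : ℝ) (((25 : ℤ)) : ℝ)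
  refine seed mP6 (by decide) _ ?_ (aeval_quad mP6 0 25 (by decide)) 4 (by rw [hdeg]) P6_tr
  intro h
  rw [h] at hdeg
  simp at hdeg

lemma sav_claw : Sav (mgr mClaw) 1 := by
  have hdeg : (Polynomial.X ^ 3 - Polynomial.C (3:ℝ) * Polynomial.X).natDegree = 3 := by
    compute_degree!
  have h1 : mClaw * mClaw * mClaw = (3:ℤ) • mClaw := by decide
  have h2 : rl mClaw * rl mClaw * rl mClaw = (3:ℝ) • rl mClaw := by
    rw [← rl_mul, ← rl_mul, h1]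
    ext i j
    simp only [rl_apply, Matrix.smul_apply, smul_eq_mul, Int.cast_mul]
    norm_num
  refine seed mClaw (by decide) _ ?_ ?_ 1 (by rw [hdeg]) claw_tr
  · intro h
    rw [h] at hdeg
    simp at hdeg
  · simp only [map_sub, map_mul, map_pow, Polynomial.aeval_X, Polynomial.aeval_C]
    rw [pow_succ, pow_two, h2, Algebra.algebraMap_eq_smul_one]
    simp

lemma sav_net : Sav (mgr mNet) 2 := by
  have hdeg : (Polynomial.X ^ 4 - (Polynomial.X ^ 3 + Polynomial.C (4:ℝ) * Polynomial.X ^ 2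
      - Polynomial.X - 1)).natDegree = 4 := by
    compute_degree!
  have h1 : mNet * mNet * mNet * mNet = mNet * mNet * mNet + (4:ℤ) • (mNet * mNet) - mNet - 1 := by
    decide
  have h2 : rl mNet * rl mNet * rl mNet * rl mNet =
      rl mNet * rl mNet * rl mNet + (4:ℝ) • (rl mNet * rl mNet) - rl mNet - 1 := by
    rw [← rl_mul, ← rl_mul, ← rl_mul, h1]
    ext i j
    simp only [rl_apply, Matrix.smul_apply, smul_eq_mul, Int.cast_mul, Matrix.add_apply,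
      Matrix.sub_apply, Int.cast_add, Int.cast_sub, Matrix.one_apply]
    split_ifs <;> norm_num
  refine seed mNet (by decide) _ ?_ ?_ 2 (by rw [hdeg]) net_tr
  · intro h
    rw [h] at hdeg
    simp at hdeg
  · simp only [map_sub, map_add, map_mul, map_pow, Polynomial.aeval_X, Polynomial.aeval_C,
      map_one]
    rw [pow_succ, pow_succ, pow_two, h2, Algebra.algebraMap_eq_smul_one]
    simp only [smul_mul_assoc, one_mul, sub_self]

end Pool.Agent.helper58.NG
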