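import Pool.Agent.helper58.NGDeg

set_option autoImplicit false

namespace Pool.Agent.helper58.NG

open Matrix

variable {V : Type} [Fintype V] [DecidableEq V]

def Good (G : SimpleGraph V) : Prop :=
  ∃ a b, Sav G a ∧ Sav Gᶜ b ∧ Fintype.card V ≤ a + b + 2

lemma del_compl (G : SimpleGraph V) (v : V) : (del G v)ᶜ = del Gᶜ v := by
  ext i j
  simp only [del, SimpleGraph.compl_adj, SimpleGraph.comap_adj]
  rw [Ne, Ne, Subtype.ext_iff]

lemma Sav.le_card {G : SimpleGraph V} {c : ℕ} (h : Sav G c) : c ≤ Fintype.card V := by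
  obtain ⟨A, -, -, -, h⟩ := h
  omega

lemma exists_max (G : SimpleGraph V) : ∃ s, Sav G s ∧ ∀ c, Sav G c → c ≤ s := by
  classical
  refine ⟨Nat.findGreatest (fun c => Sav G c) (Fintype.card V), ?_, ?_⟩
  · exact Nat.findGreatest_spec (P := fun c => Sav G c) (Nat.zero_le _) (sav_zero G)
  · intro c hc
    exact Nat.le_findGreatest hc.le_card hc

/-- claw at a vertex of degree at least three -/
lemma sav_of_deg3 (G : SimpleGraph V) (v : V) (S : Finset V) (hS : ∀ w ∈ S, G.Adj v w)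
    (h3 : 3 ≤ S.card) : Sav G 1 := by
  obtain ⟨T, hT, hT3⟩ := Finset.exists_subset_card_eq h3
  obtain ⟨x, y, z, hxy, hxz, hyz, rfl⟩ := Finset.card_eq_three.1 hT3
  have hx := hS x (hT (by simp))
  have hy := hS y (hT (by simp))
  have hz := hS z (hT (by simp))
  have e1 := hx.ne
  have e2 := hy.ne
  have e3 := hz.ne
  refine sav_claw.embed ![v, x, y, z] ?_ ?_
  · intro i j hij
    fin_cases i <;> fin_cases j <;> first | rfl | (exfalso; simp at hij; tauto)
  · intro i j hij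
    fin_cases i <;> fin_cases j <;>
      first
        | exact hx | exact hx.symm | exact hy | exact hy.symm | exact hz | exact hz.symm
        | (exfalso; revert hij; decide)

structure Hyp (G : SimpleGraph V) (s t : ℕ) : Prop where
  m1 : ∀ c, Sav G c → c ≤ s
  m2 : ∀ c, Sav Gᶜ c → c ≤ t
  f1 : ∀ v, ∀ S : Finset V, (∀ w ∈ S, G.Adj v w ∧ ∃ u, G.Adj v u ∧ G.Adj w u) → S.card ≤ s
  f2 : ∀ v, ∀ S : Finset V, (∀ w ∈ S, Gᶜ.Adj v w ∧ ∃ u, Gᶜ.Adj v u ∧ Gᶜ.Adj w u) → S.card ≤ t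
  sum : s + t + 3 = Fintype.card V
  six : 6 ≤ Fintype.card V

lemma Hyp.symm {G : SimpleGraph V} {s t : ℕ} (h : Hyp G s t) : Hyp Gᶜ t s := by
  refine ⟨h.m2, ?_, h.f2, ?_, ?_, h.six⟩
  · rw [compl_compl]; exact h.m1
  · rw [compl_compl]; exact h.f1
  · have := h.sum; omega

lemma deg_sum (G : SimpleGraph V) (v : V) :
    (nb G v).card + (nb Gᶜ v).card + 1 = Fintype.card V := by
  classical
  have hdisj : Disjoint (nb G v) (nb Gᶜ v) := by
    rw [Finset.disjoint_left]
    intro z h1 h2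
    rw [mem_nb] at h1 h2
    exact ((G.compl_adj v z).1 h2).2 h1
  have hv : v ∉ nb G v ∪ nb Gᶜ v := by
    rw [Finset.mem_union, mem_nb, mem_nb]
    rintro (h | h)
    · exact h.ne rfl
    · exact h.ne rfl
  have huniv : insert v (nb G v ∪ nb Gᶜ v) = Finset.univ := by
    ext z
    simp only [Finset.mem_insert, Finset.mem_union, mem_nb, Finset.mem_univ, iff_true,
      SimpleGraph.compl_adj]
    by_cases h1 : z = v
    · exact Or.inl h1
    · by_cases h2 : G.Adj v z
      · exact Or.inr (Or.inl h2)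
      · exact Or.inr (Or.inr ⟨fun h => h1 h.symm, h2⟩)
  rw [← Finset.card_union_of_disjoint hdisj, ← Finset.card_insert_of_notMem hv, huniv,
    Finset.card_univ]

/-- lonely neighbours exist if the degree is large -/
lemma exists_lonely (H : SimpleGraph V) (t : ℕ) (v : V)
    (hF : ∀ S : Finset V, (∀ w ∈ S, H.Adj v w ∧ ∃ u, H.Adj v u ∧ H.Adj w u) → S.card ≤ t)
    (k : ℕ) (h : t + k ≤ (nb H v).card) :
    ∃ L : Finset V, k ≤ L.card ∧ ∀ z ∈ L, H.Adj v z ∧ ∀ u, ¬ (H.Adj v u ∧ H.Adj z u) := by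
  classical
  let L := (nb H v).filter (fun z => ¬ ∃ u, H.Adj v u ∧ H.Adj z u)
  refine ⟨L, ?_, ?_⟩
  · have h1 := hF ((nb H v).filter (fun z => ∃ u, H.Adj v u ∧ H.Adj z u)) (by
      intro w hw
      rw [Finset.mem_filter, mem_nb] at hw
      exact hw)
    have h2 := Finset.card_filter_add_card_filter_not (s := nb H v)
      (fun z => ∃ u, H.Adj v u ∧ H.Adj z u)
    simp only [L]
    omega
  · intro z hz
    simp only [L, Finset.mem_filter, mem_nb] at hz
    exact ⟨hz.1, fun u hu => hz.2 ⟨u, hu⟩⟩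

/-- a lonely non-neighbour is adjacent to all other non-neighbours -/
lemma lonely_adj (G : SimpleGraph V) (v z : V) (lz : ∀ u, ¬ (Gᶜ.Adj v u ∧ Gᶜ.Adj z u))
    (y : V) (hy : Gᶜ.Adj v y) (hyz : y ≠ z) : G.Adj z y := by
  by_contra h
  exact lz y ⟨hy, (G.compl_adj z y).2 ⟨hyz.symm, h⟩⟩

lemma claim3 (G : SimpleGraph V) (s : ℕ)
    (hF : ∀ v, ∀ S : Finset V, (∀ w ∈ S, G.Adj v w ∧ ∃ u, G.Adj v u ∧ G.Adj w u) → S.card ≤ s)
    (v z z' : V) (hzz' : z ≠ z') (hz : Gᶜ.Adj v z) (hz' : Gᶜ.Adj v z')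
    (lz : ∀ u, ¬ (Gᶜ.Adj v u ∧ Gᶜ.Adj z u)) (lz' : ∀ u, ¬ (Gᶜ.Adj v u ∧ Gᶜ.Adj z' u))
    (h3 : 3 ≤ (nb Gᶜ v).card) : (nb Gᶜ v).card ≤ s + 1 := by
  have h1 := hF z ((nb Gᶜ v).erase z) (by
    intro y hy
    rw [Finset.mem_erase, mem_nb] at hy
    obtain ⟨hyz, hvy⟩ := hy
    refine ⟨lonely_adj G v z lz y hvy hyz, ?_⟩
    by_cases hyz' : y = z'
    · subst hyz'
      -- third non-neighbour
      have h4 : (((nb Gᶜ v).erase z).erase y).Nonempty := by
        rw [← Finset.card_pos]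
        have := Finset.pred_card_le_card_erase (s := (nb Gᶜ v)) (a := z)
        have := Finset.pred_card_le_card_erase (s := (nb Gᶜ v).erase z) (a := y)
        omega
      obtain ⟨x, hx⟩ := h4
      rw [Finset.mem_erase, Finset.mem_erase, mem_nb] at hx
      obtain ⟨hxy, hxz, hvx⟩ := hx
      exact ⟨x, lonely_adj G v z lz x hvx hxz, lonely_adj G v y lz' x hvx hxy⟩
    · exact ⟨z', lonely_adj G v z lz z' hz' hzz'.symm, (lonely_adj G v z' lz' y hvy hyz').symm⟩)
  have := Finset.pred_card_le_card_erase (s := (nb Gᶜ v)) (a := z)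
  omega

lemma Hyp.lemA {G : SimpleGraph V} {s t : ℕ} (h : Hyp G s t) (v : V) (h1 : (nb G v).card ≤ s)
    (h3 : 3 ≤ (nb Gᶜ v).card) : t + 1 ≤ (nb G v).card := by
  have hs := deg_sum G v
  have hsum := h.sum
  obtain ⟨L, hL, hLz⟩ := exists_lonely Gᶜ t v (h.f2 v) 2 (by omega)
  obtain ⟨z, hz, z', hz', hne⟩ := Finset.one_lt_card.1 (show 1 < L.card by omega)
  have := claim3 G s h.f1 v z z' hne (hLz z hz).1 (hLz z' hz').1 (hLz z hz).2 (hLz z' hz').2 h3
  omega

lemma Hyp.low {G : SimpleGraph V} {s t : ℕ} (h : Hyp G s t) (v : V) (h1 : (nb G v).card ≤ 1) :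
    False := by
  classical
  have hs := deg_sum G v
  have hsum := h.sum
  have hsix := h.six
  have hc1 : 1 ≤ t := h.m2 1 (sav_of_deg3 Gᶜ v (nb Gᶜ v) (fun w hw => (mem_nb _ _ _).1 hw)
    (by omega))
  by_cases h2 : (nb G v).card ≤ s
  · have := h.lemA v h2 (by omega)
    omega
  · obtain ⟨L, hL, hLz⟩ := exists_lonely Gᶜ t v (h.f2 v) 1 (by omega)
    obtain ⟨z, hz⟩ := Finset.card_pos.1 (show 0 < L.card by omega)
    have h5 : 1 ≤ s := h.m1 1 (sav_of_deg3 G z ((nb Gᶜ v).erase z) (by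
      intro w hw
      rw [Finset.mem_erase, mem_nb] at hw
      exact lonely_adj G v z (hLz z hz).2 w hw.2 hw.1) (by
      have := Finset.pred_card_le_card_erase (s := (nb Gᶜ v)) (a := z)
      omega))
    omega

theorem Hyp.false {G : SimpleGraph V} {s t : ℕ} (h : Hyp G s t) : False := by
  have hsum := h.sum
  have hsix := h.six
  have hne : Nonempty V := by
    rw [← Fintype.card_pos_iff]; omega
  obtain ⟨v, -, hv⟩ := Finset.exists_min_image (Finset.univ : Finset V) (fun v => (nb G v).card)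
    Finset.univ_nonempty
  obtain ⟨u, -, hu⟩ := Finset.exists_min_image (Finset.univ : Finset V) (fun v => (nb Gᶜ v).card)
    Finset.univ_nonempty
  have hdv := deg_sum G v
  have hdu := deg_sum G u
  by_cases h1 : (nb G v).card ≤ 1
  · exact h.low v h1
  by_cases h2 : (nb Gᶜ u).card ≤ 1
  · exact h.symm.low u h2
  have huv := hu v (Finset.mem_univ v)
  have hvu := hv u (Finset.mem_univ u)
  have hD : (nb G v).card ≤ s := h.m1 _ (lemmaD _ V G (nb G v).card rfl (by omega)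
    (fun w => hv w (Finset.mem_univ w)) (by omega))
  have hD' : (nb Gᶜ u).card ≤ t := h.m2 _ (lemmaD _ V Gᶜ (nb Gᶜ u).card rfl (by omega)
    (fun w => hu w (Finset.mem_univ w)) (by omega))
  have hA := h.lemA v hD (by omega)
  have hA' := h.symm.lemA u hD' (by rw [compl_compl]; omega)
  omega

/-- induction step -/
theorem good_step (G : SimpleGraph V) (hn : 6 ≤ Fintype.card V) (hG : ∀ v, Good (del G v)) :
    Good G := by
  by_contra hng
  obtain ⟨s, hs, hsm⟩ := exists_max G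
  obtain ⟨t, ht, htm⟩ := exists_max Gᶜ
  have hlt : s + t + 3 ≤ Fintype.card V := by
    by_contra h
    exact hng ⟨s, t, hs, ht, by omega⟩
  have key : ∀ v, Sav (del G v) s ∧ Sav (del Gᶜ v) t ∧ s + t + 3 = Fintype.card V := by
    intro v
    obtain ⟨a, b, ha, hb, hab⟩ := hG v
    rw [del_compl] at hb
    have h1 := hsm a ha.of_del
    have h2 := htm b hb.of_del
    have h3 := card_del v
    have h4 : a = s := by omega
    have h5 : b = t := by omega
    subst h4 h5
    exact ⟨ha, hb, by omega⟩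
  obtain ⟨v0⟩ : Nonempty V := by
    rw [← Fintype.card_pos_iff]; omega
  refine Hyp.false (G := G) (s := s) (t := t) ⟨hsm, htm, ?_, ?_, (key v0).2.2, hn⟩
  · intro v S hS
    by_contra h
    have := hsm _ (Sav.free v (key v).1 S hS (by omega))
    omega
  · intro v S hS
    by_contra h
    have := htm _ (Sav.free v (key v).2.1 S hS (by omega))
    omega

end Pool.Agent.helper58.NG
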