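import Mathlib

namespace Pool.Agent.helper58.TF

open Finset

/-- elimination lemma -/
lemma elim {V X : Type*} [Fintype V] [DecidableEq V] [Fintype X] (v : V)
    (P P' : (V → X) → Prop) [DecidablePred P] [DecidablePred P']
    (hdet : ∀ c x y, P (Function.update c v x) → P (Function.update c v y) → x = y)
    (hinv : ∀ c x, P c → P' (Function.update c v x)) :
    (univ.filter P).card * Fintype.card X ≤ (univ.filter P').card := by
  classical
  rw [← Finset.card_univ (α := X), ← Finset.card_product]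
  apply Finset.card_le_card_of_injOn (fun cx => Function.update cx.1 v cx.2)
  · rintro ⟨c, x⟩ h
    simp only [coe_product, coe_filter, mem_univ, true_and, coe_univ, Set.mem_prod, Set.mem_ofPred_eq,
      Set.mem_univ, and_true] at h
    simpa using hinv c x h
  · rintro ⟨c, x⟩ h ⟨c', x'⟩ h' heq
    simp only [coe_product, coe_filter, mem_univ, true_and, coe_univ, Set.mem_prod, Set.mem_ofPred_eq,
      Set.mem_univ, and_true] at h h'
    simp only at heq
    have h1 : x = x' := by
      have := congrFun heq v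
      simpa using this
    have h2 : ∀ w, w ≠ v → c w = c' w := by
      intro w hw
      have := congrFun heq w
      simpa [Function.update_of_ne hw] using this
    have h3 : c' = Function.update c v (c' v) := by
      ext w
      by_cases hw : w = v
      · subst hw; simp
      · rw [Function.update_of_ne hw]; exact (h2 w hw).symm
    have h4 : c v = c' v := by
      apply hdet c (c v) (c' v)
      · simpa using h
      · rw [← h3]; exact h'
    have h5 : c = c' := by
      ext w
      by_cases hw : w = v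
      · subst hw; exact h4
      · exact h2 w hw
    rw [h5, h1]

/-- counting functions with prescribed values at distinct places -/
lemma count_presc {V : Type*} [DecidableEq V] {q : ℕ} (N : Finset V) (cs : V → Fin q × Bool)
    (hc : Set.InjOn (fun v => (cs v).1) N) :
    (univ.filter (fun a : Fin q → Bool => ∀ w ∈ N, a (cs w).1 = (cs w).2)).card * 2 ^ N.card
      ≤ 2 ^ q := by
  classical
  induction N using Finset.induction_on with
  | empty => simp
  | insert w N hw ih =>
    have hc' : Set.InjOn (fun v => (cs v).1) N := hc.mono (by simp)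
    have key := elim (V := Fin q) (X := Bool) (cs w).1
      (fun a => ∀ u ∈ insert w N, a (cs u).1 = (cs u).2) (fun a => ∀ u ∈ N, a (cs u).1 = (cs u).2)
      (by
        intro a x y h1 h2
        have h1' := h1 w (by simp)
        have h2' := h2 w (by simp)
        simp at h1' h2'
        rw [h1', h2'])
      (by
        intro a x h u hu
        have hne : (cs u).1 ≠ (cs w).1 := by
          intro h'
          have := hc (by simp [hu]) (by simp) h'
          exact hw (this ▸ hu)
        rw [Function.update_of_ne hne]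
        exact h u (by simp [hu]))
    rw [Finset.card_insert_of_notMem hw, pow_succ]
    have ih' := ih hc'
    simp only [Fintype.card_bool] at key
    calc _ = ((univ.filter (fun a : Fin q → Bool => ∀ u ∈ insert w N, a (cs u).1 = (cs u).2)).card * 2) * 2 ^ N.card := by ring
      _ ≤ _ := (Nat.mul_le_mul_right _ key).trans ih'

lemma cnt1 {V : Type*} [Fintype V] [DecidableEq V] (q : ℕ) {u v : V} (h : u ≠ v) :
    (univ.filter (fun c : V → Fin q => c u = c v)).card * q ≤ q ^ Fintype.card V := by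
  classical
  have key := elim (V := V) (X := Fin q) v (fun c => c u = c v) (fun _ => True)
    (by
      intro c x y h1 h2
      simp [Function.update_of_ne h] at h1 h2
      rw [← h1, h2])
    (by intros; trivial)
  simpa using key

lemma cnt2 {V : Type*} [Fintype V] [DecidableEq V] (q : ℕ) {u v u' v' : V} (h : u ≠ v)
    (h' : u' ≠ v') (hne : s(u, v) ≠ s(u', v')) :
    (univ.filter (fun c : V → Fin q => c u = c v ∧ c u' = c v')).card * q ^ 2
      ≤ q ^ Fintype.card V := by
  classical
  have key0 := cnt1 (V := V) q h'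
  have key : (univ.filter (fun c : V → Fin q => c u = c v ∧ c u' = c v')).card * q ≤
      (univ.filter (fun c : V → Fin q => c u' = c v')).card := by
    by_cases hv : v ≠ u' ∧ v ≠ v'
    · have := elim (V := V) (X := Fin q) v (fun c => c u = c v ∧ c u' = c v')
        (fun c => c u' = c v')
        (by
          intro c x y h1 h2
          have h1 := h1.1
          have h2 := h2.1
          simp [Function.update_of_ne h] at h1 h2
          rw [← h1, h2])
        (by
          intro c x h
          rw [Function.update_of_ne hv.1.symm, Function.update_of_ne hv.2.symm]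
          exact h.2)
      simpa using this
    · have hu : u ≠ u' ∧ u ≠ v' := by
        constructor
        · rintro rfl
          have h3 : v = v' := by
            by_contra h4
            exact hv ⟨h.symm, h4⟩
          exact hne (by rw [h3])
        · rintro rfl
          have h3 : v = u' := by
            by_contra h4
            exact hv ⟨h4, h.symm⟩
          exact hne (by rw [h3, Sym2.eq_swap])
      have := elim (V := V) (X := Fin q) u (fun c => c u = c v ∧ c u' = c v')
        (fun c => c u' = c v')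
        (by
          intro c x y h1 h2
          have h1 := h1.1
          have h2 := h2.1
          simp [Function.update_of_ne h.symm] at h1 h2
          rw [h1, h2])
        (by
          intro c x h
          rw [Function.update_of_ne hu.1.symm, Function.update_of_ne hu.2.symm]
          exact h.2)
      simpa using this
  calc _ = (univ.filter (fun c : V → Fin q => c u = c v ∧ c u' = c v')).card * q * q := by ring
    _ ≤ _ := (Nat.mul_le_mul_right _ key).trans key0

lemma cnt3 {V : Type*} [Fintype V] [DecidableEq V] (q : ℕ) {u v : V} (h : u ≠ v) :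
    (univ.filter (fun c : V → Fin q × Bool => (c u).1 = (c v).1 ∧ (c u).2 ≠ (c v).2)).card * (2 * q)
      ≤ (2 * q) ^ Fintype.card V := by
  classical
  have key := elim (V := V) (X := Fin q × Bool) v
    (fun c => (c u).1 = (c v).1 ∧ (c u).2 ≠ (c v).2) (fun _ => True)
    (by
      intro c x y h1 h2
      simp only [Function.update_of_ne h, Function.update_self] at h1 h2
      obtain ⟨h1, h3⟩ := h1
      obtain ⟨h2, h4⟩ := h2
      ext
      · rw [← h1, h2]
      · have h5 : x.2 = !(c u).2 := by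
          revert h3; cases x.2 <;> cases (c u).2 <;> simp
        have h6 : y.2 = !(c u).2 := by
          revert h4; cases y.2 <;> cases (c u).2 <;> simp
        rw [h5, h6])
    (by intros; trivial)
  simpa [mul_comm] using key

/-- number of `cs` whose `c`-part satisfies a property -/
lemma cntc {V : Type*} [Fintype V] [DecidableEq V] (q : ℕ) (P : (V → Fin q) → Prop)
    [DecidablePred P] :
    (univ.filter (fun cs : V → Fin q × Bool => P (fun v => (cs v).1))).card
      = (univ.filter P).card * 2 ^ Fintype.card V := by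
  classical
  have h : (2 : ℕ) ^ Fintype.card V = (univ : Finset (V → Bool)).card := by simp
  rw [h, ← Finset.card_product]
  apply Finset.card_equiv (Equiv.arrowProdEquivProdArrow V (fun _ => Fin q) (fun _ => Bool))
  intro cs
  simp [Equiv.arrowProdEquivProdArrow]

/-- data of a vertex in one block -/
abbrev Blk (q : ℕ) := (Fin q → Bool) × (Fin q × Bool)

/-- the per-block event: `F` is respected by the relation the cube point of one lies in the
subcube of the other, and the edges in `S` have disjoint subcubes in this block -/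
def Ev {V : Type*} {q : ℕ} (F : SimpleGraph V) (S : Finset (Sym2 V)) (b : V → Blk q) : Prop :=
  (∀ u v, F.Adj u v → (b u).1 (b v).2.1 = (b v).2.2) ∧
  (∀ u v, s(u, v) ∈ S → (b u).2.1 = (b v).2.1 ∧ (b u).2.2 ≠ (b v).2.2)

instance {V : Type*} [Fintype V] [DecidableEq V] {q : ℕ} (F : SimpleGraph V) [DecidableRel F.Adj]
    (S : Finset (Sym2 V)) : DecidablePred (Ev (q := q) F S) := fun b => by
  unfold Ev; infer_instance

section count
variable {V : Type*} [Fintype V] [DecidableEq V]

/-- number of configurations in one block -/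
def T (F : SimpleGraph V) [DecidableRel F.Adj] (q : ℕ) (S : Finset (Sym2 V)) : ℕ :=
  (univ.filter (fun b : V → Blk q => Ev F S b)).card

lemma T_eq (F : SimpleGraph V) [DecidableRel F.Adj] (q : ℕ) (S : Finset (Sym2 V)) :
    T F q S = ∑ cs ∈ univ.filter (fun cs : V → Fin q × Bool =>
        ∀ u v, s(u, v) ∈ S → (cs u).1 = (cs v).1 ∧ (cs u).2 ≠ (cs v).2),
      ∏ u : V, (univ.filter (fun a : Fin q → Bool => ∀ w ∈ F.neighborFinset u,
        a (cs w).1 = (cs w).2)).card := by
  classical
  have h1 : T F q S = (univ.filter (fun p : (V → Fin q → Bool) × (V → Fin q × Bool) =>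
      (∀ u v, F.Adj u v → p.1 u (p.2 v).1 = (p.2 v).2) ∧
      (∀ u v, s(u, v) ∈ S → (p.2 u).1 = (p.2 v).1 ∧ (p.2 u).2 ≠ (p.2 v).2))).card := by
    apply Finset.card_equiv
      (Equiv.arrowProdEquivProdArrow V (fun _ => Fin q → Bool) (fun _ => Fin q × Bool))
    intro b
    rw [Finset.mem_filter, Finset.mem_filter]
    simp only [Finset.mem_univ, true_and]
    exact Iff.rfl
  rw [h1, Finset.card_filter, Fintype.sum_prod_type_right, Finset.sum_filter]
  apply Finset.sum_congr rfl
  intro cs _
  split_ifs with h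
  · rw [← Fintype.card_piFinset, ← Finset.card_filter]
    congr 1
    ext a
    simp only [mem_filter, mem_univ, true_and, Fintype.mem_piFinset, SimpleGraph.mem_neighborFinset]
    constructor
    · rintro ⟨h3, -⟩ u w huw
      exact h3 u w huw
    · intro h3
      exact ⟨fun u v => h3 u v, h⟩
  · rw [Finset.sum_eq_zero]
    intro a _
    simp only [ite_eq_right_iff, one_ne_zero, imp_false, not_and]
    intro _
    exact h

omit [DecidableEq V] in
lemma fiber_good_aux (F : SimpleGraph V) [DecidableRel F.Adj] :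
    (4 : ℕ) ^ F.edgeFinset.card = ∏ u : V, 2 ^ (F.neighborFinset u).card := by
  rw [Finset.prod_pow_eq_pow_sum]
  have := F.sum_degrees_eq_twice_card_edges
  simp only [SimpleGraph.card_neighborFinset_eq_degree]
  rw [this, pow_mul]
  norm_num

lemma fiber_good (F : SimpleGraph V) [DecidableRel F.Adj] (q : ℕ) (cs : V → Fin q × Bool)
    (h : ∀ u, Set.InjOn (fun v => (cs v).1) (F.neighborFinset u)) :
    (∏ u : V, (univ.filter (fun a : Fin q → Bool => ∀ w ∈ F.neighborFinset u,
        a (cs w).1 = (cs w).2)).card) * 4 ^ F.edgeFinset.card ≤ 2 ^ (q * Fintype.card V) := by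
  have h2 : (2 : ℕ) ^ (q * Fintype.card V) = ∏ u : V, 2 ^ q := by
    rw [Finset.prod_const, Finset.card_univ, pow_mul]
  rw [fiber_good_aux, ← Finset.prod_mul_distrib, h2]
  apply Finset.prod_le_prod (fun _ _ => Nat.zero_le _)
  intro u _
  have h3 := count_presc (F.neighborFinset u) cs (h u)
  refine le_trans (le_of_eq ?_) h3
  congr!

lemma fiber_triv (F : SimpleGraph V) [DecidableRel F.Adj] (q : ℕ) (cs : V → Fin q × Bool) :
    (∏ u : V, (univ.filter (fun a : Fin q → Bool => ∀ w ∈ F.neighborFinset u,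
        a (cs w).1 = (cs w).2)).card) ≤ 2 ^ (q * Fintype.card V) := by
  calc _ ≤ ∏ u : V, 2 ^ q := by
        apply Finset.prod_le_prod'
        intro u _
        calc _ ≤ (univ : Finset (Fin q → Bool)).card := Finset.card_le_card (Finset.filter_subset _ _)
          _ = _ := by simp
    _ = _ := by rw [Finset.prod_const, Finset.card_univ, pow_mul]

/-- general bound -/
lemma T_le (F : SimpleGraph V) [DecidableRel F.Adj] (q : ℕ) (S : Finset (Sym2 V)) :
    T F q S * 4 ^ F.edgeFinset.card ≤ 2 ^ (q * Fintype.card V) *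
      ((univ.filter (fun cs : V → Fin q × Bool =>
        ∀ u v, s(u, v) ∈ S → (cs u).1 = (cs v).1 ∧ (cs u).2 ≠ (cs v).2)).card +
      4 ^ F.edgeFinset.card * (univ.filter (fun cs : V → Fin q × Bool =>
        (∀ u v, s(u, v) ∈ S → (cs u).1 = (cs v).1 ∧ (cs u).2 ≠ (cs v).2) ∧
        ∃ u v w, F.Adj u v ∧ F.Adj u w ∧ v ≠ w ∧ (cs v).1 = (cs w).1)).card) := by
  rw [T_eq]
  set A := univ.filter (fun cs : V → Fin q × Bool =>
        ∀ u v, s(u, v) ∈ S → (cs u).1 = (cs v).1 ∧ (cs u).2 ≠ (cs v).2) with hA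
  have hB : (univ.filter (fun cs : V → Fin q × Bool =>
        (∀ u v, s(u, v) ∈ S → (cs u).1 = (cs v).1 ∧ (cs u).2 ≠ (cs v).2) ∧
        ∃ u v w, F.Adj u v ∧ F.Adj u w ∧ v ≠ w ∧ (cs v).1 = (cs w).1)) =
      A.filter (fun cs : V → Fin q × Bool =>
        ∃ u v w, F.Adj u v ∧ F.Adj u w ∧ v ≠ w ∧ (cs v).1 = (cs w).1) := by
    rw [hA, Finset.filter_filter]
  rw [hB, ← Finset.sum_filter_not_add_sum_filter A (fun cs : V → Fin q × Bool =>
        ∃ u v w, F.Adj u v ∧ F.Adj u w ∧ v ≠ w ∧ (cs v).1 = (cs w).1), add_mul, mul_add]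
  apply Nat.add_le_add
  · rw [Finset.sum_mul]
    calc _ ≤ ∑ cs ∈ A.filter (fun cs : V → Fin q × Bool => ¬ 
        ∃ u v w, F.Adj u v ∧ F.Adj u w ∧ v ≠ w ∧ (cs v).1 = (cs w).1), 
          2 ^ (q * Fintype.card V) := by
          apply Finset.sum_le_sum
          intro cs hcs
          apply fiber_good
          intro u v hv w hw hvw
          by_contra hne
          rw [Finset.mem_filter] at hcs
          apply hcs.2
          refine ⟨u, v, w, ?_, ?_, hne, hvw⟩
          · simpa using hv
          · simpa using hw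
      _ = (A.filter (fun cs : V → Fin q × Bool => ¬ 
        ∃ u v w, F.Adj u v ∧ F.Adj u w ∧ v ≠ w ∧ (cs v).1 = (cs w).1)).card * 
          2 ^ (q * Fintype.card V) := by
          rw [Finset.sum_const, smul_eq_mul]
      _ ≤ A.card * 2 ^ (q * Fintype.card V) := by
          apply Nat.mul_le_mul_right
          exact Finset.card_le_card (Finset.filter_subset _ _)
      _ = _ := by ring
  · calc _ ≤ (∑ cs ∈ A.filter (fun cs : V → Fin q × Bool =>
        ∃ u v w, F.Adj u v ∧ F.Adj u w ∧ v ≠ w ∧ (cs v).1 = (cs w).1), 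
          2 ^ (q * Fintype.card V)) * 4 ^ F.edgeFinset.card := by
          apply Nat.mul_le_mul_right
          apply Finset.sum_le_sum
          intro cs _
          exact fiber_triv F q cs
      _ = _ := by rw [Finset.sum_const, smul_eq_mul]; ring

omit [DecidableEq V] in
lemma bad_le (q r : ℕ) (A : Finset (V → Fin q × Bool)) (P : V → V → Prop) [DecidableRel P]
    (h : ∀ v w, P v w →
      (A.filter (fun cs => (cs v).1 = (cs w).1)).card * r ≤ (2 * q) ^ Fintype.card V) :
    (A.filter (fun cs => ∃ v w, P v w ∧ (cs v).1 = (cs w).1)).card * r ≤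
      (Fintype.card V) ^ 2 * (2 * q) ^ Fintype.card V := by
  have h1 : A.filter (fun cs => ∃ v w, P v w ∧ (cs v).1 = (cs w).1) ⊆
      (univ.filter (fun p : V × V => P p.1 p.2)).biUnion
        (fun p => A.filter (fun cs => (cs p.1).1 = (cs p.2).1)) := by
    intro cs hcs
    rw [Finset.mem_filter] at hcs
    obtain ⟨hA, v, w, hP, hvw⟩ := hcs
    rw [Finset.mem_biUnion]
    exact ⟨(v, w), by simpa using hP, by simpa using ⟨hA, hvw⟩⟩
  calc _ ≤ ((univ.filter (fun p : V × V => P p.1 p.2)).biUnion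
        (fun p => A.filter (fun cs => (cs p.1).1 = (cs p.2).1))).card * r :=
        Nat.mul_le_mul_right _ (Finset.card_le_card h1)
    _ ≤ (∑ p ∈ univ.filter (fun p : V × V => P p.1 p.2),
        (A.filter (fun cs => (cs p.1).1 = (cs p.2).1)).card) * r :=
        Nat.mul_le_mul_right _ Finset.card_biUnion_le
    _ = ∑ p ∈ univ.filter (fun p : V × V => P p.1 p.2),
        (A.filter (fun cs => (cs p.1).1 = (cs p.2).1)).card * r := by rw [Finset.sum_mul]
    _ ≤ ∑ p ∈ univ.filter (fun p : V × V => P p.1 p.2), (2 * q) ^ Fintype.card V := by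
        apply Finset.sum_le_sum
        intro p hp
        exact h _ _ (by simpa using hp)
    _ = (univ.filter (fun p : V × V => P p.1 p.2)).card * (2 * q) ^ Fintype.card V := by
        rw [Finset.sum_const, smul_eq_mul]
    _ ≤ _ := by
        apply Nat.mul_le_mul_right
        calc _ ≤ (univ : Finset (V × V)).card := Finset.card_le_card (Finset.filter_subset _ _)
          _ = _ := by rw [Finset.card_univ, Fintype.card_prod, sq]

lemma T0 (F : SimpleGraph V) [DecidableRel F.Adj] (q : ℕ) :
    T F q ∅ * 4 ^ F.edgeFinset.card * q ≤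
      (2 ^ (q * Fintype.card V) * (2 * q) ^ Fintype.card V) *
        (q + 4 ^ F.edgeFinset.card * (Fintype.card V) ^ 2) := by
  have h := T_le F q ∅
  simp only [Finset.notMem_empty, IsEmpty.forall_iff, implies_true, Finset.filter_true, true_and,
    Finset.card_univ] at h
  have hb := bad_le (V := V) q q univ (fun v w => v ≠ w) (by
    intro v w hvw
    have := cntc (V := V) q (fun c => c v = c w)
    rw [this]
    have h2 := cnt1 (V := V) q hvw
    calc _ = ((univ.filter (fun c : V → Fin q => c v = c w)).card * q) * 2 ^ Fintype.card V := by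
          ring
      _ ≤ q ^ Fintype.card V * 2 ^ Fintype.card V := Nat.mul_le_mul_right _ h2
      _ = _ := by rw [← mul_pow]; ring)
  have hs : (univ.filter (fun cs : V → Fin q × Bool =>
      ∃ u v w, F.Adj u v ∧ F.Adj u w ∧ v ≠ w ∧ (cs v).1 = (cs w).1)) ⊆
      (univ.filter (fun cs : V → Fin q × Bool => ∃ v w, v ≠ w ∧ (cs v).1 = (cs w).1)) := by
    intro cs
    simp only [mem_filter, mem_univ, true_and]
    rintro ⟨u, v, w, _, _, h3, h4⟩
    exact ⟨v, w, h3, h4⟩
  have hs' := Finset.card_le_card hs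
  have hc : Fintype.card (V → Fin q × Bool) = (2 * q) ^ Fintype.card V := by
    simp [mul_comm]
  rw [hc] at h
  calc _ ≤ (2 ^ (q * Fintype.card V) * ((2 * q) ^ Fintype.card V + 4 ^ F.edgeFinset.card * _)) * q :=
        Nat.mul_le_mul_right _ h
    _ = 2 ^ (q * Fintype.card V) * ((2 * q) ^ Fintype.card V * q + 4 ^ F.edgeFinset.card *
        ((univ.filter (fun cs : V → Fin q × Bool =>
        ∃ u v w, F.Adj u v ∧ F.Adj u w ∧ v ≠ w ∧ (cs v).1 = (cs w).1)).card * q)) := by ring
    _ ≤ 2 ^ (q * Fintype.card V) * ((2 * q) ^ Fintype.card V * q + 4 ^ F.edgeFinset.card *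
        ((Fintype.card V) ^ 2 * (2 * q) ^ Fintype.card V)) := by
        apply Nat.mul_le_mul_left
        apply Nat.add_le_add_left
        apply Nat.mul_le_mul_left
        exact (Nat.mul_le_mul_right _ hs').trans hb
    _ = _ := by ring

lemma T1 (F : SimpleGraph V) [DecidableRel F.Adj] (hF : F.CliqueFree 3) (q : ℕ) {u₀ v₀ : V}
    (h₀ : F.Adj u₀ v₀) :
    T F q {s(u₀, v₀)} * 4 ^ F.edgeFinset.card * (2 * q ^ 2) ≤
      (2 ^ (q * Fintype.card V) * (2 * q) ^ Fintype.card V) *
        (q + 4 ^ F.edgeFinset.card * (2 * (Fintype.card V) ^ 2)) := by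
  have h := T_le F q {s(u₀, v₀)}
  set A := univ.filter (fun cs : V → Fin q × Bool =>
    ∀ u v, s(u, v) ∈ ({s(u₀, v₀)} : Finset (Sym2 V)) → (cs u).1 = (cs v).1 ∧ (cs u).2 ≠ (cs v).2)
    with hA
  have hA' : A ⊆ univ.filter (fun cs : V → Fin q × Bool => (cs u₀).1 = (cs v₀).1 ∧
      (cs u₀).2 ≠ (cs v₀).2) := by
    intro cs hcs
    rw [hA, Finset.mem_filter] at hcs
    simpa using hcs.2 u₀ v₀ (by simp)
  have hA1 : A.card * (2 * q) ≤ (2 * q) ^ Fintype.card V :=
    (Nat.mul_le_mul_right _ (Finset.card_le_card hA')).trans (cnt3 q h₀.ne)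
  have hb := bad_le (V := V) q (q ^ 2) A (fun v w => v ≠ w ∧ s(u₀, v₀) ≠ s(v, w)) (by
    intro v w hvw
    have h1 := cntc (V := V) q (fun c => c u₀ = c v₀ ∧ c v = c w)
    have h2 := cnt2 (V := V) q h₀.ne hvw.1 hvw.2
    have h3 : (A.filter (fun cs => (cs v).1 = (cs w).1)) ⊆
      univ.filter (fun cs : V → Fin q × Bool => (cs u₀).1 = (cs v₀).1 ∧ (cs v).1 = (cs w).1) := by
      intro cs hcs
      rw [Finset.mem_filter] at hcs
      have h4 := hA' hcs.1
      simp only [mem_filter, mem_univ, true_and] at h4 ⊢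
      exact ⟨h4.1, hcs.2⟩
    calc _ ≤ ((univ.filter (fun c : V → Fin q => c u₀ = c v₀ ∧ c v = c w)).card *
          2 ^ Fintype.card V) * q ^ 2 := by
          rw [← h1]
          exact Nat.mul_le_mul_right _ (Finset.card_le_card h3)
      _ = ((univ.filter (fun c : V → Fin q => c u₀ = c v₀ ∧ c v = c w)).card * q ^ 2) *
          2 ^ Fintype.card V := by ring
      _ ≤ q ^ Fintype.card V * 2 ^ Fintype.card V := Nat.mul_le_mul_right _ h2
      _ = _ := by rw [← mul_pow]; ring)
  have hs : (univ.filter (fun cs : V → Fin q × Bool =>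
      (∀ u v, s(u, v) ∈ ({s(u₀, v₀)} : Finset (Sym2 V)) →
        (cs u).1 = (cs v).1 ∧ (cs u).2 ≠ (cs v).2) ∧
      ∃ u v w, F.Adj u v ∧ F.Adj u w ∧ v ≠ w ∧ (cs v).1 = (cs w).1)) ⊆
      (A.filter (fun cs : V → Fin q × Bool =>
        ∃ v w, (v ≠ w ∧ s(u₀, v₀) ≠ s(v, w)) ∧ (cs v).1 = (cs w).1)) := by
    intro cs hcs
    rw [Finset.mem_filter] at hcs
    obtain ⟨-, h1, u, v, w, h2, h3, h4, h5⟩ := hcs
    rw [Finset.mem_filter]
    refine ⟨by rw [hA, Finset.mem_filter]; exact ⟨mem_univ _, h1⟩, v, w, ⟨h4, ?_⟩, h5⟩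
    intro heq
    have hvw : F.Adj v w := by
      rw [← SimpleGraph.mem_edgeSet, ← heq, SimpleGraph.mem_edgeSet]
      exact h₀
    apply hF {u, v, w}
    rw [SimpleGraph.is3Clique_triple_iff]
    exact ⟨h2, h3, hvw⟩
  have hs' := Finset.card_le_card hs
  calc _ ≤ (2 ^ (q * Fintype.card V) * (A.card + 4 ^ F.edgeFinset.card * _)) * (2 * q ^ 2) :=
        Nat.mul_le_mul_right _ h
    _ ≤ (2 ^ (q * Fintype.card V) * (A.card + 4 ^ F.edgeFinset.card * (A.filter 
        (fun cs : V → Fin q × Bool =>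
        ∃ v w, (v ≠ w ∧ s(u₀, v₀) ≠ s(v, w)) ∧ (cs v).1 = (cs w).1)).card)) * (2 * q ^ 2) := by
        gcongr
    _ = 2 ^ (q * Fintype.card V) * ((A.card * (2 * q)) * q + 4 ^ F.edgeFinset.card *
        (2 * ((A.filter (fun cs : V → Fin q × Bool =>
        ∃ v w, (v ≠ w ∧ s(u₀, v₀) ≠ s(v, w)) ∧ (cs v).1 = (cs w).1)).card * q ^ 2))) := by ring
    _ ≤ 2 ^ (q * Fintype.card V) * ((2 * q) ^ Fintype.card V * q + 4 ^ F.edgeFinset.card *
        (2 * ((Fintype.card V) ^ 2 * (2 * q) ^ Fintype.card V))) := by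
        gcongr
    _ = _ := by ring

lemma T2 (F : SimpleGraph V) [DecidableRel F.Adj] (q : ℕ) (S : Finset (Sym2 V))
    (hS : S ⊆ F.edgeFinset) (hc : 2 ≤ S.card) :
    T F q S * q ^ 2 ≤ 2 ^ (q * Fintype.card V) * (2 * q) ^ Fintype.card V := by
  obtain ⟨e₁, he₁, e₂, he₂, hne⟩ := Finset.one_lt_card.mp (by omega : 1 < S.card)
  induction e₁ with | _ u v =>
  induction e₂ with | _ u' v' =>
  have huv : u ≠ v := by
    have := hS he₁
    rw [SimpleGraph.mem_edgeFinset, SimpleGraph.mem_edgeSet] at this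
    exact this.ne
  have huv' : u' ≠ v' := by
    have := hS he₂
    rw [SimpleGraph.mem_edgeFinset, SimpleGraph.mem_edgeSet] at this
    exact this.ne
  have h1 := cntc (V := V) q (fun c => c u = c v ∧ c u' = c v')
  have h2 := cnt2 (V := V) q huv huv' hne
  rw [T_eq]
  calc _ ≤ (∑ cs ∈ univ.filter (fun cs : V → Fin q × Bool =>
        ∀ u v, s(u, v) ∈ S → (cs u).1 = (cs v).1 ∧ (cs u).2 ≠ (cs v).2),
        2 ^ (q * Fintype.card V)) * q ^ 2 := by
        apply Nat.mul_le_mul_right
        apply Finset.sum_le_sum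
        intro cs _
        exact fiber_triv F q cs
    _ = (univ.filter (fun cs : V → Fin q × Bool =>
        ∀ u v, s(u, v) ∈ S → (cs u).1 = (cs v).1 ∧ (cs u).2 ≠ (cs v).2)).card *
          (2 ^ (q * Fintype.card V) * q ^ 2) := by
        rw [Finset.sum_const, smul_eq_mul]; ring
    _ ≤ (univ.filter (fun cs : V → Fin q × Bool => (cs u).1 = (cs v).1 ∧
          (cs u').1 = (cs v').1)).card * (2 ^ (q * Fintype.card V) * q ^ 2) := by
        apply Nat.mul_le_mul_right
        apply Finset.card_le_card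
        intro cs
        simp only [mem_filter, mem_univ, true_and]
        intro h
        exact ⟨(h u v he₁).1, (h u' v' he₂).1⟩
    _ = ((univ.filter (fun c : V → Fin q => c u = c v ∧ c u' = c v')).card * q ^ 2) *
          (2 ^ (q * Fintype.card V) * 2 ^ Fintype.card V) := by
        rw [h1]; ring
    _ ≤ q ^ Fintype.card V * (2 ^ (q * Fintype.card V) * 2 ^ Fintype.card V) :=
        Nat.mul_le_mul_right _ h2
    _ = _ := by rw [mul_pow]; ring

/-- the fibre of a labelling of the edges by blocks -/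
def Sl (F : SimpleGraph V) [DecidableRel F.Adj] {k : ℕ} (l : F.edgeFinset → Fin k) (i : Fin k) :
    Finset (Sym2 V) :=
  (univ.filter (fun e : F.edgeFinset => l e = i)).map (Function.Embedding.subtype _)

omit [DecidableEq V] in
lemma Sl_sub (F : SimpleGraph V) [DecidableRel F.Adj] {k : ℕ} (l : F.edgeFinset → Fin k)
    (i : Fin k) : Sl F l i ⊆ F.edgeFinset := by
  intro e he
  simp only [Sl, Finset.mem_map, mem_filter, mem_univ, true_and, Function.Embedding.subtype_apply]
    at he
  obtain ⟨a, _, rfl⟩ := he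
  exact a.2

omit [DecidableEq V] in
lemma Sl_card (F : SimpleGraph V) [DecidableRel F.Adj] {k : ℕ} (l : F.edgeFinset → Fin k)
    (i : Fin k) : (Sl F l i).card = (univ.filter (fun e : F.edgeFinset => l e = i)).card := by
  simp [Sl]

/-- the block graph -/
def H (k q : ℕ) : SimpleGraph (Fin k → Blk q) where
  Adj x y := (∀ i, (x i).1 (y i).2.1 = (y i).2.2 ∧ (y i).1 (x i).2.1 = (x i).2.2) ∧
    ∃ i, (x i).2.1 = (y i).2.1 ∧ (x i).2.2 ≠ (y i).2.2
  symm := ⟨fun x y h => ⟨fun i => ⟨(h.1 i).2, (h.1 i).1⟩, by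
    obtain ⟨i, h1, h2⟩ := h.2
    exact ⟨i, h1.symm, h2.symm⟩⟩⟩
  loopless := ⟨fun x h => by
    obtain ⟨i, _, h2⟩ := h.2
    exact h2 rfl⟩

instance (k q : ℕ) : DecidableRel (H k q).Adj := fun x y => by
  unfold H; infer_instance

lemma H_cliqueFree (k q : ℕ) : (H k q).CliqueFree 3 := by
  intro s hs
  rw [SimpleGraph.is3Clique_iff] at hs
  obtain ⟨x, y, z, hxy, hxz, hyz, _⟩ := hs
  obtain ⟨i, h1, h2⟩ := hxy.2
  apply h2
  have h3 := (hxz.1 i).2
  have h4 := (hyz.1 i).2
  rw [← h3, ← h4, h1]

lemma hom_le (F : SimpleGraph V) [DecidableRel F.Adj] (k q : ℕ) :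
    (univ.filter (fun x : V → Fin k → Blk q => ∀ u v, F.Adj u v → (H k q).Adj (x u) (x v))).card
      ≤ ∑ l : F.edgeFinset → Fin k, ∏ i : Fin k, T F q (Sl F l i) := by
  classical
  have h1 : univ.filter (fun x : V → Fin k → Blk q => ∀ u v, F.Adj u v → (H k q).Adj (x u) (x v)) ⊆
      (univ : Finset (F.edgeFinset → Fin k)).biUnion (fun l =>
        univ.filter (fun x : V → Fin k → Blk q => ∀ i, Ev F (Sl F l i) (fun u => x u i))) := by
    intro x hx
    simp only [mem_filter, mem_univ, true_and] at hx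
    have h2 : ∀ e : F.edgeFinset, ∃ i : Fin k, ∀ u v, s(u, v) = e.1 →
        (x u i).2.1 = (x v i).2.1 ∧ (x u i).2.2 ≠ (x v i).2.2 := by
      rintro ⟨e, he⟩
      induction e with | _ a b =>
      rw [SimpleGraph.mem_edgeFinset, SimpleGraph.mem_edgeSet] at he
      obtain ⟨i, h3, h4⟩ := (hx a b he).2
      refine ⟨i, ?_⟩
      intro u v huv
      rw [Sym2.eq_iff] at huv
      rcases huv with ⟨rfl, rfl⟩ | ⟨rfl, rfl⟩
      · exact ⟨h3, h4⟩
      · exact ⟨h3.symm, h4.symm⟩
    choose l hl using h2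
    rw [Finset.mem_biUnion]
    refine ⟨l, mem_univ _, ?_⟩
    rw [Finset.mem_filter]
    refine ⟨mem_univ _, fun i => ⟨?_, ?_⟩⟩
    · intro u v huv
      exact ((hx u v huv).1 i).1
    · intro u v huv
      simp only [Sl, Finset.mem_map, mem_filter, mem_univ, true_and,
        Function.Embedding.subtype_apply] at huv
      obtain ⟨a, ha, hav⟩ := huv
      have := hl a u v hav.symm
      rw [ha] at this
      exact this
  refine (Finset.card_le_card h1).trans (Finset.card_biUnion_le.trans ?_)
  apply Finset.sum_le_sum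
  intro l _
  apply le_of_eq
  simp only [T]
  rw [← Fintype.card_piFinset]
  apply Finset.card_equiv (Equiv.piComm (fun (_ : V) (_ : Fin k) => Blk q))
  intro x
  rw [Finset.mem_filter, Fintype.mem_piFinset]
  simp only [mem_univ, true_and, mem_filter]
  exact Iff.rfl

end count

/-- sum over labellings weighted by `y^(number of used labels)` -/
lemma sum_image_le {E : Type*} [Fintype E] [DecidableEq E] (k : ℕ) (y : ℝ) (hy : 0 ≤ y) :
    ∑ l : E → Fin k, y ^ (univ.image l).card ≤ (Fintype.card E : ℝ) ^ (Fintype.card E) * (1 + y) ^ k := by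
  classical
  have h1 : ∑ l : E → Fin k, y ^ (univ.image l).card =
      ∑ I : Finset (Fin k), ∑ l ∈ univ.filter (fun l : E → Fin k => univ.image l = I), y ^ I.card := by
    rw [← Finset.sum_fiberwise (s := univ) (g := fun l : E → Fin k => univ.image l)]
    apply Finset.sum_congr rfl
    intro I _
    apply Finset.sum_congr rfl
    intro l hl
    rw [Finset.mem_filter] at hl
    rw [hl.2]
  rw [h1]
  have h2 := Fintype.sum_pow_mul_eq_add_pow (Fin k) y 1
  simp only [one_pow, mul_one, Fintype.card_fin] at h2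
  rw [add_comm 1 y, ← h2, Finset.mul_sum]
  apply Finset.sum_le_sum
  intro I _
  rw [Finset.sum_const, nsmul_eq_mul]
  apply mul_le_mul_of_nonneg_right _ (pow_nonneg hy _)
  by_cases hI : I.card ≤ Fintype.card E
  · have h3 : univ.filter (fun l : E → Fin k => univ.image l = I) ⊆
        Fintype.piFinset (fun _ : E => I) := by
      intro l hl
      rw [Finset.mem_filter] at hl
      rw [Fintype.mem_piFinset]
      intro e
      rw [← hl.2]
      exact Finset.mem_image_of_mem _ (mem_univ _)
    have h4 := Finset.card_le_card h3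
    rw [Fintype.card_piFinset, Finset.prod_const, Finset.card_univ] at h4
    calc ((univ.filter (fun l : E → Fin k => univ.image l = I)).card : ℝ)
        ≤ ((I.card ^ Fintype.card E : ℕ) : ℝ) := by exact_mod_cast h4
      _ = (I.card : ℝ) ^ Fintype.card E := by push_cast; ring
      _ ≤ _ := by
          apply pow_le_pow_left₀ (by positivity)
          exact_mod_cast hI
  · have h3 : univ.filter (fun l : E → Fin k => univ.image l = I) = ∅ := by
      rw [Finset.filter_eq_empty_iff]
      intro l _ hl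
      apply hI
      rw [← hl]
      exact Finset.card_image_le.trans (by rw [Finset.card_univ])
    rw [h3]
    simp only [Finset.card_empty, Nat.cast_zero]
    positivity

section main
variable {V : Type*} [Fintype V] [DecidableEq V]

/-- number of homomorphisms into the block graph -/
def homH (F : SimpleGraph V) [DecidableRel F.Adj] (k q : ℕ) : ℕ :=
  (univ.filter (fun x : V → Fin k → Blk q => ∀ u v, F.Adj u v → (H k q).Adj (x u) (x v))).card

lemma T_bounds (F : SimpleGraph V) [DecidableRel F.Adj] (hF : F.CliqueFree 3) {q : ℕ} (hq : 1 ≤ q)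
    (S : Finset (Sym2 V)) (hS : S ⊆ F.edgeFinset) :
    (T F q S : ℝ) ≤ (2 ^ (q * Fintype.card V) * (2 * q) ^ Fintype.card V) *
      ((1 + 4 ^ F.edgeFinset.card * (2 * (Fintype.card V) ^ 2) / q) / 4 ^ F.edgeFinset.card) *
      ((if S.card = 0 then (1 : ℝ) else if S.card = 1 then 1 / (2 * (q : ℝ)) else
        4 ^ F.edgeFinset.card / (q : ℝ) ^ 2)) := by
  have hq' : (0 : ℝ) < q := by exact_mod_cast hq
  set e := F.edgeFinset.card with he
  set j := Fintype.card V with hj
  have h4 : (0 : ℝ) < 4 ^ e := by positivity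
  split_ifs with h0 h1
  · rw [Finset.card_eq_zero] at h0
    subst h0
    have h := T0 F q
    rw [← he, ← hj] at h
    have h' : (T F q ∅ : ℝ) * 4 ^ e * q ≤ (2 ^ (q * j) * (2 * q) ^ j) * (q + 4 ^ e * j ^ 2) := by
      exact_mod_cast h
    have h2 : (T F q ∅ : ℝ) = (T F q ∅ : ℝ) * 4 ^ e * q / (4 ^ e * q) := by
      field_simp
    rw [h2, div_le_iff₀ (by positivity)]
    refine h'.trans ?_
    have h3 : ((2 : ℝ) ^ (q * j) * (2 * q) ^ j) * ((1 + 4 ^ e * (2 * j ^ 2) / q) / 4 ^ e) * 1 * (4 ^ e * q)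
        = (2 ^ (q * j) * (2 * q) ^ j) * (q + 4 ^ e * (2 * j ^ 2)) := by
      field_simp
    rw [h3]
    apply mul_le_mul_of_nonneg_left _ (by positivity)
    have : (0 : ℝ) ≤ 4 ^ e * j ^ 2 := by positivity
    nlinarith
  · rw [Finset.card_eq_one] at h1
    obtain ⟨a, rfl⟩ := h1
    induction a with | _ u v =>
    have huv : F.Adj u v := by
      have := hS (Finset.mem_singleton_self _)
      rwa [SimpleGraph.mem_edgeFinset, SimpleGraph.mem_edgeSet] at this
    have h := T1 F hF q huv
    rw [← he, ← hj] at h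
    have h' : (T F q {s(u, v)} : ℝ) * 4 ^ e * (2 * q ^ 2) ≤
        (2 ^ (q * j) * (2 * q) ^ j) * (q + 4 ^ e * (2 * j ^ 2)) := by
      exact_mod_cast h
    have h2 : (T F q {s(u, v)} : ℝ) = (T F q {s(u, v)} : ℝ) * 4 ^ e * (2 * q ^ 2) / (4 ^ e * (2 * q ^ 2)) := by
      field_simp
    rw [h2, div_le_iff₀ (by positivity)]
    refine h'.trans (le_of_eq ?_)
    field_simp
  · have hc : 2 ≤ S.card := by omega
    have h := T2 F q S hS hc
    rw [← hj] at h
    have h' : (T F q S : ℝ) * q ^ 2 ≤ (2 ^ (q * j) * (2 * q) ^ j) := by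
      exact_mod_cast h
    have h2 : (T F q S : ℝ) = (T F q S : ℝ) * q ^ 2 / q ^ 2 := by
      field_simp
    rw [h2, div_le_iff₀ (by positivity)]
    refine h'.trans ?_
    have h3 : ((2 : ℝ) ^ (q * j) * (2 * q) ^ j) * ((1 + 4 ^ e * (2 * j ^ 2) / q) / 4 ^ e) *
        (4 ^ e / q ^ 2) * q ^ 2 =
        (2 ^ (q * j) * (2 * q) ^ j) * (1 + 4 ^ e * (2 * j ^ 2) / q) := by
      field_simp
    rw [h3]
    have : (0 : ℝ) ≤ 4 ^ e * (2 * j ^ 2) / q := by positivity
    have h5 : (0 : ℝ) ≤ 2 ^ (q * j) * (2 * q) ^ j := by positivity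
    nlinarith

lemma prod_bound (F : SimpleGraph V) [DecidableRel F.Adj] {k q : ℕ} (hq : 1 ≤ q)
    (l : F.edgeFinset → Fin k) :
    ∏ i : Fin k, (if (Sl F l i).card = 0 then (1 : ℝ) else if (Sl F l i).card = 1 then 1 / (2 * q)
      else 4 ^ F.edgeFinset.card / q ^ 2) ≤
    (1 / (2 * q)) ^ F.edgeFinset.card + (1 / q) *
      (4 ^ F.edgeFinset.card / q) ^ (univ.image l).card := by
  have hq' : (1 : ℝ) ≤ q := by exact_mod_cast hq
  have hq0 : (0 : ℝ) < q := by linarith
  set e := F.edgeFinset.card with he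
  have h4 : (1 : ℝ) ≤ 4 ^ e := one_le_pow₀ (by norm_num)
  have hmem : ∀ i, (Sl F l i).card ≠ 0 ↔ i ∈ univ.image l := by
    intro i
    rw [Sl_card, Finset.card_ne_zero, Finset.filter_nonempty_iff, Finset.mem_image]
  by_cases hl : Function.Injective l
  · have h1 : ∀ i, (Sl F l i).card ≤ 1 := by
      intro i
      rw [Sl_card, Finset.card_le_one]
      intro a ha b hb
      rw [Finset.mem_filter] at ha hb
      exact hl (ha.2.trans hb.2.symm)
    have h2 : ∏ i : Fin k, (if (Sl F l i).card = 0 then (1 : ℝ) else if (Sl F l i).card = 1 then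
        1 / (2 * q) else 4 ^ e / q ^ 2) = ∏ i : Fin k, (if i ∈ univ.image l then (1 / (2 * (q : ℝ)))
        else 1) := by
      apply Finset.prod_congr rfl
      intro i _
      by_cases hi : (Sl F l i).card = 0
      · rw [if_pos hi, if_neg]
        rw [← hmem]; simpa using hi
      · rw [if_neg hi, if_pos (by have := h1 i; omega), if_pos ((hmem i).mp hi)]
    rw [h2, Finset.prod_ite_mem, Finset.univ_inter, Finset.prod_const,
      Finset.card_image_of_injective _ hl, Finset.card_univ]
    have h3 : Fintype.card F.edgeFinset = e := by rw [Fintype.card_coe]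
    rw [h3]
    have : (0 : ℝ) ≤ (1 / q) * (4 ^ e / q) ^ e := by positivity
    linarith
  · have h1 : ∃ i₀, 2 ≤ (Sl F l i₀).card := by
      rw [Function.not_injective_iff] at hl
      obtain ⟨a, b, hab, hne⟩ := hl
      refine ⟨l a, ?_⟩
      rw [Sl_card]
      have : 1 < (univ.filter (fun e : F.edgeFinset => l e = l a)).card := by
        rw [Finset.one_lt_card]
        exact ⟨a, by simp, b, by simp [hab], hne⟩
      exact this
    obtain ⟨i₀, hi₀⟩ := h1
    have h2 : ∏ i : Fin k, (if (Sl F l i).card = 0 then (1 : ℝ) else if (Sl F l i).card = 1 then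
        1 / (2 * q) else 4 ^ e / q ^ 2) ≤
        ∏ i : Fin k, ((if i ∈ univ.image l then (4 ^ e / (q : ℝ)) else 1) *
          (if i = i₀ then 1 / (q : ℝ) else 1)) := by
      apply Finset.prod_le_prod
      · intro i _
        split_ifs <;> positivity
      · intro i _
        by_cases hi : (Sl F l i).card = 0
        · have h5 : i ∉ univ.image l := by rw [← hmem]; simpa using hi
          have h6 : i ≠ i₀ := by rintro rfl; omega
          rw [if_pos hi, if_neg h5, if_neg h6]; norm_num
        · rw [if_neg hi, if_pos ((hmem i).mp hi)]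
          by_cases h6 : i = i₀
          · subst h6
            rw [if_neg (by omega), if_pos rfl]
            apply le_of_eq
            field_simp
          · rw [if_neg h6, mul_one]
            split_ifs
            · rw [div_le_div_iff₀ (by positivity) (by positivity)]
              nlinarith
            · rw [div_le_div_iff₀ (by positivity) (by positivity)]
              nlinarith [mul_le_mul_of_nonneg_left hq' (by positivity : (0 : ℝ) ≤ 4 ^ e * q)]
    refine h2.trans ?_
    rw [Finset.prod_mul_distrib, Finset.prod_ite_mem, Finset.univ_inter, Finset.prod_const,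
      Finset.prod_ite_eq' univ i₀, if_pos (mem_univ _)]
    have : (0 : ℝ) ≤ (1 / (2 * q)) ^ e := by positivity
    nlinarith

lemma homH_le (F : SimpleGraph V) [DecidableRel F.Adj] (hF : F.CliqueFree 3) {k q : ℕ}
    (hq : 1 ≤ q) (hk : k ≤ q) :
    (homH F k q : ℝ) ≤ ((2 ^ (q * Fintype.card V) * (2 * q) ^ Fintype.card V) *
      ((1 + 4 ^ F.edgeFinset.card * (2 * (Fintype.card V) ^ 2) / q) / 4 ^ F.edgeFinset.card)) ^ k *
      ((k / (2 * q)) ^ F.edgeFinset.card +
        (F.edgeFinset.card : ℝ) ^ F.edgeFinset.card * Real.exp (4 ^ F.edgeFinset.card) / q) := by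
  have hq' : (1 : ℝ) ≤ q := by exact_mod_cast hq
  have hq0 : (0 : ℝ) < q := by linarith
  set e := F.edgeFinset.card with he
  set j := Fintype.card V with hj
  set B : ℝ := (2 ^ (q * j) * (2 * q) ^ j) * ((1 + 4 ^ e * (2 * j ^ 2) / q) / 4 ^ e) with hB
  have hB0 : 0 ≤ B := by positivity
  have h1 : (homH F k q : ℝ) ≤ ∑ l : F.edgeFinset → Fin k, ∏ i : Fin k, (T F q (Sl F l i) : ℝ) := by
    have := hom_le F k q
    exact_mod_cast this
  refine h1.trans ?_
  have h2 : ∀ l : F.edgeFinset → Fin k, ∏ i : Fin k, (T F q (Sl F l i) : ℝ) ≤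
      B ^ k * ((1 / (2 * q)) ^ e + (1 / q) * (4 ^ e / q) ^ (univ.image l).card) := by
    intro l
    calc ∏ i : Fin k, (T F q (Sl F l i) : ℝ) ≤ ∏ i : Fin k, (B *
          (if (Sl F l i).card = 0 then (1 : ℝ) else if (Sl F l i).card = 1 then 1 / (2 * q)
            else 4 ^ e / q ^ 2)) := by
          apply Finset.prod_le_prod (fun _ _ => Nat.cast_nonneg _)
          intro i _
          exact T_bounds F hF hq _ (Sl_sub F l i)
      _ = B ^ k * ∏ i : Fin k, (if (Sl F l i).card = 0 then (1 : ℝ) else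
            if (Sl F l i).card = 1 then 1 / (2 * q) else 4 ^ e / q ^ 2) := by
          rw [Finset.prod_mul_distrib, Finset.prod_const, Finset.card_univ, Fintype.card_fin]
      _ ≤ _ := by
          apply mul_le_mul_of_nonneg_left _ (pow_nonneg hB0 _)
          exact prod_bound F hq l
  refine (Finset.sum_le_sum (fun l _ => h2 l)).trans ?_
  rw [← Finset.mul_sum]
  apply mul_le_mul_of_nonneg_left _ (pow_nonneg hB0 _)
  rw [Finset.sum_add_distrib, Finset.sum_const, ← Finset.mul_sum]
  have h3 : (univ : Finset (F.edgeFinset → Fin k)).card = k ^ e := by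
    rw [Finset.card_univ, Fintype.card_fun, Fintype.card_fin, Fintype.card_coe]
  rw [h3, nsmul_eq_mul]
  have h4 : ((k ^ e : ℕ) : ℝ) * (1 / (2 * q)) ^ e = (k / (2 * q)) ^ e := by
    push_cast
    rw [← mul_pow]
    congr 1
    ring
  rw [h4]
  apply add_le_add_right
  have h5 := sum_image_le (E := F.edgeFinset) k (4 ^ e / q) (by positivity)
  have h6 : Fintype.card F.edgeFinset = e := by rw [Fintype.card_coe]
  rw [h6] at h5
  have h7 : (1 + (4 : ℝ) ^ e / q) ^ k ≤ Real.exp (4 ^ e) := by
    calc (1 + (4 : ℝ) ^ e / q) ^ k ≤ (Real.exp (4 ^ e / q)) ^ k := by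
          apply pow_le_pow_left₀ (by positivity)
          rw [add_comm]
          exact Real.add_one_le_exp _
      _ = Real.exp (k * (4 ^ e / q)) := by rw [← Real.exp_nat_mul]
      _ ≤ _ := by
          apply Real.exp_le_exp.mpr
          have hk' : (k : ℝ) ≤ q := by exact_mod_cast hk
          rw [mul_div_assoc', div_le_iff₀ hq0]
          nlinarith [pow_pos (by norm_num : (0 : ℝ) < 4) e]
  calc (1 / (q : ℝ)) * ∑ l : F.edgeFinset → Fin k, (4 ^ e / (q : ℝ)) ^ (univ.image l).card ≤
        (1 / q) * ((e : ℝ) ^ e * (1 + 4 ^ e / q) ^ k) := by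
        apply mul_le_mul_of_nonneg_left h5 (by positivity)
    _ ≤ (1 / q) * ((e : ℝ) ^ e * Real.exp (4 ^ e)) := by
        gcongr
    _ = _ := by ring

end main

section pairs

/-- ordered adjacent pairs of the block graph -/
def prs (k q : ℕ) : ℕ :=
  (univ.filter (fun p : (Fin k → Blk q) × (Fin k → Blk q) => (H k q).Adj p.1 p.2)).card

def Rr {q : ℕ} (p : Blk q × Blk q) : Prop :=
  p.1.1 p.2.2.1 = p.2.2.2 ∧ p.2.1 p.1.2.1 = p.1.2.2

def Dd {q : ℕ} (p : Blk q × Blk q) : Prop :=
  p.1.2.1 = p.2.2.1 ∧ p.1.2.2 ≠ p.2.2.2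

instance {q : ℕ} : DecidablePred (Rr (q := q)) := fun p => by unfold Rr; infer_instance
instance {q : ℕ} : DecidablePred (Dd (q := q)) := fun p => by unfold Dd; infer_instance

lemma card_Rr (q : ℕ) : (univ.filter (fun p : Blk q × Blk q => Rr p)).card = (2 ^ q * q) ^ 2 := by
  have h : (2 ^ q * q) ^ 2 =
      (univ : Finset (((Fin q → Bool) × Fin q) × ((Fin q → Bool) × Fin q))).card := by
    simp [sq]
  rw [h]
  apply Finset.card_nbij' (fun p : Blk q × Blk q => ((p.1.1, p.1.2.1), (p.2.1, p.2.2.1)))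
    (fun r : ((Fin q → Bool) × Fin q) × ((Fin q → Bool) × Fin q) =>
      ((r.1.1, (r.1.2, r.2.1 r.1.2)), (r.2.1, (r.2.2, r.1.1 r.2.2))))
  · intro p _; simp
  · intro r _
    exact Finset.mem_coe.mpr (Finset.mem_filter.mpr ⟨mem_univ _, rfl, rfl⟩)
  · rintro ⟨⟨a, c, s⟩, ⟨a', c', s'⟩⟩ hp
    obtain ⟨h1, h2⟩ := (Finset.mem_filter.mp (Finset.mem_coe.mp hp)).2
    simp only at h1 h2
    simp [h1, h2]
  · intro r _; rfl

lemma card_flip (q : ℕ) :
    2 * (univ.filter (fun r : ((Fin q → Bool) × (Fin q → Bool)) × Fin q =>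
      r.1.1 r.2 ≠ r.1.2 r.2)).card = (2 ^ q) ^ 2 * q := by
  have h1 := Finset.card_filter_add_card_filter_not
    (s := (univ : Finset (((Fin q → Bool) × (Fin q → Bool)) × Fin q)))
    (fun r => r.1.1 r.2 ≠ r.1.2 r.2)
  have h2 : (univ.filter (fun r : ((Fin q → Bool) × (Fin q → Bool)) × Fin q =>
      r.1.1 r.2 ≠ r.1.2 r.2)).card = (univ.filter (fun r : ((Fin q → Bool) × (Fin q → Bool)) × Fin q =>
      ¬ r.1.1 r.2 ≠ r.1.2 r.2)).card := by
    apply Finset.card_nbij' (fun r => ((r.1.1, Function.update r.1.2 r.2 (!(r.1.2 r.2))), r.2))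
      (fun r => ((r.1.1, Function.update r.1.2 r.2 (!(r.1.2 r.2))), r.2))
    · intro r hr
      simp only [coe_filter, mem_univ, true_and, Set.mem_ofPred_eq] at hr
      simp only [coe_filter, mem_univ, true_and, Set.mem_ofPred_eq, Function.update_self]
      revert hr
      cases r.1.1 r.2 <;> cases r.1.2 r.2 <;> simp
    · intro r hr
      simp only [coe_filter, mem_univ, true_and, Set.mem_ofPred_eq] at hr
      simp only [coe_filter, mem_univ, true_and, Set.mem_ofPred_eq, Function.update_self]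
      revert hr
      cases r.1.1 r.2 <;> cases r.1.2 r.2 <;> simp
    · intro r _; simp
    · intro r _; simp
  rw [← h2] at h1
  have h3 : (univ : Finset (((Fin q → Bool) × (Fin q → Bool)) × Fin q)).card = (2 ^ q) ^ 2 * q := by
    simp [sq]
  rw [h3] at h1
  omega

lemma card_RD (q : ℕ) :
    2 * (univ.filter (fun p : Blk q × Blk q => Rr p ∧ Dd p)).card = (2 ^ q) ^ 2 * q := by
  rw [← card_flip]
  congr 1
  apply Finset.card_nbij' (fun p : Blk q × Blk q => ((p.1.1, p.2.1), p.1.2.1))
    (fun r : ((Fin q → Bool) × (Fin q → Bool)) × Fin q =>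
      ((r.1.1, (r.2, r.1.2 r.2)), (r.1.2, (r.2, r.1.1 r.2))))
  · rintro ⟨⟨a, c, s⟩, ⟨a', c', s'⟩⟩ hp
    obtain ⟨⟨h1, h2⟩, h3, h4⟩ := (Finset.mem_filter.mp (Finset.mem_coe.mp hp)).2
    simp only at h1 h2 h3 h4
    subst h3
    refine Finset.mem_coe.mpr (Finset.mem_filter.mpr ⟨mem_univ _, ?_⟩)
    simp only
    rw [h1, h2]
    exact h4.symm
  · rintro ⟨⟨a, a'⟩, c⟩ hr
    have hr' := (Finset.mem_filter.mp (Finset.mem_coe.mp hr)).2
    refine Finset.mem_coe.mpr (Finset.mem_filter.mpr ⟨mem_univ _, ⟨rfl, rfl⟩, rfl, ?_⟩)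
    exact fun h => hr' h.symm
  · rintro ⟨⟨a, c, s⟩, ⟨a', c', s'⟩⟩ hp
    obtain ⟨⟨h1, h2⟩, h3, h4⟩ := (Finset.mem_filter.mp (Finset.mem_coe.mp hp)).2
    simp only at h1 h2 h3 h4
    subst h3
    simp [h1, h2]
  · intro r _; rfl

lemma prs_eq (k q : ℕ) : prs k q + (univ.filter (fun p : Blk q × Blk q => Rr p ∧ ¬ Dd p)).card ^ k =
    (univ.filter (fun p : Blk q × Blk q => Rr p)).card ^ k := by
  classical
  have h1 : prs k q = (univ.filter (fun z : Fin k → Blk q × Blk q =>
      (∀ i, Rr (z i)) ∧ ∃ i, Dd (z i))).card := by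
    symm
    apply Finset.card_equiv (Equiv.arrowProdEquivProdArrow (Fin k) (fun _ => Blk q) (fun _ => Blk q))
    intro z
    rw [Finset.mem_filter, Finset.mem_filter]
    simp only [Finset.mem_univ, true_and]
    exact Iff.rfl
  have h2 : ∀ P : Blk q × Blk q → Prop, ∀ [DecidablePred P],
      (univ.filter (fun p : Blk q × Blk q => P p)).card ^ k =
      (univ.filter (fun z : Fin k → Blk q × Blk q => ∀ i, P (z i))).card := by
    intro P _
    have h3 : univ.filter (fun z : Fin k → Blk q × Blk q => ∀ i, P (z i)) =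
        Fintype.piFinset (fun _ : Fin k => univ.filter (fun p : Blk q × Blk q => P p)) := by
      ext z
      simp [Fintype.mem_piFinset]
    rw [h3, Fintype.card_piFinset, Finset.prod_const, Finset.card_univ, Fintype.card_fin]
  rw [h1, h2 (fun p => Rr p ∧ ¬ Dd p), h2 (fun p => Rr p), ← Finset.card_union_of_disjoint]
  · congr 1
    ext z
    simp only [mem_union, mem_filter, mem_univ, true_and]
    constructor
    · rintro (h | h)
      · exact h.1
      · exact fun i => (h i).1
    · intro h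
      by_cases h4 : ∃ i, Dd (z i)
      · exact Or.inl ⟨h, h4⟩
      · right
        intro i
        exact ⟨h i, fun h5 => h4 ⟨i, h5⟩⟩
  · rw [Finset.disjoint_left]
    intro z hz hz'
    simp only [mem_filter, mem_univ, true_and] at hz hz'
    obtain ⟨i, hi⟩ := hz.2
    exact (hz' i).2 hi

lemma bern (x : ℝ) (hx0 : 0 ≤ x) (hx1 : x ≤ 1) (k : ℕ) :
    (1 - x) ^ k ≤ 1 - k * x + (k * x) ^ 2 / 2 := by
  induction k with
  | zero => simp
  | succ k ih =>
    rw [pow_succ]
    have h1 : (1 - x) ^ k * (1 - x) ≤ (1 - k * x + (k * x) ^ 2 / 2) * (1 - x) :=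
      mul_le_mul_of_nonneg_right ih (by linarith)
    refine h1.trans ?_
    push_cast
    have hk : (0 : ℝ) ≤ k := Nat.cast_nonneg k
    nlinarith [mul_nonneg (mul_nonneg hk hk) (mul_nonneg (mul_nonneg hx0 hx0) hx0), sq_nonneg x,
      mul_nonneg hk (sq_nonneg x)]

lemma prs_lower {k q : ℕ} (hq : 1 ≤ q) :
    (((2 : ℝ) ^ q * (2 * q)) ^ 2 / 4) ^ k * ((k / (2 * q)) * (1 - k / (4 * q))) ≤ (prs k q : ℝ) := by
  have hq' : (1 : ℝ) ≤ q := by exact_mod_cast hq
  have hq0 : (0 : ℝ) < q := by linarith
  have h1 := prs_eq k q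
  have h2 := card_Rr q
  have h3 := card_RD q
  have h4 := Finset.card_filter_add_card_filter_not
    (s := (univ.filter (fun p : Blk q × Blk q => Rr p))) (fun p => Dd p)
  rw [Finset.filter_filter, Finset.filter_filter] at h4
  set r := (univ.filter (fun p : Blk q × Blk q => Rr p)).card with hr
  set rd := (univ.filter (fun p : Blk q × Blk q => Rr p ∧ Dd p)).card with hrd
  set nd := (univ.filter (fun p : Blk q × Blk q => Rr p ∧ ¬ Dd p)).card with hnd
  have h1' : (prs k q : ℝ) = (r : ℝ) ^ k - (nd : ℝ) ^ k := by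
    rw [eq_sub_iff_add_eq]; exact_mod_cast h1
  have h2' : (r : ℝ) = ((2 : ℝ) ^ q * (2 * q)) ^ 2 / 4 := by
    rw [h2]; push_cast; ring
  have h3' : (rd : ℝ) = r * (1 / (2 * q)) := by
    have : (2 : ℝ) * rd = (2 ^ q) ^ 2 * q := by exact_mod_cast h3
    rw [h2']
    field_simp
    linarith
  have h4' : (nd : ℝ) = r * (1 - 1 / (2 * q)) := by
    have : (rd : ℝ) + nd = r := by exact_mod_cast h4
    rw [h3'] at this
    linarith
  rw [h1', h4', mul_pow (r : ℝ), h2']
  have h5 := bern (1 / (2 * q)) (by positivity) (by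
    rw [div_le_one (by positivity)]; linarith) k
  have h6 : (0 : ℝ) ≤ (((2 : ℝ) ^ q * (2 * q)) ^ 2 / 4) ^ k := by positivity
  have h7 : ((((2 : ℝ) ^ q * (2 * q)) ^ 2 / 4) ^ k) * ((k / (2 * q)) * (1 - k / (4 * q))) =
    ((((2 : ℝ) ^ q * (2 * q)) ^ 2 / 4) ^ k) * (1 - (1 - k * (1 / (2 * q)) + (k * (1 / (2 * q))) ^ 2 / 2)) := by
    congr 1
    field_simp
    ring
  rw [h7]
  nlinarith [mul_le_mul_of_nonneg_left h5 h6]

end pairs

end Pool.Agent.helper58.TF
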