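import Mathlib

namespace Pool.Agent.helper58.TF
open Finset Filter Topology

section blow

/-- copies as injective maps -/
def copyEquiv {V W : Type*} (F : SimpleGraph V) (G : SimpleGraph W) :
    F.Copy G ≃ {f : V → W // Function.Injective f ∧ ∀ u v, F.Adj u v → G.Adj (f u) (f v)} where
  toFun c := ⟨c.toHom, c.injective', fun _ _ h => c.toHom.map_rel h⟩
  invFun f := ⟨⟨f.1, fun {u v} h => f.2.2 u v h⟩, f.2.1⟩
  left_inv _ := rfl
  right_inv _ := rfl

lemma lcc_eq {V W : Type*} [Fintype V] [Fintype W] [DecidableEq V] [DecidableEq W]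
    (F : SimpleGraph V) (G : SimpleGraph W) [DecidableRel F.Adj] [DecidableRel G.Adj] :
    G.labelledCopyCount F = (univ.filter (fun f : V → W => Function.Injective f ∧
      ∀ u v, F.Adj u v → G.Adj (f u) (f v))).card := by
  have h : G.labelledCopyCount F = Nat.card (F.Copy G) := by
    unfold SimpleGraph.labelledCopyCount
    exact (@Nat.card_eq_fintype_card _ (_)).symm
  rw [h, Nat.card_congr (copyEquiv F G), Nat.card_eq_fintype_card, Fintype.card_subtype]

lemma lcc_le {V W : Type*} [Fintype V] [Fintype W] [DecidableEq V] [DecidableEq W]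
    (F : SimpleGraph V) (G : SimpleGraph W) [DecidableRel F.Adj] [DecidableRel G.Adj] :
    G.labelledCopyCount F ≤ (univ.filter (fun f : V → W =>
      ∀ u v, F.Adj u v → G.Adj (f u) (f v))).card := by
  rw [lcc_eq]
  apply Finset.card_le_card
  intro f hf
  rw [Finset.mem_filter] at hf ⊢
  exact ⟨mem_univ _, hf.2.2⟩

/-- balanced map -/
def bmap (N n : ℕ) (hN : 0 < N) (i : Fin n) : Fin N := ⟨i.1 % N, Nat.mod_lt _ hN⟩

lemma fib_card (N n : ℕ) (hN : 0 < N) (w : Fin N) :
    (n : ℝ) / N - 1 ≤ ((univ.filter (fun i : Fin n => bmap N n hN i = w)).card : ℝ) ∧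
    ((univ.filter (fun i : Fin n => bmap N n hN i = w)).card : ℝ) ≤ (n : ℝ) / N + 1 := by
  have h1 : (univ.filter (fun i : Fin n => bmap N n hN i = w)).card = n.count (· ≡ w.1 [MOD N]) := by
    rw [Nat.count_eq_card_filter_range]
    apply Finset.card_nbij (fun i => i.1)
    · intro i hi
      have hi' := (Finset.mem_filter.mp (Finset.mem_coe.mp hi)).2
      refine Finset.mem_coe.mpr (Finset.mem_filter.mpr ⟨Finset.mem_range.mpr i.2, ?_⟩)
      have := congrArg Fin.val hi'
      simp only [bmap] at this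
      rw [Nat.ModEq, this, Nat.mod_eq_of_lt w.2]
    · intro i _ j _ h
      exact Fin.ext h
    · intro i hi
      have hi' := (Finset.mem_filter.mp (Finset.mem_coe.mp hi))
      refine ⟨⟨i, Finset.mem_range.mp hi'.1⟩, ?_, rfl⟩
      refine Finset.mem_coe.mpr (Finset.mem_filter.mpr ⟨mem_univ _, ?_⟩)
      apply Fin.ext
      have := hi'.2
      rw [Nat.ModEq, Nat.mod_eq_of_lt w.2] at this
      exact this
  rw [h1, Nat.count_modEq_card _ hN]
  have hN' : (0 : ℝ) < N := by exact_mod_cast hN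
  have h2 : ((n / N : ℕ) : ℝ) ≤ n / N := Nat.cast_div_le
  have h3 : (n : ℝ) / N - 1 ≤ ((n / N : ℕ) : ℝ) := by
    rw [sub_le_iff_le_add, div_le_iff₀ hN']
    have h4 : n < (n / N + 1) * N := by
      rw [mul_comm]; exact Nat.lt_mul_div_succ n hN
    have : (n : ℝ) < ((n / N : ℕ) + 1) * N := by exact_mod_cast h4
    linarith
  push_cast
  split_ifs <;> constructor <;> linarith

variable {W : Type*} [Fintype W] [DecidableEq W]

/-- the blow-up of a graph to `n` vertices -/
def blow (Hg : SimpleGraph W) {N : ℕ} (e : W ≃ Fin N) (hN : 0 < N) (n : ℕ) : SimpleGraph (Fin n) :=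
  Hg.comap (fun i => e.symm (bmap N n hN i))

instance (Hg : SimpleGraph W) [DecidableRel Hg.Adj] {N : ℕ} (e : W ≃ Fin N) (hN : 0 < N) (n : ℕ) :
    DecidableRel (blow Hg e hN n).Adj := fun x y => by
  unfold blow; infer_instance

omit [Fintype W] in
lemma blow_cliqueFree (Hg : SimpleGraph W) (h : Hg.CliqueFree 3) {N : ℕ} (e : W ≃ Fin N)
    (hN : 0 < N) (n : ℕ) : (blow Hg e hN n).CliqueFree 3 := by
  classical
  intro s hs
  rw [SimpleGraph.is3Clique_iff] at hs
  obtain ⟨x, y, z, hxy, hxz, hyz, _⟩ := hs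
  apply h {e.symm (bmap N n hN x), e.symm (bmap N n hN y), e.symm (bmap N n hN z)}
  rw [SimpleGraph.is3Clique_triple_iff]
  exact ⟨hxy, hxz, hyz⟩

omit [Fintype W] in
lemma fib_card' {N : ℕ} (e : W ≃ Fin N) (hN : 0 < N) (n : ℕ) (w : W) :
    (n : ℝ) / N - 1 ≤ ((univ.filter (fun i : Fin n => e.symm (bmap N n hN i) = w)).card : ℝ) ∧
    ((univ.filter (fun i : Fin n => e.symm (bmap N n hN i) = w)).card : ℝ) ≤ (n : ℝ) / N + 1 := by
  have h := fib_card N n hN (e w)
  have h2 : (univ.filter (fun i : Fin n => e.symm (bmap N n hN i) = w)) =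
      (univ.filter (fun i : Fin n => bmap N n hN i = e w)) := by
    ext i
    simp only [mem_filter, mem_univ, true_and]
    exact Equiv.symm_apply_eq e
  rw [h2]
  exact h

lemma blow_hom_le {V : Type*} [Fintype V] [DecidableEq V] (F : SimpleGraph V) [DecidableRel F.Adj]
    (Hg : SimpleGraph W) [DecidableRel Hg.Adj] {N : ℕ} (e : W ≃ Fin N) (hN : 0 < N) (n : ℕ) :
    ((univ.filter (fun f : V → Fin n => ∀ u v, F.Adj u v → (blow Hg e hN n).Adj (f u) (f v))).card : ℝ)
      ≤ ((univ.filter (fun h : V → W => ∀ u v, F.Adj u v → Hg.Adj (h u) (h v))).card : ℝ) *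
        ((n : ℝ) / N + 1) ^ Fintype.card V := by
  classical
  have h1 := Finset.card_eq_sum_card_fiberwise
    (s := (univ.filter (fun f : V → Fin n => ∀ u v, F.Adj u v → (blow Hg e hN n).Adj (f u) (f v))))
    (t := (univ.filter (fun h : V → W => ∀ u v, F.Adj u v → Hg.Adj (h u) (h v))))
    (f := fun f : V → Fin n => fun v => e.symm (bmap N n hN (f v)))
    (by
      intro f hf
      have hf' := (Finset.mem_filter.mp (Finset.mem_coe.mp hf)).2
      exact Finset.mem_coe.mpr (Finset.mem_filter.mpr ⟨mem_univ _, fun u v huv => hf' u v huv⟩))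
  rw [h1]
  push_cast
  rw [← nsmul_eq_mul, ← Finset.sum_const]
  apply Finset.sum_le_sum
  intro h _
  calc ((((univ.filter (fun f : V → Fin n => ∀ u v, F.Adj u v → (blow Hg e hN n).Adj (f u) (f v)))).filter
        (fun f => (fun v => e.symm (bmap N n hN (f v))) = h)).card : ℝ)
      ≤ ((Fintype.piFinset (fun v : V => univ.filter (fun i : Fin n => e.symm (bmap N n hN i) = h v))).card : ℝ) := by
        norm_cast
        apply Finset.card_le_card
        intro f hf
        rw [Finset.mem_filter] at hf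
        rw [Fintype.mem_piFinset]
        intro v
        rw [Finset.mem_filter]
        exact ⟨mem_univ _, congrFun hf.2 v⟩
    _ = ∏ v : V, ((univ.filter (fun i : Fin n => e.symm (bmap N n hN i) = h v)).card : ℝ) := by
        rw [Fintype.card_piFinset]; push_cast; rfl
    _ ≤ ∏ v : V, ((n : ℝ) / N + 1) := by
        apply Finset.prod_le_prod (fun _ _ => Nat.cast_nonneg _)
        intro v _
        exact (fib_card' e hN n (h v)).2
    _ = _ := by rw [Finset.prod_const, Finset.card_univ]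

lemma blow_pairs_ge (Hg : SimpleGraph W) [DecidableRel Hg.Adj] {N : ℕ} (e : W ≃ Fin N) (hN : 0 < N)
    (n : ℕ) (hn : N ≤ n) :
    ((univ.filter (fun p : W × W => Hg.Adj p.1 p.2)).card : ℝ) * ((n : ℝ) / N - 1) ^ 2 ≤
    ((univ.filter (fun p : Fin n × Fin n => (blow Hg e hN n).Adj p.1 p.2)).card : ℝ) := by
  classical
  have h1 := Finset.card_eq_sum_card_fiberwise
    (s := (univ.filter (fun p : Fin n × Fin n => (blow Hg e hN n).Adj p.1 p.2)))
    (t := (univ.filter (fun p : W × W => Hg.Adj p.1 p.2)))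
    (f := fun p : Fin n × Fin n => (e.symm (bmap N n hN p.1), e.symm (bmap N n hN p.2)))
    (by
      intro f hf
      have hf' := (Finset.mem_filter.mp (Finset.mem_coe.mp hf)).2
      exact Finset.mem_coe.mpr (Finset.mem_filter.mpr ⟨mem_univ _, hf'⟩))
  rw [h1]
  push_cast
  rw [← nsmul_eq_mul, ← Finset.sum_const]
  apply Finset.sum_le_sum
  rintro ⟨w, w'⟩ hw
  rw [Finset.mem_filter] at hw
  have hN' : (0 : ℝ) < N := by exact_mod_cast hN
  have hnn : (0 : ℝ) ≤ (n : ℝ) / N - 1 := by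
    rw [sub_nonneg, one_le_div hN']
    exact_mod_cast hn
  have h2 : ((univ.filter (fun i : Fin n => e.symm (bmap N n hN i) = w)) ×ˢ
      (univ.filter (fun i : Fin n => e.symm (bmap N n hN i) = w'))) ⊆
      ((univ.filter (fun p : Fin n × Fin n => (blow Hg e hN n).Adj p.1 p.2)).filter
        (fun p => (e.symm (bmap N n hN p.1), e.symm (bmap N n hN p.2)) = (w, w'))) := by
    rintro ⟨i, j⟩ hij
    rw [Finset.mem_product, Finset.mem_filter, Finset.mem_filter] at hij
    rw [Finset.mem_filter, Finset.mem_filter]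
    refine ⟨⟨mem_univ _, ?_⟩, ?_⟩
    · change Hg.Adj (e.symm (bmap N n hN i)) (e.symm (bmap N n hN j))
      rw [hij.1.2, hij.2.2]
      exact hw.2
    · simp only
      rw [hij.1.2, hij.2.2]
  have h3 := Finset.card_le_card h2
  rw [Finset.card_product] at h3
  calc ((n : ℝ) / N - 1) ^ 2 = ((n : ℝ) / N - 1) * ((n : ℝ) / N - 1) := sq _
    _ ≤ ((univ.filter (fun i : Fin n => e.symm (bmap N n hN i) = w)).card : ℝ) *
        ((univ.filter (fun i : Fin n => e.symm (bmap N n hN i) = w')).card : ℝ) := by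
        apply mul_le_mul (fib_card' e hN n w).1 (fib_card' e hN n w').1 hnn (Nat.cast_nonneg _)
    _ ≤ _ := by exact_mod_cast h3

end blow

section c4

lemma c4_hom {n : ℕ} (G : SimpleGraph (Fin n)) [DecidableRel G.Adj] :
    (univ.filter (fun p : Fin n × Fin n => G.Adj p.1 p.2)).card ^ 4 ≤
    n ^ 4 * (univ.filter (fun r : (Fin n × Fin n) × (Fin n × Fin n) =>
      (G.Adj r.1.1 r.2.1 ∧ G.Adj r.2.1 r.1.2) ∧ (G.Adj r.1.1 r.2.2 ∧ G.Adj r.2.2 r.1.2))).card := by
  classical
  set A : Fin n → Fin n → ℕ := fun x y => if G.Adj x y then 1 else 0 with hA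
  have hsymm : ∀ x y, A x y = A y x := by
    intro x y
    simp only [hA]
    simp only [G.adj_comm x y]
  have h1 : (univ.filter (fun p : Fin n × Fin n => G.Adj p.1 p.2)).card =
      ∑ y, ∑ x, A x y := by
    rw [Finset.card_filter, Fintype.sum_prod_type_right]
  have h2 : (univ.filter (fun r : (Fin n × Fin n) × (Fin n × Fin n) =>
      (G.Adj r.1.1 r.2.1 ∧ G.Adj r.2.1 r.1.2) ∧ (G.Adj r.1.1 r.2.2 ∧ G.Adj r.2.2 r.1.2))).card =
      ∑ p : Fin n × Fin n, (∑ y, A p.1 y * A y p.2) ^ 2 := by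
    rw [Finset.card_filter, Fintype.sum_prod_type]
    apply Finset.sum_congr rfl
    intro p _
    rw [sq, Finset.sum_mul_sum, Fintype.sum_prod_type]
    apply Finset.sum_congr rfl
    intro y _
    apply Finset.sum_congr rfl
    intro w _
    simp only [hA]
    by_cases h1 : G.Adj p.1 y <;> by_cases h2 : G.Adj y p.2 <;> by_cases h3 : G.Adj p.1 w <;>
      by_cases h4 : G.Adj w p.2 <;> simp [h1, h2, h3, h4]
  have h3 : ∑ p : Fin n × Fin n, (∑ y, A p.1 y * A y p.2) = ∑ y, (∑ x, A x y) ^ 2 := by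
    rw [Finset.sum_comm]
    apply Finset.sum_congr rfl
    intro y _
    rw [sq, Finset.sum_mul_sum, Fintype.sum_prod_type]
    apply Finset.sum_congr rfl
    intro x _
    apply Finset.sum_congr rfl
    intro z _
    rw [hsymm y z]
  have h4 : (∑ y, ∑ x, A x y) ^ 2 ≤ n * ∑ y, (∑ x, A x y) ^ 2 := by
    have := sq_sum_le_card_mul_sum_sq (s := (univ : Finset (Fin n))) (f := fun y => ∑ x, A x y)
    simpa using this
  have h5 : (∑ p : Fin n × Fin n, (∑ y, A p.1 y * A y p.2)) ^ 2 ≤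
      n ^ 2 * ∑ p : Fin n × Fin n, (∑ y, A p.1 y * A y p.2) ^ 2 := by
    have := sq_sum_le_card_mul_sum_sq (s := (univ : Finset (Fin n × Fin n)))
      (f := fun p => ∑ y, A p.1 y * A y p.2)
    simpa [sq] using this
  rw [h1, h2]
  calc (∑ y, ∑ x, A x y) ^ 4 = ((∑ y, ∑ x, A x y) ^ 2) ^ 2 := by ring
    _ ≤ (n * ∑ y, (∑ x, A x y) ^ 2) ^ 2 := Nat.pow_le_pow_left h4 2
    _ = n ^ 2 * (∑ p : Fin n × Fin n, (∑ y, A p.1 y * A y p.2)) ^ 2 := by rw [h3]; ring
    _ ≤ n ^ 2 * (n ^ 2 * ∑ p : Fin n × Fin n, (∑ y, A p.1 y * A y p.2) ^ 2) :=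
        Nat.mul_le_mul_left _ h5
    _ = _ := by ring

lemma c4_emb {n : ℕ} (G : SimpleGraph (Fin n)) [DecidableRel G.Adj] :
    (univ.filter (fun r : (Fin n × Fin n) × (Fin n × Fin n) =>
      (G.Adj r.1.1 r.2.1 ∧ G.Adj r.2.1 r.1.2) ∧ (G.Adj r.1.1 r.2.2 ∧ G.Adj r.2.2 r.1.2))).card ≤
    G.labelledCopyCount (SimpleGraph.cycleGraph 4) + 2 * n ^ 3 := by
  classical
  set S := (univ.filter (fun r : (Fin n × Fin n) × (Fin n × Fin n) =>
      (G.Adj r.1.1 r.2.1 ∧ G.Adj r.2.1 r.1.2) ∧ (G.Adj r.1.1 r.2.2 ∧ G.Adj r.2.2 r.1.2))) with hS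
  have h1 : S ⊆ (S.filter (fun r => r.1.1 ≠ r.1.2 ∧ r.2.1 ≠ r.2.2)) ∪
      ((univ.filter (fun r : (Fin n × Fin n) × (Fin n × Fin n) => r.1.1 = r.1.2)) ∪
      (univ.filter (fun r : (Fin n × Fin n) × (Fin n × Fin n) => r.2.1 = r.2.2))) := by
    intro r hr
    simp only [mem_union, mem_filter, mem_univ, true_and]
    by_cases h2 : r.1.1 = r.1.2
    · exact Or.inr (Or.inl h2)
    · by_cases h3 : r.2.1 = r.2.2
      · exact Or.inr (Or.inr h3)
      · exact Or.inl ⟨hr, h2, h3⟩
  have h2 : (univ.filter (fun r : (Fin n × Fin n) × (Fin n × Fin n) => r.1.1 = r.1.2)).card ≤ n ^ 3 := by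
    calc _ ≤ (univ : Finset (Fin n × (Fin n × Fin n))).card := by
          apply Finset.card_le_card_of_injOn (fun r => (r.1.1, r.2))
          · intro r _; simp
          · rintro ⟨⟨a, b⟩, c⟩ h ⟨⟨a', b'⟩, c'⟩ h' heq
            have h3 := (Finset.mem_filter.mp (Finset.mem_coe.mp h)).2
            have h4 := (Finset.mem_filter.mp (Finset.mem_coe.mp h')).2
            simp only [Prod.mk.injEq] at h3 h4 heq ⊢
            exact ⟨⟨heq.1, by rw [← h3, ← h4, heq.1]⟩, heq.2⟩
      _ = _ := by simp; ring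
  have h3 : (univ.filter (fun r : (Fin n × Fin n) × (Fin n × Fin n) => r.2.1 = r.2.2)).card ≤ n ^ 3 := by
    calc _ ≤ (univ : Finset (Fin n × (Fin n × Fin n))).card := by
          apply Finset.card_le_card_of_injOn (fun r => (r.2.1, r.1))
          · intro r _; simp
          · rintro ⟨c, ⟨a, b⟩⟩ h ⟨c', ⟨a', b'⟩⟩ h' heq
            have h3 := (Finset.mem_filter.mp (Finset.mem_coe.mp h)).2
            have h4 := (Finset.mem_filter.mp (Finset.mem_coe.mp h')).2
            simp only [Prod.mk.injEq] at h3 h4 heq ⊢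
            exact ⟨heq.2, ⟨heq.1, by rw [← h3, ← h4, heq.1]⟩⟩
      _ = _ := by simp; ring
  have h4 : (S.filter (fun r => r.1.1 ≠ r.1.2 ∧ r.2.1 ≠ r.2.2)).card ≤
      G.labelledCopyCount (SimpleGraph.cycleGraph 4) := by
    rw [lcc_eq]
    apply Finset.card_le_card_of_injOn (fun r => ![r.1.1, r.2.1, r.1.2, r.2.2])
    · rintro ⟨⟨x, z⟩, ⟨y, w⟩⟩ h
      have h5 := (Finset.mem_filter.mp (Finset.mem_coe.mp h))
      have h6 := (Finset.mem_filter.mp h5.1).2
      obtain ⟨h7, h8⟩ := h5.2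
      obtain ⟨⟨e1, e2⟩, ⟨e3, e4⟩⟩ := h6
      simp only at e1 e2 e3 e4 h7 h8
      refine Finset.mem_coe.mpr ((@Finset.mem_filter _ _ (_) _ _).mpr ⟨mem_univ _, ?_, ?_⟩)
      · have := e1.ne; have := e2.ne; have := e3.ne; have := e4.ne
        intro i j hij
        fin_cases i <;> fin_cases j <;> simp_all
      · intro u v huv
        rw [SimpleGraph.cycleGraph_adj'] at huv
        fin_cases u <;> fin_cases v <;>
          first
          | exact e1 | exact e2 | exact e3 | exact e4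
          | exact e1.symm | exact e2.symm | exact e3.symm | exact e4.symm
          | (exfalso; revert huv; decide)
    · rintro ⟨⟨x, z⟩, ⟨y, w⟩⟩ h ⟨⟨x', z'⟩, ⟨y', w'⟩⟩ h' heq
      have h0 := congrFun heq 0
      have h1 := congrFun heq 1
      have h2 := congrFun heq 2
      have h3 := congrFun heq 3
      simp at h0 h1 h2 h3
      simp [h0, h1, h2, h3]
  calc S.card ≤ _ := Finset.card_le_card h1
    _ ≤ _ + _ := Finset.card_union_le _ _
    _ ≤ _ + (_ + _) := Nat.add_le_add_left (Finset.card_union_le _ _) _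
    _ ≤ _ := by omega

end c4

end Pool.Agent.helper58.TF
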