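import Pool.Agent.helper58.TFa
import Pool.Agent.helper58.TFb

namespace Pool.Agent.helper58.TF
open Finset Filter Topology

/-- the error factor -/
noncomputable def bd (m e j : ℕ) : ℝ :=
  Real.exp ((4 ^ e * (2 * j ^ 2)) / m) *
    (1 + ((e : ℝ) ^ e * Real.exp (4 ^ e)) * 2 ^ e * ((m : ℝ) ^ e / 2 ^ m)) / (1 - 1 / (4 * m)) ^ e

lemma bd_tendsto (e j : ℕ) : Tendsto (fun m => bd m e j) atTop (𝓝 1) := by
  have h1 : Tendsto (fun m : ℕ => Real.exp ((4 ^ e * (2 * (j : ℝ) ^ 2)) / m)) atTop (𝓝 1) := by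
    have := (Real.continuous_exp.tendsto 0).comp
      (tendsto_const_div_atTop_nhds_zero_nat (4 ^ e * (2 * (j : ℝ) ^ 2)))
    simpa [Function.comp_def] using this
  have h2 : Tendsto (fun m : ℕ => 1 + ((e : ℝ) ^ e * Real.exp (4 ^ e)) * 2 ^ e * ((m : ℝ) ^ e / 2 ^ m))
      atTop (𝓝 1) := by
    have := (tendsto_pow_const_div_const_pow_of_one_lt e (by norm_num : (1 : ℝ) < 2)).const_mul
      (((e : ℝ) ^ e * Real.exp (4 ^ e)) * 2 ^ e)
    have := this.const_add 1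
    simpa using this
  have h3 : Tendsto (fun m : ℕ => (1 - 1 / (4 * (m : ℝ))) ^ e) atTop (𝓝 1) := by
    have h4 : Tendsto (fun m : ℕ => (1 : ℝ) - 1 / (4 * (m : ℝ))) atTop (𝓝 1) := by
      have := (tendsto_const_div_atTop_nhds_zero_nat (1 / 4 : ℝ)).const_sub 1
      simp only [sub_zero] at this
      refine this.congr (fun m => ?_)
      congr 1
      field_simp
    simpa using h4.pow e
  have h := (h1.mul h2).div h3 one_ne_zero
  simp only [mul_one, div_one] at h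
  exact h

lemma ratio_bound {V : Type*} [Fintype V] [DecidableEq V] (F : SimpleGraph V) [DecidableRel F.Adj]
    (hF : F.CliqueFree 3) {m : ℕ} (hm : 1 ≤ m) :
    (homH F (2 ^ m) (m * 2 ^ m) : ℝ) ≤
      (((2 : ℝ) ^ (m * 2 ^ m) * (2 * (m * 2 ^ m : ℕ))) ^ (2 ^ m)) ^ Fintype.card V *
      ((prs (2 ^ m) (m * 2 ^ m) : ℝ) /
        (((2 : ℝ) ^ (m * 2 ^ m) * (2 * (m * 2 ^ m : ℕ))) ^ (2 ^ m)) ^ 2) ^ F.edgeFinset.card *
      bd m F.edgeFinset.card (Fintype.card V) := by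
  set e := F.edgeFinset.card with he
  set j := Fintype.card V with hj
  have h2m : 1 ≤ 2 ^ m := Nat.one_le_two_pow
  set k := 2 ^ m with hk
  set q := m * k with hqq
  have hq : 1 ≤ q := Nat.mul_pos hm h2m
  have hkq : k ≤ q := Nat.le_mul_of_pos_left k hm
  have hm' : (1 : ℝ) ≤ m := by exact_mod_cast hm
  have hk' : (1 : ℝ) ≤ k := by exact_mod_cast h2m
  have hk0 : (0 : ℝ) < k := by linarith
  have hm0 : (0 : ℝ) < m := by linarith
  have hq' : (1 : ℝ) ≤ q := by exact_mod_cast hq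
  have hq0 : (0 : ℝ) < q := by linarith
  have hqmk : (q : ℝ) = m * k := by rw [hqq]; push_cast; rfl
  have h1 := homH_le F hF hq hkq
  rw [← he, ← hj] at h1
  set M : ℝ := (2 : ℝ) ^ q * (2 * (q : ℕ)) with hM
  have hM0 : 0 < M := by positivity
  have h2 := prs_lower (k := k) (q := q) hq
  have hx : (k : ℝ) / (2 * q) = 1 / (2 * m) := by
    rw [hqmk]; field_simp
  have hx' : (k : ℝ) / (4 * q) = 1 / (4 * m) := by
    rw [hqmk]; field_simp
  rw [← hM, hx, hx'] at h2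
  have hpi : (1 / 4 : ℝ) ^ k * ((1 / (2 * m)) * (1 - 1 / (4 * m))) ≤
      (prs k q : ℝ) / (M ^ k) ^ 2 := by
    rw [le_div_iff₀ (by positivity)]
    refine le_trans (le_of_eq ?_) h2
    have : (M ^ 2 / 4) ^ k = (1 / 4 : ℝ) ^ k * (M ^ k) ^ 2 := by
      rw [← pow_mul, mul_comm k 2, pow_mul, ← mul_pow]
      congr 1
      ring
    rw [this]
    ring
  have h14 : (0 : ℝ) < 1 - 1 / (4 * m) := by
    have : 1 / (4 * (m : ℝ)) ≤ 1 / 4 := by
      apply one_div_le_one_div_of_le (by norm_num)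
      linarith
    linarith
  have hpie : ((1 / 4 : ℝ) ^ k) ^ e * ((1 / (2 * m)) ^ e * (1 - 1 / (4 * m)) ^ e) ≤
      ((prs k q : ℝ) / (M ^ k) ^ 2) ^ e := by
    rw [← mul_pow, ← mul_pow]
    exact pow_le_pow_left₀ (by positivity) hpi e
  refine h1.trans ?_
  have e1 : ((2 : ℝ) ^ (q * j) * (2 * q) ^ j * ((1 + 4 ^ e * (2 * j ^ 2) / q) / 4 ^ e)) ^ k =
      (M ^ k) ^ j * (((1 / 4 : ℝ) ^ k) ^ e * (1 + 4 ^ e * (2 * j ^ 2) / q) ^ k) := by
    have e2 : (2 : ℝ) ^ (q * j) * (2 * q) ^ j = M ^ j := by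
      rw [hM, mul_pow ((2 : ℝ) ^ q) (2 * q) j, ← pow_mul]
    rw [e2]
    generalize (1 + 4 ^ e * (2 * (j : ℝ) ^ 2) / q) = A
    rw [mul_pow, div_pow, ← pow_mul, ← pow_mul, ← pow_mul, ← pow_mul, mul_comm j k, mul_comm k e,
      one_div, inv_pow]
    field_simp
  rw [e1, hx]
  have h5 : (1 + 4 ^ e * (2 * (j : ℝ) ^ 2) / q) ^ k ≤ Real.exp ((4 ^ e * (2 * j ^ 2)) / m) := by
    calc (1 + 4 ^ e * (2 * (j : ℝ) ^ 2) / q) ^ k ≤ (Real.exp (4 ^ e * (2 * (j : ℝ) ^ 2) / q)) ^ k := by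
          apply pow_le_pow_left₀ (by positivity)
          rw [add_comm]
          exact Real.add_one_le_exp _
      _ = Real.exp (k * (4 ^ e * (2 * (j : ℝ) ^ 2) / q)) := by rw [← Real.exp_nat_mul]
      _ = _ := by
          congr 1
          rw [hqmk]
          field_simp
  set K : ℝ := (e : ℝ) ^ e * Real.exp (4 ^ e) with hK
  have hK0 : 0 ≤ K := by positivity
  have h6 : (1 / (2 * (m : ℝ))) ^ e + K / q ≤ (1 / (2 * m)) ^ e *
      (1 + K * 2 ^ e * ((m : ℝ) ^ e / 2 ^ m)) := by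
    rw [mul_add, mul_one]
    apply add_le_add_right
    have h7 : (1 / (2 * (m : ℝ))) ^ e * (K * 2 ^ e * ((m : ℝ) ^ e / 2 ^ m)) = K / k := by
      have : (2 : ℝ) ^ m = k := by rw [hk]; push_cast; rfl
      rw [this, div_pow, mul_pow, one_pow]
      field_simp
    rw [h7]
    apply div_le_div_of_nonneg_left hK0 hk0
    rw [hqmk]
    nlinarith
  have hbd : bd m e j = Real.exp ((4 ^ e * (2 * j ^ 2)) / m) *
    (1 + K * 2 ^ e * ((m : ℝ) ^ e / 2 ^ m)) / (1 - 1 / (4 * m)) ^ e := rfl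
  rw [hbd]
  have hE : 0 ≤ (1 + K * 2 ^ e * ((m : ℝ) ^ e / 2 ^ m)) := by positivity
  calc (M ^ k) ^ j * (((1 / 4 : ℝ) ^ k) ^ e * (1 + 4 ^ e * (2 * j ^ 2) / q) ^ k) *
        ((1 / (2 * (m : ℝ))) ^ e + K / q)
      ≤ (M ^ k) ^ j * (((1 / 4 : ℝ) ^ k) ^ e * Real.exp ((4 ^ e * (2 * j ^ 2)) / m)) *
        ((1 / (2 * m)) ^ e * (1 + K * 2 ^ e * ((m : ℝ) ^ e / 2 ^ m))) := by
        gcongr
    _ = (M ^ k) ^ j * (((1 / 4 : ℝ) ^ k) ^ e * ((1 / (2 * m)) ^ e * (1 - 1 / (4 * m)) ^ e)) *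
        (Real.exp ((4 ^ e * (2 * j ^ 2)) / m) *
        (1 + K * 2 ^ e * ((m : ℝ) ^ e / 2 ^ m)) / (1 - 1 / (4 * m)) ^ e) := by
        have hD : (1 - 1 / (4 * (m : ℝ))) ^ e ≠ 0 := by positivity
        generalize (1 - 1 / (4 * (m : ℝ))) ^ e = D at hD ⊢
        generalize (1 + K * 2 ^ e * ((m : ℝ) ^ e / 2 ^ m)) = E
        generalize Real.exp ((4 ^ e * (2 * (j : ℝ) ^ 2)) / m) = E'
        field_simp
    _ ≤ _ := by
        apply mul_le_mul_of_nonneg_right _ (by positivity)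
        apply mul_le_mul_of_nonneg_left hpie (by positivity)

end Pool.Agent.helper58.TF
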