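import Pool.Agent.helper58.TFc

namespace Pool.Agent.helper58.TF
open Finset Filter Topology

/-- the edge density -/
noncomputable def dens {n : ℕ} (G : SimpleGraph (Fin n)) : ℝ :=
  (Nat.card G.edgeSet : ℝ) / (n.choose 2 : ℝ)

/-- the normalised number of labelled copies -/
noncomputable def sp (p : ℝ) {k n : ℕ} (F : SimpleGraph (Fin k)) (G : SimpleGraph (Fin n)) : ℝ :=
  (G.labelledCopyCount F : ℝ) / ((n.descFactorial k : ℝ) * p ^ (Nat.card F.edgeSet))

lemma card_edgeSet_eq {V : Type*} [Fintype V] [DecidableEq V] (G : SimpleGraph V)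
    [DecidableRel G.Adj] : Nat.card G.edgeSet = G.edgeFinset.card := by
  rw [Nat.card_eq_fintype_card, SimpleGraph.edgeFinset_card]

lemma dens_eq {n : ℕ} (hn : 2 ≤ n) (G : SimpleGraph (Fin n)) [DecidableRel G.Adj] :
    dens G = ((univ.filter (fun p : Fin n × Fin n => G.Adj p.1 p.2)).card : ℝ) / (n * (n - 1)) := by
  have h := SimpleGraph.two_mul_card_edgeFinset (G := G)
  rw [dens, card_edgeSet_eq, Nat.cast_choose_two]
  have h' : (2 : ℝ) * G.edgeFinset.card =
      ((univ.filter (fun p : Fin n × Fin n => G.Adj p.1 p.2)).card : ℝ) := by exact_mod_cast h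
  rw [← h']
  have hn' : (2 : ℝ) ≤ n := by exact_mod_cast hn
  have : (n : ℝ) ≠ 0 := by positivity
  have : (n : ℝ) - 1 ≠ 0 := by linarith
  field_simp

lemma dens_blow_ge {W : Type*} [Fintype W] [DecidableEq W] (Hg : SimpleGraph W)
    [DecidableRel Hg.Adj] {N : ℕ} (e : W ≃ Fin N) (hN : 0 < N) (n : ℕ) (hn : N ≤ n) (hn2 : 2 ≤ n) :
    (((univ.filter (fun p : W × W => Hg.Adj p.1 p.2)).card : ℝ) / (N : ℝ) ^ 2) * (1 - N / n) ^ 2 ≤
      dens (blow Hg e hN n) := by
  rw [dens_eq hn2]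
  have h := blow_pairs_ge Hg e hN n hn
  have hn' : (2 : ℝ) ≤ n := by exact_mod_cast hn2
  have h1 : (0 : ℝ) < n := by linarith
  have h2 : (0 : ℝ) < n - 1 := by linarith
  have hN' : (0 : ℝ) < N := by exact_mod_cast hN
  rw [le_div_iff₀ (by positivity)]
  refine le_trans ?_ h
  set P := ((univ.filter (fun p : W × W => Hg.Adj p.1 p.2)).card : ℝ) with hP
  have hP0 : 0 ≤ P := Nat.cast_nonneg _
  have h3 : P / (N : ℝ) ^ 2 * (1 - N / n) ^ 2 * (n * (n - 1)) ≤
      P / (N : ℝ) ^ 2 * (1 - N / n) ^ 2 * (n * n) := by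
    apply mul_le_mul_of_nonneg_left _ (by positivity)
    nlinarith
  refine h3.trans (le_of_eq ?_)
  have : (n : ℝ) / N - 1 = (n / N) * (1 - N / n) := by field_simp
  rw [this]
  field_simp

/-- a good graph -/
def Good (m n : ℕ) (G : SimpleGraph (Fin n)) : Prop :=
  G.CliqueFree 3 ∧ 0 < dens G ∧ Real.log (1 / dens G) ≤ Real.log n / (m + 1) ∧
  ∀ j : Fin (m + 1), ∀ F : SimpleGraph (Fin j), F.CliqueFree 3 →
    sp (dens G) F G ≤ bd m (Nat.card F.edgeSet) j + 1 / (m + 1)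

lemma sp_blow_le {k q N : ℕ} (e : (Fin k → Blk q) ≃ Fin N) (hN : 0 < N) {j : ℕ}
    (F : SimpleGraph (Fin j)) [DecidableRel F.Adj] (b π : ℝ) (hb0 : 0 ≤ b)
    (hπ : π = (prs k q : ℝ) / (N : ℝ) ^ 2) (hπ0 : 0 < π)
    (h10 : (homH F k q : ℝ) ≤ (N : ℝ) ^ j * π ^ (Nat.card F.edgeSet) * b)
    (n : ℕ) (h3 : N ≤ n) (h4 : 2 ≤ n) (h5 : j < n) (h2 : (N : ℝ) / n < 1 / 2) :
    sp (dens (blow (H k q) e hN n)) F (blow (H k q) e hN n) ≤
      b * (((n : ℝ) + N) / (n + 1 - j)) ^ j / ((1 - N / (n : ℝ)) ^ 2) ^ (Nat.card F.edgeSet) := by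
  have hn0 : (0 : ℝ) < n := by
    have : (2 : ℝ) ≤ n := by exact_mod_cast h4
    linarith
  have hN' : (0 : ℝ) < N := by exact_mod_cast hN
  set f := Nat.card F.edgeSet with hf
  set G := blow (H k q) e hN n with hG
  have hd := dens_blow_ge (H k q) e hN n h3 h4
  have hd' : π * (1 - N / n) ^ 2 ≤ dens G := by rw [hπ]; exact hd
  have h6 : (0 : ℝ) < 1 - N / n := by linarith
  have h7 : ((G.labelledCopyCount F : ℕ) : ℝ) ≤ π ^ f * b * ((n : ℝ) + N) ^ j := by
    have h8 := lcc_le F G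
    have h9 := blow_hom_le F (H k q) e hN n
    rw [Fintype.card_fin] at h9
    calc ((G.labelledCopyCount F : ℕ) : ℝ) ≤ _ := by exact_mod_cast h8
      _ ≤ _ := h9
      _ ≤ ((N : ℝ) ^ j * π ^ f * b) * ((n : ℝ) / N + 1) ^ j := by
          apply mul_le_mul_of_nonneg_right _ (by positivity)
          exact h10
      _ = π ^ f * b * ((N : ℝ) * ((n : ℝ) / N + 1)) ^ j := by
          rw [mul_pow]; ring
      _ = _ := by
          congr 2
          field_simp
  have h11 : ((n : ℝ) + 1 - j) ^ j ≤ (n.descFactorial j : ℝ) := by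
    have h12 := Nat.pow_sub_le_descFactorial n j
    have h13 : (((n + 1 - j : ℕ) : ℝ)) = (n : ℝ) + 1 - j := by
      rw [Nat.cast_sub (by omega)]; push_cast; ring
    rw [← h13]
    exact_mod_cast h12
  have h14 : (0 : ℝ) < (n : ℝ) + 1 - j := by
    have : (j : ℝ) < n := by exact_mod_cast h5
    linarith
  rw [sp]
  have hden : ((n : ℝ) + 1 - j) ^ j * (π * (1 - N / n) ^ 2) ^ f ≤
      (n.descFactorial j : ℝ) * dens G ^ f := by
    apply mul_le_mul h11 (pow_le_pow_left₀ (by positivity) hd' f) (by positivity) (by positivity)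
  calc ((G.labelledCopyCount F : ℕ) : ℝ) / ((n.descFactorial j : ℝ) * dens G ^ f)
      ≤ (π ^ f * b * ((n : ℝ) + N) ^ j) /
        (((n : ℝ) + 1 - j) ^ j * (π * (1 - N / n) ^ 2) ^ f) := by
        apply div_le_div₀ (by positivity) h7 (by positivity) hden
    _ = _ := by
        rw [div_pow, mul_pow]
        have e1 : π ^ f ≠ 0 := by positivity
        have e2 : ((1 - (N : ℝ) / n) ^ 2) ^ f ≠ 0 := by positivity
        have e3 : ((n : ℝ) + 1 - j) ^ j ≠ 0 := by positivity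
        generalize ((1 - (N : ℝ) / n) ^ 2) ^ f = X at e2 ⊢
        generalize ((n : ℝ) + 1 - j) ^ j = Y at e3 ⊢
        field_simp

lemma lim_aux (N j f : ℕ) (b : ℝ) : Tendsto (fun n : ℕ => b * (((n : ℝ) + N) / (n + 1 - j)) ^ j /
    ((1 - N / (n : ℝ)) ^ 2) ^ f) atTop (𝓝 b) := by
  have hNn : Tendsto (fun n : ℕ => (N : ℝ) / n) atTop (𝓝 0) := tendsto_const_div_atTop_nhds_zero_nat _
  have h1 : Tendsto (fun n : ℕ => ((n : ℝ) + N) / (n + 1 - j)) atTop (𝓝 1) := by
    have h2 : Tendsto (fun n : ℕ => (1 + (N : ℝ) / n) / (1 + (1 - j : ℝ) / n)) atTop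
        (𝓝 ((1 + 0) / (1 + 0))) := by
      apply Tendsto.div
      · exact hNn.const_add 1
      · exact (tendsto_const_div_atTop_nhds_zero_nat _).const_add 1
      · norm_num
    simp only [add_zero, div_one] at h2
    refine h2.congr' ?_
    filter_upwards [eventually_gt_atTop j, eventually_gt_atTop 0] with n hn hn0
    have hn0' : (0 : ℝ) < n := by exact_mod_cast hn0
    have hn' : (j : ℝ) < n := by exact_mod_cast hn
    have h4 : (0 : ℝ) < (n : ℝ) + 1 - j := by linarith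
    have h5 : (1 : ℝ) + (1 - j) / n = (n + 1 - j) / n := by field_simp; ring
    have h6 : (1 : ℝ) + N / n = (n + N) / n := by field_simp
    rw [h5, h6]
    field_simp
  have h3 : Tendsto (fun n : ℕ => ((1 - N / (n : ℝ)) ^ 2) ^ f) atTop (𝓝 1) := by
    have h4 : Tendsto (fun n : ℕ => (1 - N / (n : ℝ))) atTop (𝓝 1) := by
      simpa using hNn.const_sub 1
    simpa using (h4.pow 2).pow f
  have h5 := ((h1.pow j).const_mul b).div h3 one_ne_zero
  simp only [one_pow, mul_one, div_one] at h5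
  exact h5

lemma card_vert (k q : ℕ) :
    ((Fintype.card (Fin k → Blk q) : ℕ) : ℝ) = ((2 : ℝ) ^ q * (2 * (q : ℕ))) ^ k := by
  simp only [Fintype.card_fun, Fintype.card_fin, Fintype.card_prod, Fintype.card_bool]
  push_cast
  ring

lemma bd_nonneg {m : ℕ} (hm : 1 ≤ m) (e j : ℕ) : 0 ≤ bd m e j := by
  have hm' : (1 : ℝ) ≤ m := by exact_mod_cast hm
  have : 1 / (4 * (m : ℝ)) ≤ 1 / 4 := by
    apply one_div_le_one_div_of_le (by norm_num)
    linarith
  have : (0 : ℝ) ≤ 1 - 1 / (4 * m) := by linarith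
  rw [bd]
  positivity

lemma good_aux (m k q : ℕ) (hm : 1 ≤ m) (hk : k = 2 ^ m) (hq : q = m * 2 ^ m) :
    ∀ᶠ n : ℕ in atTop, ∃ G, Good m n G := by
  have hk1 : 1 ≤ k := by rw [hk]; exact Nat.one_le_two_pow
  have hq1 : 1 ≤ q := by rw [hq]; exact Nat.mul_pos hm (Nat.one_le_two_pow)
  have hkq' : k ≤ q := by rw [hq, ← hk]; exact Nat.le_mul_of_pos_left _ hm
  have hqpos : (0 : ℝ) < q := by exact_mod_cast hq1
  have hNe : Nonempty (Fin q) := ⟨⟨0, hq1⟩⟩
  obtain ⟨N, hNdef⟩ : ∃ N, N = Fintype.card (Fin k → Blk q) := ⟨_, rfl⟩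
  have hN : 0 < N := by rw [hNdef]; exact Fintype.card_pos
  have hN' : (0 : ℝ) < N := by exact_mod_cast hN
  have hNM : (N : ℝ) = ((2 : ℝ) ^ q * (2 * (q : ℕ))) ^ k := by
    rw [hNdef]; exact card_vert k q
  have e : (Fin k → Blk q) ≃ Fin N := Fintype.equivFinOfCardEq hNdef.symm
  obtain ⟨π, hπ⟩ : ∃ π : ℝ, π = (prs k q : ℝ) / (N : ℝ) ^ 2 := ⟨_, rfl⟩
  have hπ0 : 0 < π := by
    rw [hπ]
    apply div_pos _ (by positivity)
    refine lt_of_lt_of_le ?_ (prs_lower (k := k) (q := q) hq1)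
    have hkpos : (0 : ℝ) < k := by exact_mod_cast hk1
    have hkq : (k : ℝ) ≤ q := by exact_mod_cast hkq'
    have : (0 : ℝ) < 1 - k / (4 * q) := by
      rw [sub_pos, div_lt_one (by positivity)]
      linarith
    positivity
  have hrat : ∀ j : ℕ, ∀ F : SimpleGraph (Fin j), ∀ [DecidableRel F.Adj], F.CliqueFree 3 →
      (homH F k q : ℝ) ≤ (N : ℝ) ^ j * π ^ (Nat.card F.edgeSet) * bd m (Nat.card F.edgeSet) j := by
    intro j F _ hF
    have h10 := ratio_bound F hF hm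
    rw [Fintype.card_fin, ← hq, ← hk, ← hNM, ← hπ, ← card_edgeSet_eq] at h10
    exact h10
  clear hNM hk hq hNdef
  -- eventual facts
  have hNn : Tendsto (fun n : ℕ => (N : ℝ) / n) atTop (𝓝 0) := tendsto_const_div_atTop_nhds_zero_nat _
  have hA : ∀ᶠ n : ℕ in atTop, (N : ℝ) / n < 1 / 2 := hNn.eventually (gt_mem_nhds (by norm_num))
  have hlog : ∀ᶠ n : ℕ in atTop, Real.log (4 / π) ≤ Real.log n / (m + 1) := by
    have : Tendsto (fun n : ℕ => Real.log n / (m + 1)) atTop atTop :=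
      (Real.tendsto_log_atTop.comp tendsto_natCast_atTop_atTop).atTop_div_const (by positivity)
    exact this.eventually (eventually_ge_atTop _)
  have hF : ∀ᶠ n : ℕ in atTop, ∀ j : Fin (m + 1), ∀ F : SimpleGraph (Fin j), F.CliqueFree 3 →
      sp (dens (blow (H k q) e hN n)) F (blow (H k q) e hN n) ≤
        bd m (Nat.card F.edgeSet) j + 1 / (m + 1) := by
    rw [Filter.eventually_all]
    intro j
    rw [Filter.eventually_all]
    intro F
    by_cases hFc : F.CliqueFree 3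
    swap
    · exact Filter.Eventually.of_forall (fun n h => absurd h hFc)
    have hlt : bd m (Nat.card F.edgeSet) j < bd m (Nat.card F.edgeSet) j + 1 / ((m : ℝ) + 1) := by
      have : (0 : ℝ) < 1 / ((m : ℝ) + 1) := by positivity
      linarith
    have hlim := lim_aux N j (Nat.card F.edgeSet) (bd m (Nat.card F.edgeSet) j)
    filter_upwards [hlim.eventually (gt_mem_nhds hlt), hA, eventually_ge_atTop N,
      eventually_ge_atTop 2, eventually_gt_atTop (j : ℕ)] with n h1 h2 h3 h4 h5 _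
    refine le_trans ?_ h1.le
    letI : DecidableRel F.Adj := Classical.decRel _
    exact sp_blow_le e hN F _ π (bd_nonneg hm _ _) hπ hπ0 (hrat j F hFc) n h3 h4 h5 h2
  filter_upwards [hA, hlog, hF, eventually_ge_atTop N, eventually_ge_atTop 2] with n h1 h2 h3 h4 h5
  have hd := dens_blow_ge (H k q) e hN n h4 h5
  have hd' : π * (1 - N / n) ^ 2 ≤ dens (blow (H k q) e hN n) := by rw [hπ]; exact hd
  have h6 : (1 / 2 : ℝ) ≤ 1 - N / n := by linarith
  have h7 : π / 4 ≤ dens (blow (H k q) e hN n) := by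
    refine le_trans ?_ hd'
    have : (1 / 4 : ℝ) ≤ (1 - N / n) ^ 2 := by nlinarith
    nlinarith
  refine ⟨blow (H k q) e hN n, blow_cliqueFree _ (H_cliqueFree k q) e hN n, by linarith, ?_, h3⟩
  refine le_trans ?_ h2
  apply Real.log_le_log
  · apply div_pos one_pos; linarith
  · rw [div_le_div_iff₀ (by linarith) hπ0]
    linarith

lemma good_ex (m : ℕ) (hm : 1 ≤ m) : ∀ᶠ n : ℕ in atTop, ∃ G, Good m n G :=
  good_aux m _ _ hm rfl rfl

end Pool.Agent.helper58.TF
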